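import Pool.Agent.H46.CZ.Lst

/-!
# CZ.Brn : a branch of a path inside a piece (about 130 lines)

`branch`: head induction on `Con G c v₀ u` (`Relation.ReflTransGen.head_induction_on`). Claim for every `a` with `Con G c v₀ a`, `Con G c a u`, `c a ≠ 0`: either (good) there are `v ∈ s` and `R` with `PI G v z R` and all members of `R` of colour `≠ 0`, not in `s`, joined to `v₀`; or `a ∉ s` and there is such an `R` with
`PI G a z R`. For `a = u`: `R = []` (`G.Adj u z`; `u ≠ z` as `c u ≠ 0 = c z`). Step from `b` to `a` (`G.Adj a b`, not good for `b`, list `R` for `b`): if `a ∈ s` then `v = a` with the list `b :: R` (`a` is not in it, since its members are not in `s`): good. If `a ∉ s` and `a ∈ b :: R` cut the list at `a` (`pi_split`): `R` is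
the part after `a`. If `a ∉ s`, `a ∉ b :: R` take `b :: R`. At the end `a = v₀ ∈ s`, so it is good. (To keep the information `Con G c v₀ w` for the members do the induction in the form: every member `w` satisfies `Con G c a w`.) If `v₀ = u` note `c u ≠ 0` because `u = v₀ ∈ s`.
`branch_paths`: from `branch`, `s = s₁ ++ v :: s₂`, `e = s₁.length + 1`, `ρ = R.length + 1`, `s' = s₁ ++ v :: R` (`pi_split`, `pi_app`), `s'' = R.reverse ++ v :: s₂` (`pi_rev`).
`bridge`: the same induction with the target `s'` instead of `z`: for `a` either (good) or `a ∉ s` and there are `v' ∈ s'`, `R` with `PI G a v' R` (`a ∉ s'`), members of colour `≠ 0`, not in `s`, not in `s'`, or `a ∈ s'` (take `v' = a`). As the lists `s`, `s'` are disjoint, the walk leaves `s` for the last time at `v` and then meets `s'`.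
-/

namespace H46.CZ

open Pool.Agent.H3.LC H46.CY

variable {V : Type} {G : SimpleGraph V} {c : V → ℕ}

private theorem pi_cons {a b z : V} {R : List V} (hab : G.Adj a b) (h : PI G b z R) (ha : a ∉ R)
    (hbz : z ≠ b) : PI G a z (b :: R) := by
  obtain ⟨h1, h2, h3, h4⟩ := h
  refine ⟨?_, List.nodup_cons.2 ⟨h3, h2⟩, ?_, ?_⟩
  · rw [List.cons_append, List.isChain_cons_cons]
    exact ⟨hab, h1⟩
  · rw [List.mem_cons, not_or]
    exact ⟨hab.ne, ha⟩
  · rw [List.mem_cons, not_or]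
    exact ⟨hbz, h4⟩

private theorem pi_nil {a b : V} (hab : G.Adj a b) : PI G a b [] := by
  refine ⟨?_, List.nodup_nil, List.not_mem_nil, List.not_mem_nil⟩
  rw [List.nil_append, List.isChain_cons_cons]
  exact ⟨hab, List.isChain_singleton _⟩

theorem branch {x y z u v₀ : V} {s : List V} (hs : PI G x y s) (hc : ∀ v ∈ s, c v ≠ 0)
    (hv₀ : v₀ ∈ s) (hu : Con G c v₀ u) (huz : G.Adj u z) (hz : c z = 0) :
    ∃ (s₁ : List V) (v : V) (s₂ R : List V), s = s₁ ++ v :: s₂ ∧ PI G v z R ∧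
      ∀ w ∈ R, c w ≠ 0 ∧ w ∉ s ∧ Con G c v₀ w := by
  have key : ∀ a, Con G c a u → Con G c v₀ a → c a ≠ 0 →
      (∃ v ∈ s, ∃ R, PI G v z R ∧ ∀ w ∈ R, c w ≠ 0 ∧ w ∉ s ∧ Con G c v₀ w) ∨
      (a ∉ s ∧ ∃ R, PI G a z R ∧ ∀ w ∈ R, c w ≠ 0 ∧ w ∉ s ∧ Con G c v₀ w) := by
    intro a ha
    induction ha using Relation.ReflTransGen.head_induction_on with
    | refl =>
      intro _ _
      by_cases hus : u ∈ s
      · exact Or.inl ⟨u, hus, [], pi_nil huz, fun w hw => absurd hw List.not_mem_nil⟩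
      · exact Or.inr ⟨hus, [], pi_nil huz, fun w hw => absurd hw List.not_mem_nil⟩
    | head hab hbu ih =>
      rename_i a b
      intro h0 hca
      rcases ih (h0.tail hab) hab.2.2 with h | ⟨hbs, R, hR, hRc⟩
      · exact Or.inl h
      · have hzb : z ≠ b := by
          rintro rfl
          exact hab.2.2 hz
        have hmem : ∀ w ∈ b :: R, c w ≠ 0 ∧ w ∉ s ∧ Con G c v₀ w := by
          intro w hw
          rcases List.mem_cons.1 hw with rfl | hw
          · exact ⟨hab.2.2, hbs, h0.tail hab⟩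
          · exact hRc w hw
        by_cases has : a ∈ s
        · have haR : a ∉ R := fun h => (hRc a h).2.1 has
          exact Or.inl ⟨a, has, b :: R, pi_cons hab.1 hR haR hzb, hmem⟩
        · by_cases haR : a ∈ R
          · obtain ⟨R1, R2, rfl⟩ := List.append_of_mem haR
            refine Or.inr ⟨has, R2, (pi_split hR).2, fun w hw => hRc w ?_⟩
            simp [hw]
          · exact Or.inr ⟨has, b :: R, pi_cons hab.1 hR haR hzb, hmem⟩
  rcases key v₀ hu Relation.ReflTransGen.refl (hc v₀ hv₀) with ⟨v, hv, R, hR, hRc⟩ | ⟨h, _⟩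
  · obtain ⟨s₁, s₂, h⟩ := List.append_of_mem hv
    exact ⟨s₁, v, s₂, R, h, hR, hRc⟩
  · exact absurd hv₀ h

theorem branch_paths {x y z u v₀ : V} {s : List V} (hs : PI G x y s) (hc : ∀ v ∈ s, c v ≠ 0)
    (hv₀ : v₀ ∈ s) (hu : Con G c v₀ u) (huz : G.Adj u z) (hx : c x = 0) (hy : c y = 0)
    (hz : c z = 0) (hzx : z ≠ x) (hzy : z ≠ y) :
    ∃ (e ρ : ℕ) (s' s'' R : List V), 1 ≤ e ∧ e ≤ s.length ∧ 1 ≤ ρ ∧
      PI G x z s' ∧ s'.length + 1 = e + ρ ∧ s' ≠ [] ∧ (∀ v ∈ s', c v ≠ 0) ∧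
      PI G z y s'' ∧ s''.length + 1 = s.length + 1 - e + ρ ∧ s'' ≠ [] ∧ (∀ v ∈ s'', c v ≠ 0) ∧
      R.length + 1 = ρ ∧ R.Nodup ∧ ∀ w ∈ R, c w ≠ 0 ∧ w ∉ s ∧ Con G c v₀ w := by
  obtain ⟨s₁, v, s₂, R, rfl, hR, hRc⟩ := branch hs hc hv₀ hu huz hz
  obtain ⟨h1, h2⟩ := pi_split hs
  have hcv : c v ≠ 0 := hc v (by simp)
  have hxv : x ≠ v := by
    rintro rfl
    exact hcv hx
  have hyv : v ≠ y := by
    rintro rfl
    exact hcv hy
  have hzv : v ≠ z := by
    rintro rfl
    exact hcv hz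
  refine ⟨s₁.length + 1, R.length + 1, s₁ ++ v :: R, R.reverse ++ v :: s₂, R, by omega, ?_,
    by omega, ?_, ?_, by simp, ?_, ?_, ?_, by simp, ?_, rfl, hR.2.1, hRc⟩
  · simp
  · refine pi_app h1 hR hxv hzv ?_ ?_ ?_
    · intro w hw hw'
      exact (hRc w hw').2.1 (by simp [hw])
    · intro h
      exact (hRc x h).1 hx
    · intro h
      exact hc z (by simp [h]) hz
  · simp
    omega
  · intro w hw
    rw [List.mem_append, List.mem_cons] at hw
    rcases hw with hw | rfl | hw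
    · exact hc w (by simp [hw])
    · exact hcv
    · exact (hRc w hw).1
  · refine pi_app (pi_rev hR) h2 hzv.symm hyv ?_ ?_ ?_
    · intro w hw hw'
      rw [List.mem_reverse] at hw
      exact (hRc w hw).2.1 (by simp [hw'])
    · intro h
      exact hc z (by simp [h]) hz
    · intro h
      rw [List.mem_reverse] at h
      exact (hRc y h).1 hy
  · simp
    omega
  · intro w hw
    rw [List.mem_append, List.mem_cons, List.mem_reverse] at hw
    rcases hw with hw | rfl | hw
    · exact (hRc w hw).1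
    · exact hcv
    · exact hc w (by simp [hw])

theorem bridge {x y : V} {s s' : List V} (hs : PI G x y s) (hs' : PI G x y s')
    (hc : ∀ v ∈ s, c v ≠ 0) (hc' : ∀ v ∈ s', c v ≠ 0) (hd : ∀ v ∈ s, v ∉ s') {v₀ v₁ : V}
    (hv₀ : v₀ ∈ s) (hv₁ : v₁ ∈ s') (h : Con G c v₀ v₁) :
    ∃ (v v' : V) (R : List V), v ∈ s ∧ v' ∈ s' ∧ PI G v v' R ∧
      ∀ w ∈ R, c w ≠ 0 ∧ w ∉ s ∧ w ∉ s' := by
  have key : ∀ a, Con G c a v₁ →
      (∃ (v v' : V) (R : List V), v ∈ s ∧ v' ∈ s' ∧ PI G v v' R ∧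
        ∀ w ∈ R, c w ≠ 0 ∧ w ∉ s ∧ w ∉ s') ∨
      (a ∉ s ∧ (a ∈ s' ∨ (a ∉ s' ∧ ∃ (v' : V) (R : List V), v' ∈ s' ∧ PI G a v' R ∧
        ∀ w ∈ R, c w ≠ 0 ∧ w ∉ s ∧ w ∉ s'))) := by
    intro a ha
    induction ha using Relation.ReflTransGen.head_induction_on with
    | refl => exact Or.inr ⟨fun h => hd v₁ h hv₁, Or.inl hv₁⟩
    | head hab hbu ih =>
      rename_i a b
      rcases ih with h | ⟨hbs, hb | ⟨hbs', v', R, hv', hR, hRc⟩⟩
      · exact Or.inl h
      · by_cases has : a ∈ s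
        · exact Or.inl ⟨a, b, [], has, hb, pi_nil hab.1, fun w hw => absurd hw List.not_mem_nil⟩
        · by_cases has' : a ∈ s'
          · exact Or.inr ⟨has, Or.inl has'⟩
          · exact Or.inr ⟨has, Or.inr ⟨has', b, [], hb, pi_nil hab.1,
              fun w hw => absurd hw List.not_mem_nil⟩⟩
      · have hvb : v' ≠ b := by
          rintro rfl
          exact hbs' hv'
        have hmem : ∀ w ∈ b :: R, c w ≠ 0 ∧ w ∉ s ∧ w ∉ s' := by
          intro w hw
          rcases List.mem_cons.1 hw with rfl | hw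
          · exact ⟨hab.2.2, hbs, hbs'⟩
          · exact hRc w hw
        by_cases has : a ∈ s
        · have haR : a ∉ R := fun h => (hRc a h).2.1 has
          exact Or.inl ⟨a, v', b :: R, has, hv', pi_cons hab.1 hR haR hvb, hmem⟩
        · by_cases has' : a ∈ s'
          · exact Or.inr ⟨has, Or.inl has'⟩
          · by_cases haR : a ∈ R
            · obtain ⟨R1, R2, rfl⟩ := List.append_of_mem haR
              refine Or.inr ⟨has, Or.inr ⟨has', v', R2, hv', (pi_split hR).2,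
                fun w hw => hRc w ?_⟩⟩
              simp [hw]
            · exact Or.inr ⟨has, Or.inr ⟨has', v', b :: R, hv', pi_cons hab.1 hR haR hvb, hmem⟩⟩
  rcases key v₀ h with h | ⟨h, _⟩
  · exact h
  · exact absurd hv₀ h

end H46.CZ
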