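import Mathlib

/-!
# CZ.Car : few pieces suffice (about 90 lines)

Caratheodory. Let `J' = {j ∈ J | 0 < w j}`, `μ = ∑ j ∈ J, w j * m j`. If `μ = 0` then all `w j = 0` on `J` and `w' = 0` works. Otherwise the point `(1 / μ) * ∑ j ∈ J, w j * a j = ∑ j ∈ J', (w j * m j / μ) • (a j / m j)` of `ι → ℝ` is in the convex hull of the points `a j / m j`, `j ∈ J'`. `eq_pos_convex_span_of_mem_convexHull` gives an affinely
independent family `z : κ → (ι → ℝ)` of such points with positive coefficients `b` of sum `1`; `Fintype.card κ ≤ card ι + 1` (`AffineIndependent.card_le_finrank_succ`, `Module.finrank_fintype_fun_eq_card`). Choose for every `k : κ` some `j k ∈ J'` with `z k = a (j k) / m (j k)` (`k ↦ j k` is injective since `z` is injective) and let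
`w' (j k) = b k * μ / m (j k)`, `w' = 0` elsewhere.
-/

namespace H46.CZ

theorem carat {ι : Type} [Fintype ι] (J : Finset ℕ) (m : ℕ → ℝ) (a : ℕ → ι → ℝ) (w : ℕ → ℝ)
    (hm : ∀ j ∈ J, 0 < m j) (hw : ∀ j, 0 ≤ w j) :
    ∃ w' : ℕ → ℝ, (∀ j, 0 ≤ w' j) ∧ (∀ j, 0 < w' j → j ∈ J ∧ 0 < w j) ∧
      {j | 0 < w' j}.ncard ≤ Fintype.card ι + 1 ∧
      ∑ j ∈ J, w' j * m j = ∑ j ∈ J, w j * m j ∧
      ∀ i, ∑ j ∈ J, w' j * a j i = ∑ j ∈ J, w j * a j i := by
  classical
  have hnn : ∀ j ∈ J, 0 ≤ w j * m j := fun j hj => mul_nonneg (hw j) (hm j hj).le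
  set μ : ℝ := ∑ j ∈ J, w j * m j with hμ
  rcases (Finset.sum_nonneg hnn).eq_or_lt with h0 | h0
  · -- all weights vanish
    have hz : ∀ j ∈ J, w j = 0 := by
      intro j hj
      have h1 := (Finset.sum_eq_zero_iff_of_nonneg hnn).1 h0.symm j hj
      rcases mul_eq_zero.1 h1 with h2 | h2
      · exact h2
      · exact absurd h2 (hm j hj).ne'
    refine ⟨fun _ => 0, fun _ => le_rfl, fun j hj => absurd hj (lt_irrefl _), ?_, ?_, ?_⟩
    · simp
    · rw [hμ, ← h0]; simp
    · intro i
      refine Finset.sum_congr rfl fun j hj => ?_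
      rw [hz j hj]
  · have hμ0 : 0 < μ := h0
    set J' : Finset ℕ := J.filter (fun j => 0 < w j) with hJ'
    set s : Set (ι → ℝ) := (fun j => (m j)⁻¹ • a j) '' (J' : Set ℕ) with hs
    have hsub : ∀ (f : ℕ → ℝ), ∑ j ∈ J', w j * f j = ∑ j ∈ J, w j * f j := by
      intro f
      rw [hJ', Finset.sum_filter]
      refine Finset.sum_congr rfl fun j _ => ?_
      split_ifs with h
      · rfl
      · have : w j = 0 := le_antisymm (not_lt.1 h) (hw j)
        rw [this, zero_mul]
    set x : ι → ℝ := ∑ j ∈ J', (w j * m j / μ) • ((m j)⁻¹ • a j) with hx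
    have hxm : x ∈ convexHull ℝ s := by
      rw [hx]
      refine (convex_convexHull ℝ s).sum_mem ?_ ?_ ?_
      · intro j hj
        have hj2 := (Finset.mem_filter.1 hj).1
        exact div_nonneg (hnn j hj2) hμ0.le
      · rw [← Finset.sum_div, hsub, div_self hμ0.ne']
      · intro j hj
        exact subset_convexHull ℝ s ⟨j, hj, rfl⟩
    have hxi : ∀ i, μ * x i = ∑ j ∈ J, w j * a j i := by
      intro i
      rw [← hsub, hx, Finset.sum_apply, Finset.mul_sum]
      refine Finset.sum_congr rfl fun j hj => ?_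
      have hmj := hm j (Finset.mem_filter.1 hj).1
      simp only [Pi.smul_apply, smul_eq_mul]
      field_simp
    obtain ⟨κ, hκ, z, b, hz1, hz2, hb0, hb1, hb2⟩ := eq_pos_convex_span_of_mem_convexHull hxm
    have hch : ∀ k : κ, ∃ j, j ∈ J' ∧ z k = (m j)⁻¹ • a j := by
      intro k
      obtain ⟨j, hj, hj2⟩ := hz1 ⟨k, rfl⟩
      exact ⟨j, hj, hj2.symm⟩
    choose jk hjk hjz using hch
    have hmk : ∀ k, 0 < m (jk k) := fun k => hm _ (Finset.mem_filter.1 (hjk k)).1
    have hcard : Fintype.card κ ≤ Fintype.card ι + 1 := by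
      have h1 := hz2.card_le_finrank_succ
      have h2 := Submodule.finrank_le (vectorSpan ℝ (Set.range z))
      rw [Module.finrank_fintype_fun_eq_card] at h2
      omega
    refine ⟨fun n => ∑ k, if jk k = n then b k * μ / m n else 0, ?_, ?_, ?_, ?_, ?_⟩
    · intro n
      refine Finset.sum_nonneg fun k _ => ?_
      split_ifs with h
      · subst h
        exact div_nonneg (mul_nonneg (hb0 k).le hμ0.le) (hmk k).le
      · exact le_rfl
    · intro n hn
      obtain ⟨k, -, hk⟩ := Finset.exists_ne_zero_of_sum_ne_zero hn.ne'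
      have hk2 : jk k = n := by
        by_contra hne
        exact hk (if_neg hne)
      rw [← hk2]
      exact Finset.mem_filter.1 (hjk k)
    · have hss : {n | 0 < ∑ k, if jk k = n then b k * μ / m n else 0} ⊆
          (((Finset.univ : Finset κ).image jk : Finset ℕ) : Set ℕ) := by
        intro n hn
        have hn' : 0 < ∑ k, if jk k = n then b k * μ / m n else 0 := hn
        obtain ⟨k, -, hk⟩ := Finset.exists_ne_zero_of_sum_ne_zero hn'.ne'
        have hk2 : jk k = n := by
          by_contra hne
          exact hk (if_neg hne)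
        rw [Finset.mem_coe, Finset.mem_image]
        exact ⟨k, Finset.mem_univ _, hk2⟩
      refine (Set.ncard_le_ncard hss (Finset.finite_toSet _)).trans ?_
      rw [Set.ncard_coe_finset]
      exact Finset.card_image_le.trans (by rw [Finset.card_univ]; exact hcard)
    · have key : ∀ f : ℕ → ℝ, ∑ n ∈ J, (∑ k, if jk k = n then b k * μ / m n else 0) * f n =
          ∑ k, b k * μ / m (jk k) * f (jk k) := by
        intro f
        simp_rw [Finset.sum_mul]
        rw [Finset.sum_comm]
        refine Finset.sum_congr rfl fun k _ => ?_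
        rw [Finset.sum_eq_single (jk k)]
        · rw [if_pos rfl]
        · intro n _ hn
          rw [if_neg (fun h => hn h.symm), zero_mul]
        · intro h
          exact absurd (Finset.mem_filter.1 (hjk k)).1 h
      rw [key]
      have : ∀ k, b k * μ / m (jk k) * m (jk k) = b k * μ := fun k => div_mul_cancel₀ _ (hmk k).ne'
      simp_rw [this]
      rw [← Finset.sum_mul, hb1, one_mul]
    · intro i
      have key : ∑ n ∈ J, (∑ k, if jk k = n then b k * μ / m n else 0) * a n i =
          ∑ k, b k * μ / m (jk k) * a (jk k) i := by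
        simp_rw [Finset.sum_mul]
        rw [Finset.sum_comm]
        refine Finset.sum_congr rfl fun k _ => ?_
        rw [Finset.sum_eq_single (jk k)]
        · rw [if_pos rfl]
        · intro n _ hn
          rw [if_neg (fun h => hn h.symm), zero_mul]
        · intro h
          exact absurd (Finset.mem_filter.1 (hjk k)).1 h
      rw [key, ← hxi i, ← hb2, Finset.sum_apply, Finset.mul_sum]
      refine Finset.sum_congr rfl fun k _ => ?_
      rw [Pi.smul_apply, hjz k, Pi.smul_apply, smul_eq_mul, smul_eq_mul]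
      have := (hmk k).ne'
      field_simp

end H46.CZ
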