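import Pool.Agent.H46.CZ.Lst

/-!
# CZ.Chl : closed chains give cycles of the blow-up
-/

namespace H46.CZ

open Pool.Agent.H3.LC H46.CY

theorem sum_zmod {r : ℕ} [NeZero r] (g : ZMod r → ℕ) :
    ∑ i, g i = ∑ i ∈ Finset.range r, g (i : ZMod r) := by
  obtain ⟨q, rfl⟩ : ∃ q, r = q + 1 := ⟨r - 1, by have := NeZero.pos r; omega⟩
  rw [← Fin.sum_univ_eq_sum_range (fun i => g (i : ZMod (q + 1))) (q + 1)]
  refine Finset.sum_congr rfl fun i _ => ?_
  congr 1
  exact (ZMod.natCast_zmod_val i).symm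

theorem cast_inj {r j k : ℕ} [NeZero r] (hj : j < r) (hk : k < r)
    (h : (j : ZMod r) = (k : ZMod r)) : j = k := by
  have := congrArg ZMod.val h
  rwa [ZMod.val_natCast_of_lt hj, ZMod.val_natCast_of_lt hk] at this

theorem chain_mem {V : Type} {L : Finset ℕ} {G : SimpleGraph V} {c : V → ℕ} (hV : Valid L G c)
    {r : ℕ} [NeZero r] (hr : 2 ≤ r) {F : ZMod r → V} (hF : F ∈ HC c r) {s : ZMod r → List V}
    (hs : ∀ i, PI G (F i) (F (i + 1)) (s i) ∧ s i ≠ [] ∧ ∀ v ∈ s i, c v ≠ 0) :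
    ∑ i, ((s i).length + 1) ∈ L := by
  have hne : ∀ i j : ℕ, i < r → j < r → i ≠ j → F (i : ZMod r) ≠ F (j : ZMod r) :=
    fun i j hi hj hij h => hij (cast_inj hi hj (hF.1 h))
  have hcp : ∀ i j : ℕ, i < r → j < r → Fin.ofNat (r + 1) (i + 1) = Fin.ofNat (r + 1) (j + 1) →
      i = j := by
    intro i j hi hj h
    have h1 := congrArg Fin.val h
    simp only [Fin.val_ofNat] at h1
    rw [Nat.mod_eq_of_lt (by omega), Nat.mod_eq_of_lt (by omega)] at h1
    omega
  -- the lifted paths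
  have hlift : ∀ k : ℕ, PI (blow G c r) (lf c r 0 (F (k : ZMod r)))
      (lf c r 0 (F ((k + 1 : ℕ) : ZMod r)))
      ((s (k : ZMod r)).map (lf c r (Fin.ofNat (r + 1) (k + 1)))) := by
    intro k
    have h1 := pi_lift (c := c) (M := r) (Fin.ofNat (r + 1) (k + 1)) (hs (k : ZMod r)).1
    rw [lf_hub (Fin.ofNat (r + 1) (k + 1)) 0 (hF.2 (k : ZMod r)),
      lf_hub (Fin.ofNat (r + 1) (k + 1)) 0 (hF.2 ((k : ZMod r) + 1))] at h1
    rw [Nat.cast_add, Nat.cast_one]
    exact h1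
  have hhub : ∀ (k i : ℕ) (v : V), v ∈ s (i : ZMod r) →
      lf c r (Fin.ofNat (r + 1) (i + 1)) v ≠ lf c r 0 (F (k : ZMod r)) := by
    intro k i v hv h
    have h1 := (lf_inj h).1
    exact (hs _).2.2 v hv (h1 ▸ hF.2 _)
  have key : ∀ k : ℕ, 1 ≤ k → k + 1 ≤ r → ∃ T : List (BV c r),
      PI (blow G c r) (lf c r 0 (F ((0 : ℕ) : ZMod r))) (lf c r 0 (F (k : ZMod r))) T ∧
      T.length + 1 = ∑ i ∈ Finset.range k, ((s (i : ZMod r)).length + 1) ∧
      ∀ x ∈ T, (∃ i : ℕ, 0 < i ∧ i < k ∧ x = lf c r 0 (F (i : ZMod r))) ∨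
        ∃ i : ℕ, i < k ∧ ∃ v ∈ s (i : ZMod r), lf c r (Fin.ofNat (r + 1) (i + 1)) v = x := by
    intro k hk
    induction k, hk using Nat.le_induction with
    | base =>
      intro _
      refine ⟨_, hlift 0, ?_, ?_⟩
      · simp
      · intro x hx
        rw [List.mem_map] at hx
        obtain ⟨v, hv, hvx⟩ := hx
        exact Or.inr ⟨0, by omega, v, hv, hvx⟩
    | succ k hk ih =>
      intro hk1
      obtain ⟨T, h1, h2, h3⟩ := ih (by omega)
      have hx0 : lf c r 0 (F ((0 : ℕ) : ZMod r)) ≠ lf c r 0 (F (k : ZMod r)) := fun h =>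
        hne 0 k (by omega) (by omega) (by omega) (lf_inj h).1
      have hxk : lf c r 0 (F (k : ZMod r)) ≠ lf c r 0 (F ((k + 1 : ℕ) : ZMod r)) := fun h =>
        hne k (k + 1) (by omega) (by omega) (by omega) (lf_inj h).1
      refine ⟨_, pi_app h1 (hlift k) hx0 hxk ?_ ?_ ?_, ?_, ?_⟩
      · intro x hx hx'
        rw [List.mem_map] at hx'
        obtain ⟨v, hv, rfl⟩ := hx'
        rcases h3 _ hx with ⟨i, -, -, hi⟩ | ⟨i, hi, u, hu, huv⟩
        · exact hhub i k v hv hi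
        · obtain ⟨e1, e2⟩ := lf_inj huv
          have := hcp i k (by omega) (by omega) (e2 ((hs _).2.2 u hu))
          omega
      · rw [List.mem_map]
        rintro ⟨v, hv, hvx⟩
        exact hhub 0 k v hv hvx
      · intro hx
        rcases h3 _ hx with ⟨i, -, hi, h⟩ | ⟨i, hi, u, hu, huv⟩
        · exact hne (k + 1) i (by omega) (by omega) (by omega) (lf_inj h).1
        · exact hhub (k + 1) i u hu huv
      · rw [Finset.sum_range_succ, ← h2]
        simp
        omega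
      · intro x hx
        rw [List.mem_append, List.mem_cons, List.mem_map] at hx
        rcases hx with hx | rfl | ⟨v, hv, hvx⟩
        · rcases h3 _ hx with ⟨i, h4, h5, h6⟩ | ⟨i, h4, h5⟩
          · exact Or.inl ⟨i, h4, by omega, h6⟩
          · exact Or.inr ⟨i, by omega, h5⟩
        · exact Or.inl ⟨k, by omega, by omega, rfl⟩
        · exact Or.inr ⟨k, by omega, v, hv, hvx⟩
  obtain ⟨T, h1, h2, h3⟩ := key (r - 1) (by omega) (by omega)
  have h4 := pi_rev (hlift (r - 1))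
  have hr0 : ((r - 1 + 1 : ℕ) : ZMod r) = ((0 : ℕ) : ZMod r) := by
    rw [show r - 1 + 1 = r by omega, ZMod.natCast_self, Nat.cast_zero]
  rw [hr0] at h4
  have hx0 : lf c r 0 (F ((0 : ℕ) : ZMod r)) ≠ lf c r 0 (F ((r - 1 : ℕ) : ZMod r)) := fun h =>
    hne 0 (r - 1) (by omega) (by omega) (by omega) (lf_inj h).1
  have hl1 : 1 ≤ (s ((r - 1 : ℕ) : ZMod r)).length := by
    rw [Nat.one_le_iff_ne_zero]
    intro h
    exact (hs _).2.1 (List.length_eq_zero_iff.1 h)
  have hl0 : 1 ≤ (s ((0 : ℕ) : ZMod r)).length := by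
    rw [Nat.one_le_iff_ne_zero]
    intro h
    exact (hs _).2.1 (List.length_eq_zero_iff.1 h)
  have hT : 1 ≤ T.length := by
    have h5 : (s ((0 : ℕ) : ZMod r)).length + 1 ≤
        ∑ i ∈ Finset.range (r - 1), ((s (i : ZMod r)).length + 1) :=
      Finset.single_le_sum (f := fun i : ℕ => (s (i : ZMod r)).length + 1)
        (fun _ _ => Nat.zero_le _) (Finset.mem_range.2 (by omega))
    omega
  obtain ⟨f, hf⟩ := cyc_of_two hx0 h1 h4 (by
    intro x hx hx'
    rw [List.mem_reverse, List.mem_map] at hx'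
    obtain ⟨v, hv, rfl⟩ := hx'
    rcases h3 _ hx with ⟨i, -, -, hi⟩ | ⟨i, hi, u, hu, huv⟩
    · exact hhub i (r - 1) v hv hi
    · obtain ⟨e1, e2⟩ := lf_inj huv
      have := hcp i (r - 1) (by omega) (by omega) (e2 ((hs _).2.2 u hu))
      omega) (by omega)
  have h := hV.2 r
  rw [isLCycle_iff] at h
  have h5 := h _ f (by
    rw [List.length_reverse, List.length_map]
    omega) hf
  have h6 : T.length + ((s ((r - 1 : ℕ) : ZMod r)).map
      (lf c r (Fin.ofNat (r + 1) (r - 1 + 1)))).reverse.length + 2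
      = ∑ i, ((s i).length + 1) := by
    rw [sum_zmod (fun i => (s i).length + 1)]
    obtain ⟨q, rfl⟩ : ∃ q, r = q + 1 := ⟨r - 1, by omega⟩
    rw [Finset.sum_range_succ]
    simp only [Nat.add_sub_cancel] at h2 ⊢
    rw [← h2, List.length_reverse, List.length_map]
    omega
  rwa [h6] at h5

end H46.CZ
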