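import Pool.Agent.H46.CZ.Rec

/-!
# CZ.Cmp : we may assume that the pieces are connected (about 70 lines)

Let `e : V ≃ Fin n` and for `v` outside the hubs let `c' v = k + 1` with `k` the least number such that `e.symm k` is joined to `v` (`Con`, which is symmetric and transitive; the least number is the same for joined vertices); `c' v = 0` for hubs. Two vertices outside the hubs with the same `c'` are joined (so `CConn G c'`: here `Con G c` and `Con G c'` agree
as the hubs agree, and `href` by `con_col`), adjacent ones have the same `c'`. `w' (k + 1) = w (c (e.symm k))` for `k < n` if this vertex is not a hub, otherwise `0`; `w' 0 = 0` and `w' i = 0` for `i > n`. Then apply `rec_valid`, `rec_wval`; `∑ v, w' (c' v) = ∑ v, w (c v)`.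
-/

namespace H46.CZ

open Pool.Agent.H3.LC H46.CY

theorem comp_col {V : Type} [Fintype V] {L : Finset ℕ} {G : SimpleGraph V} {c : V → ℕ} {l : ℕ}
    (hl : 2 ≤ l) (hV : Valid L G c) {w : ℕ → ℝ} (hw : Feas c w) :
    ∃ (c' : V → ℕ) (w' : ℕ → ℝ), Valid L G c' ∧ CConn G c' ∧ Feas c' w' ∧
      ∀ d, wval l d G c' w' = wval l d G c w := by
  classical
  let e : V ≃ Fin (Fintype.card V) := Fintype.equivFin V
  let S : V → Set ℕ := fun v => {k | ∃ u, (e u).val = k ∧ Con G c u v}
  have hS : ∀ u v, Con G c u v → S u = S v := by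
    intro u v h
    ext k
    constructor
    · rintro ⟨x, hx, hxu⟩
      exact ⟨x, hx, hxu.trans h⟩
    · rintro ⟨x, hx, hxv⟩
      exact ⟨x, hx, hxv.trans (con_symm h)⟩
  have hne : ∀ v, (S v).Nonempty := fun v => ⟨(e v).val, v, rfl, Relation.ReflTransGen.refl⟩
  have hcon : ∀ u v, sInf (S u) = sInf (S v) → Con G c u v := by
    intro u v h
    obtain ⟨x, hx, hxu⟩ := Nat.sInf_mem (hne u)
    obtain ⟨y, hy, hyv⟩ := Nat.sInf_mem (hne v)
    have hxy : x = y := by
      apply e.injective
      apply Fin.ext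
      rw [hx, hy, h]
    subst hxy
    exact (con_symm hxu).trans hyv
  let c' : V → ℕ := fun v => if c v = 0 then 0 else sInf (S v) + 1
  have h0 : ∀ v, c' v = 0 ↔ c v = 0 := by
    intro v
    by_cases h : c v = 0
    · simp [c', h]
    · simp [c', h]
  have hc1 : ∀ v, c v ≠ 0 → c' v = sInf (S v) + 1 := by
    intro v h
    simp [c', h]
  have hcc : ∀ u v, c' u = c' v → c u ≠ 0 → Con G c u v := by
    intro u v h hu
    have hv : c v ≠ 0 := fun hv => hu ((h0 u).1 (by rw [h]; exact (h0 v).2 hv))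
    rw [hc1 u hu, hc1 v hv] at h
    exact hcon u v (by omega)
  have href : ∀ u v, c' u = c' v → c u = c v := by
    intro u v h
    by_cases hu : c u = 0
    · have h1 : c' v = 0 := by rw [← h]; exact (h0 u).2 hu
      rw [hu, (h0 v).1 h1]
    · exact con_col hV.1 (hcc u v h hu)
  have hc' : Compat G c' := by
    intro u v h hu hv
    have hu' : c u ≠ 0 := fun h => hu ((h0 u).2 h)
    have hv' : c v ≠ 0 := fun h => hv ((h0 v).2 h)
    have h1 : Con G c u v := Relation.ReflTransGen.single ⟨h, hu', hv'⟩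
    rw [hc1 u hu', hc1 v hv', hS u v h1]
  let w' : ℕ → ℝ := fun i => if h : ∃ v, c v ≠ 0 ∧ c' v = i then w (c h.choose) else 0
  have hw0' : w' 0 = 0 := by
    have : ¬ ∃ v, c v ≠ 0 ∧ c' v = 0 := by
      rintro ⟨v, h1, h2⟩
      exact h1 ((h0 v).1 h2)
    exact dif_neg this
  have hww : ∀ v, w' (c' v) = w (c v) := by
    intro v
    by_cases hv : c v = 0
    · rw [(h0 v).2 hv, hw0', hv, hw.1]
    · have h : ∃ u, c u ≠ 0 ∧ c' u = c' v := ⟨v, hv, rfl⟩
      have e1 : w' (c' v) = w (c h.choose) := dif_pos h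
      rw [e1, href _ _ h.choose_spec.2]
  refine ⟨c', w', rec_valid hV h0 href hc', ?_, ⟨hw0', ?_, ?_⟩,
    rec_wval hl h0 href hc' hw.1 hw0' hww⟩
  · intro u v h hu
    have h1 := hcc u v h fun h => hu ((h0 u).2 h)
    have hm : ∀ a b, (G.Adj a b ∧ c a ≠ 0 ∧ c b ≠ 0) → (G.Adj a b ∧ c' a ≠ 0 ∧ c' b ≠ 0) :=
      fun a b h2 => ⟨h2.1, fun h => h2.2.1 ((h0 a).1 h), fun h => h2.2.2 ((h0 b).1 h)⟩
    clear h
    unfold Con at h1 ⊢
    induction h1 with
    | refl => exact Relation.ReflTransGen.refl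
    | tail _ h3 ih => exact ih.tail (hm _ _ h3)
  · intro i
    by_cases h : ∃ v, c v ≠ 0 ∧ c' v = i
    · have e1 : w' i = w (c h.choose) := dif_pos h
      rw [e1]
      exact hw.2.1 _
    · have e1 : w' i = 0 := dif_neg h
      rw [e1]
  · rw [Finset.sum_congr rfl fun v _ => hww v]
    exact hw.2.2

end H46.CZ
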