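import Pool.Agent.H46.CZ.Sym
import Pool.Agent.H46.CY.Pos

/-!
# CZ.Lw2 : the template for d = 2 (about 100 lines)

`V = ZMod (2 l)`, `G = neck (2 l)`, `c = neckc (2 l) l 2` (CY.Pos: `neck_compat`, `neck_blow` with `k = 2 l`, `d = 2`), weights `w 1 = w 2 = 1 / (2 (l - 1))`, `w i = 0` otherwise. Feasible: `∑ v, w (c v)` is the number `neck_card = 2 (l - 1)` of the vertices of colour `≠ 0` (their colour is `1` or `2`) divided by `2 (l - 1)`. The hubs `0` and `l` (as elements of
`ZMod (2 l)`) have colour `0` and are different; `[1, ..., l - 1]` is in `LP l G c 0 l 1` and `[2 l - 1, ..., l + 1]` in `LP l G c 0 l 2` (`List.ofFn` or `List.map` of `List.range (l - 1)`; cf. `Nat.cast`, `ZMod.val_natCast_of_lt`), so `aw l G c w 0 l ≥ 2 / (2 (l - 1))` and the same for `aw l 0` (`aw_symm`). The two closed sequences `(0, l)` and `(l, 0)`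
(functions on `ZMod 2`) have the product `≥ (1 / (l - 1)) ^ 2` each; all terms are `≥ 0`, so `wz ≥ 2 / (l - 1) ^ 2` and `wval = wz / 4 ≥ 1 / (2 (l - 1) ^ 2)` (`val_eq`).
-/

namespace H46.CZ

open Pool.Agent.H3.LC H46.CY

private theorem ne_cast {k m m' : ℕ} (h : m < m') (h' : m' < m + k) :
    ((m : ℕ) : ZMod k) ≠ ((m' : ℕ) : ZMod k) := by
  intro he
  rw [ZMod.natCast_eq_natCast_iff] at he
  have h1 := (Nat.modEq_iff_dvd' h.le).1 he
  have h2 := Nat.le_of_dvd (by omega) h1
  omega

private theorem col {l : ℕ} (hl : 2 ≤ l) {a j : ℕ} (ha : a < 2) (hj : j + 1 < l) :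
    neckc (2 * l) l 2 ((a * l + j + 1 : ℕ) : ZMod (2 * l)) = a + 1 := by
  have h1 : a * l + l ≤ 2 * l := by
    have := Nat.mul_le_mul_right l (Nat.succ_le_of_lt ha)
    rw [Nat.succ_mul] at this
    exact this
  have hv : (((a * l + j + 1 : ℕ) : ZMod (2 * l))).val = a * l + j + 1 :=
    ZMod.val_cast_of_lt (by omega)
  have e1 : a * l + j + 1 = (j + 1) + l * a := by ring
  have e2 : (a * l + j + 1) / l = a := by
    rw [e1, Nat.add_mul_div_left _ _ (by omega), Nat.div_eq_of_lt hj]
    omega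
  have e3 : ¬ l ∣ a * l + j + 1 := by
    intro hd
    rw [e1] at hd
    have := (Nat.dvd_add_left (Dvd.intro a rfl)).1 hd
    have := Nat.le_of_dvd (by omega) this
    omega
  unfold neckc
  rw [hv, if_pos ⟨by omega, e3⟩, e2]

private theorem hub {l a : ℕ} (hl : 2 ≤ l) (ha : a ≤ 2) :
    neckc (2 * l) l 2 ((a * l : ℕ) : ZMod (2 * l)) = 0 := by
  unfold neckc
  rw [if_neg]
  rintro ⟨-, h2⟩
  apply h2
  rw [ZMod.val_natCast]
  exact (Nat.dvd_mod_iff (Dvd.intro_left 2 rfl)).2 (Dvd.intro_left a rfl)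

private theorem lpm {l : ℕ} (hl : 2 ≤ l) {a : ℕ} (ha : a < 2) :
    (List.range (l - 1)).map (fun j => ((a * l + j + 1 : ℕ) : ZMod (2 * l))) ∈
      LP l (neck (2 * l)) (neckc (2 * l) l 2) ((a * l : ℕ) : ZMod (2 * l))
        (((a + 1) * l : ℕ) : ZMod (2 * l)) (a + 1) := by
  have h1 : a * l + l ≤ 2 * l := by
    have := Nat.mul_le_mul_right l (Nat.succ_le_of_lt ha)
    rw [Nat.succ_mul] at this
    exact this
  have h3 : (a + 1) * l = a * l + l := by ring
  have hlist : ((a * l : ℕ) : ZMod (2 * l)) ::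
      ((List.range (l - 1)).map (fun j => ((a * l + j + 1 : ℕ) : ZMod (2 * l))) ++
        [(((a + 1) * l : ℕ) : ZMod (2 * l))]) =
      (List.range (l + 1)).map (fun j => ((a * l + j : ℕ) : ZMod (2 * l))) := by
    have hr : List.range l = List.range (l - 1) ++ [l - 1] := by
      conv_lhs => rw [show l = (l - 1) + 1 by omega]
      exact List.range_succ
    have hl' : a * l + (l - 1) + 1 = (a + 1) * l := by omega
    rw [List.range_succ_eq_map, List.map_cons, List.map_map, Nat.add_zero, hr, List.map_append,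
      List.map_cons, List.map_nil, Function.comp_apply, ← hl']
    rfl
  refine ⟨⟨?_, ?_, ?_, ?_⟩, ?_, ?_⟩
  · rw [hlist, List.isChain_iff_getElem]
    intro i hi
    simp only [List.length_map, List.length_range] at hi
    simp only [List.getElem_map, List.getElem_range]
    refine ⟨ne_cast (by omega) (by omega), Or.inl ?_⟩
    push_cast
    ring
  · rw [List.nodup_map_iff_inj_on List.nodup_range]
    intro x hx y hy hxy
    rw [List.mem_range] at hx hy
    rcases lt_trichotomy x y with h | h | h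
    · exact absurd hxy (ne_cast (by omega) (by omega))
    · exact h
    · exact absurd hxy.symm (ne_cast (by omega) (by omega))
  · rw [List.mem_map]
    rintro ⟨j, hj, he⟩
    rw [List.mem_range] at hj
    exact absurd he.symm (ne_cast (by omega) (by omega))
  · rw [List.mem_map]
    rintro ⟨j, hj, he⟩
    rw [List.mem_range] at hj
    exact absurd he (ne_cast (by omega) (by omega))
  · rw [List.length_map, List.length_range]
    omega
  · intro v hv
    rw [List.mem_map] at hv
    obtain ⟨j, hj, rfl⟩ := hv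
    rw [List.mem_range] at hj
    exact col hl ha (by omega)

private theorem prod2 (f : ZMod 2 → ℝ) : ∏ i, f i = f 0 * f 1 := Fin.prod_univ_two f

theorem low_two {L : Finset ℕ} {l : ℕ} (hl : 2 ≤ l) (h2 : 2 * l ∈ L) :
    ∃ (V : Type) (_ : Fintype V) (G : SimpleGraph V) (c : V → ℕ) (w : ℕ → ℝ), Valid L G c ∧
      Feas c w ∧ 1 / (2 * ((l : ℝ) - 1) ^ 2) ≤ wval l 2 G c w := by
  classical
  have hk : NeZero (2 * l) := ⟨by omega⟩
  have hl1 : (0 : ℝ) < (l : ℝ) - 1 := by
    have : (2 : ℝ) ≤ (l : ℝ) := by exact_mod_cast hl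
    linarith
  set V := ZMod (2 * l) with hV
  set G : SimpleGraph V := neck (2 * l) with hG
  set c : V → ℕ := neckc (2 * l) l 2 with hc
  set b : ℝ := 1 / (2 * ((l : ℝ) - 1)) with hb
  have hb0 : 0 < b := by positivity
  set w : ℕ → ℝ := fun i => if i = 1 ∨ i = 2 then b else 0 with hw
  have hw0 : ∀ i, 0 ≤ w i := by
    intro i
    simp only [hw]
    split_ifs
    · exact hb0.le
    · exact le_refl 0
  have hcv : ∀ v, c v ≠ 0 → c v = 1 ∨ c v = 2 := by
    intro v hv
    simp only [hc, neckc] at hv ⊢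
    split_ifs at hv ⊢ with h
    · have h1 : ZMod.val v / l < 2 := Nat.div_lt_of_lt_mul (by have := h.1; omega)
      generalize ZMod.val v / l = q at h1 ⊢
      omega
    · exact absurd rfl hv
  have hsum : ∑ v, w (c v) = 1 := by
    have e1 : ∀ v, w (c v) = if c v ≠ 0 then b else 0 := by
      intro v
      by_cases h : c v = 0
      · simp [hw, h]
      · rw [if_pos h]
        simp only [hw]
        rw [if_pos (hcv v h)]
    rw [Finset.sum_congr rfl fun v _ => e1 v, ← Finset.sum_filter, Finset.sum_const, nsmul_eq_mul]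
    have e2 : (Finset.univ.filter fun v : V => c v ≠ 0).card = 2 * (l - 1) := by
      rw [← neck_card (k := 2 * l) (l := l) (d := 2) hl le_rfl le_rfl, ← Set.ncard_coe_finset]
      congr 1
      ext v
      simp only [Finset.coe_filter, Finset.mem_univ, true_and, Set.mem_setOf_eq]
      exact Iff.rfl
    rw [e2, hb]
    have e3 : ((2 * (l - 1) : ℕ) : ℝ) = 2 * ((l : ℝ) - 1) := by
      rw [Nat.cast_mul, Nat.cast_sub (by omega)]
      simp
    rw [e3]
    field_simp
  refine ⟨V, inferInstance, G, c, w, ⟨neck_compat hl le_rfl le_rfl,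
    fun M => neck_blow hl le_rfl le_rfl h2 h2 M⟩, ⟨?_, hw0, hsum.le⟩, ?_⟩
  · simp [hw]
  -- the hubs
  set x : V := ((0 * l : ℕ) : ZMod (2 * l)) with hx
  set y : V := ((1 * l : ℕ) : ZMod (2 * l)) with hy
  have hxy : x ≠ y := ne_cast (by omega) (by omega)
  have hcx : c x = 0 := hub hl (by omega)
  have hcy : c y = 0 := hub hl (by omega)
  have p1 := lpm (l := l) hl (a := 0) (by omega)
  have p2 := lpm (l := l) hl (a := 1) (by omega)
  have hx2 : (((1 + 1) * l : ℕ) : ZMod (2 * l)) = x := by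
    rw [hx]
    have : (((1 + 1) * l : ℕ) : ZMod (2 * l)) = 0 := ZMod.natCast_self (2 * l)
    rw [this]
    simp
  rw [hx2] at p2
  have p2' := lp_rev p2
  have n1 : 1 ≤ (LP l G c x y 1).ncard := by
    rw [Nat.one_le_iff_ne_zero, Ne, Set.ncard_eq_zero (lp_finite l G c x y 1)]
    exact Set.Nonempty.ne_empty ⟨_, p1⟩
  have n2 : 1 ≤ (LP l G c x y 2).ncard := by
    rw [Nat.one_le_iff_ne_zero, Ne, Set.ncard_eq_zero (lp_finite l G c x y 2)]
    exact Set.Nonempty.ne_empty ⟨_, p2'⟩
  have i1 : 1 ∈ Finset.univ.image c := by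
    rw [Finset.mem_image]
    exact ⟨((0 * l + 0 + 1 : ℕ) : ZMod (2 * l)), Finset.mem_univ _, col hl (by omega) (by omega)⟩
  have i2 : 2 ∈ Finset.univ.image c := by
    rw [Finset.mem_image]
    exact ⟨((1 * l + 0 + 1 : ℕ) : ZMod (2 * l)), Finset.mem_univ _, col hl (by omega) (by omega)⟩
  have haw : 2 * b ≤ aw l G c w x y := by
    unfold aw
    have hs : ({1, 2} : Finset ℕ) ⊆ Finset.univ.image c := by
      intro i hi
      rw [Finset.mem_insert, Finset.mem_singleton] at hi
      rcases hi with rfl | rfl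
      · exact i1
      · exact i2
    refine le_trans ?_ (Finset.sum_le_sum_of_subset_of_nonneg hs fun i _ _ =>
      mul_nonneg (hw0 i) (Nat.cast_nonneg _))
    rw [Finset.sum_pair (by norm_num)]
    have w1 : w 1 = b := by simp [hw]
    have w2 : w 2 = b := by simp [hw]
    rw [w1, w2]
    have m1 : (1 : ℝ) ≤ ((LP l G c x y 1).ncard : ℝ) := by exact_mod_cast n1
    have m2 : (1 : ℝ) ≤ ((LP l G c x y 2).ncard : ℝ) := by exact_mod_cast n2
    nlinarith
  have haw' : 2 * b ≤ aw l G c w y x := by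
    rw [aw_symm]
    exact haw
  have hprod : (2 * b) ^ 2 ≤ aw l G c w x y * aw l G c w y x := by
    rw [pow_two]
    exact mul_le_mul haw haw' (by positivity) (le_trans (by positivity) haw)
  -- the two closed sequences
  have hz : ∀ i : ZMod 2, i = 0 ∨ i = 1 := by decide
  have mem1 : (fun i : ZMod 2 => if i = 0 then x else y) ∈ HC c 2 := by
    refine ⟨?_, ?_⟩
    · intro i j hij
      rcases hz i with rfl | rfl <;> rcases hz j with rfl | rfl <;> simp_all
    · intro i
      rcases hz i with rfl | rfl <;> simp [hcx, hcy]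
  have mem2 : (fun i : ZMod 2 => if i = 0 then y else x) ∈ HC c 2 := by
    refine ⟨?_, ?_⟩
    · intro i j hij
      rcases hz i with rfl | rfl <;> rcases hz j with rfl | rfl <;> simp_all
    · intro i
      rcases hz i with rfl | rfl <;> simp [hcx, hcy]
  have hne : (⟨_, mem1⟩ : {F : ZMod 2 → V // F ∈ HC c 2}) ≠ ⟨_, mem2⟩ := by
    intro h
    have := congrFun (Subtype.ext_iff.1 h) 0
    simp at this
    exact hxy this
  have t10 : (1 : ZMod 2) + 1 = 0 := by decide
  have hwz : 2 * (2 * b) ^ 2 ≤ wz l 2 G c w := by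
    unfold wz
    refine le_trans ?_ (Finset.sum_le_sum_of_subset_of_nonneg
      (Finset.subset_univ ({⟨_, mem1⟩, ⟨_, mem2⟩} : Finset {F : ZMod 2 → V // F ∈ HC c 2}))
      fun F _ _ => Finset.prod_nonneg fun i _ => aw_nonneg hw0 _ _)
    rw [Finset.sum_pair hne]
    have q1 : ∏ i : ZMod 2, aw l G c w ((fun i : ZMod 2 => if i = 0 then x else y) i)
        ((fun i : ZMod 2 => if i = 0 then x else y) (i + 1)) =
        aw l G c w x y * aw l G c w y x := by
      rw [prod2]
      simp [t10]
    have q2 : ∏ i : ZMod 2, aw l G c w ((fun i : ZMod 2 => if i = 0 then y else x) i)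
        ((fun i : ZMod 2 => if i = 0 then y else x) (i + 1)) =
        aw l G c w y x * aw l G c w x y := by
      rw [prod2]
      simp [t10]
    have q1' := q1.symm ▸ hprod
    have q2' := q2.symm ▸ (mul_comm (aw l G c w x y) (aw l G c w y x) ▸ hprod)
    linarith
  rw [val_eq]
  have hfin : 1 / (2 * ((l : ℝ) - 1) ^ 2) = 2 * (2 * b) ^ 2 / (2 * ((2 : ℕ) : ℝ)) := by
    rw [hb]
    field_simp
    norm_num
  rw [hfin]
  exact div_le_div_of_nonneg_right hwz (by positivity)

end H46.CZ
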