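import Pool.Agent.H46.CZ.Lst
import Pool.Agent.H3.LC.MeasC

/-!
# CZ.Sym : symmetry (about 120 lines)

`lp_finite`: lists of a given length over a finite type (`List.finite_length_eq`). `lp_rev`: `List.reverse` is a bijection (`pi_rev`). `lp_ncard`, `aw_symm` follow. `chn_rev`: `F' i = F (-i)`: `F' i = F (-i)`, `F' (i + 1) = F (-i - 1)`, so the pair `(F' i, F' (i + 1))` is the reversed pair of `F` at `-i - 1`. `used_symm` follows.
`used_hub`, `used_ne`: the members of a closed chain are hubs and different (`i ≠ i + 1` in `ZMod d` for `2 ≤ d`). `aw_pos_chn`: if `0 < ∏ aw ...` then every factor is `> 0` (all factors are `≥ 0`), so some `w j > 0` (hence `j ≠ 0`) and some `LP` is not empty. `con_col`: induction, `Compat`. `con_symm`: reverse the relation.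
`val_eq`: `wval = wz / (2 d)`: copy `Pool/Agent/H3/LC/ValZ.lean` (the embeddings of `Fin d` into the subtype of hubs correspond to the injective functions on `ZMod d` with values of colour `0`). `aw_scale`, `wz_scale`: homogeneous.
`aw_mono`, `wz_mono`: monotone in the weights.
-/

namespace H46.CZ

open Pool.Agent.H3.LC H46.CY Finset

variable {V : Type} {G : SimpleGraph V} {c : V → ℕ} {l d : ℕ}

theorem lp_finite [Finite V] (l : ℕ) (G : SimpleGraph V) (c : V → ℕ) (x y : V) (j : ℕ) :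
    (LP l G c x y j).Finite := by
  refine (List.finite_length_eq V (l - 1)).subset ?_
  rintro s ⟨_, h2, _⟩
  show s.length = l - 1
  omega

theorem lp_rev {x y : V} {j : ℕ} {s : List V} (h : s ∈ LP l G c x y j) :
    s.reverse ∈ LP l G c y x j := by
  obtain ⟨h1, h2, h3⟩ := h
  refine ⟨pi_rev h1, by rwa [List.length_reverse], fun v hv => h3 v (List.mem_reverse.1 hv)⟩

theorem lp_ncard (l : ℕ) (G : SimpleGraph V) (c : V → ℕ) (x y : V) (j : ℕ) :
    (LP l G c x y j).ncard = (LP l G c y x j).ncard := by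
  have h : LP l G c y x j = List.reverse '' LP l G c x y j := by
    ext s
    constructor
    · intro hs
      exact ⟨s.reverse, lp_rev hs, List.reverse_reverse s⟩
    · rintro ⟨t, ht, rfl⟩
      exact lp_rev ht
  rw [h, Set.ncard_image_of_injective _ List.reverse_injective]

theorem chn_rev {F : ZMod d → V} (h : Chn l G c F) : Chn l G c (fun i => F (-i)) := by
  obtain ⟨⟨h1, h2⟩, h3⟩ := h
  refine ⟨⟨fun i k hik => neg_injective (h1 hik), fun i => h2 _⟩, fun i => ?_⟩
  obtain ⟨j, hj, s, hs⟩ := h3 (-(i + 1))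
  have e : -(i + 1) + 1 = -i := by ring
  rw [e] at hs
  exact ⟨j, hj, s.reverse, lp_rev hs⟩

theorem used_symm {x y : V} (h : Used l G c d x y) : Used l G c d y x := by
  obtain ⟨F, hF, i, rfl, rfl⟩ := h
  refine ⟨fun k => F (-k), chn_rev hF, -(i + 1), ?_, ?_⟩
  · show F (-(-(i + 1))) = F (i + 1)
    rw [neg_neg]
  · show F (-(-(i + 1) + 1)) = F i
    congr 1
    ring

theorem used_hub {x y : V} (hd : 2 ≤ d) (h : Used l G c d x y) : c x = 0 ∧ c y = 0 ∧ x ≠ y := by
  obtain ⟨F, ⟨⟨h1, h2⟩, _⟩, i, rfl, rfl⟩ := h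
  refine ⟨h2 _, h2 _, fun h => ?_⟩
  have h4 : i = i + 1 := h1 h
  have h5 : (1 : ZMod d) = 0 := by
    have := h4.symm
    rwa [add_eq_left] at this
  have : Fact (1 < d) := ⟨by omega⟩
  exact one_ne_zero h5

theorem con_col (hc : Compat G c) {u v : V} (h : Con G c u v) : c u = c v := by
  induction h with
  | refl => rfl
  | tail _ h2 ih => exact ih.trans (hc _ _ h2.1 h2.2.1 h2.2.2)

theorem con_symm {u v : V} (h : Con G c u v) : Con G c v u := by
  induction h with
  | refl => exact Relation.ReflTransGen.refl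
  | tail _ h2 ih => exact Relation.ReflTransGen.head ⟨h2.1.symm, h2.2.2, h2.2.1⟩ ih

theorem aw_nonneg [Fintype V] {w : ℕ → ℝ} (hw : ∀ i, 0 ≤ w i) (x y : V) : 0 ≤ aw l G c w x y := by
  exact Finset.sum_nonneg fun i _ => mul_nonneg (hw i) (Nat.cast_nonneg _)

theorem aw_symm [Fintype V] (w : ℕ → ℝ) (x y : V) : aw l G c w x y = aw l G c w y x := by
  unfold aw
  exact Finset.sum_congr rfl fun i _ => by rw [lp_ncard]

theorem aw_pos [Fintype V] {w : ℕ → ℝ} (h0 : w 0 = 0) (hw : ∀ i, 0 ≤ w i) {x y : V} :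
    0 < aw l G c w x y ↔ ∃ j, j ≠ 0 ∧ 0 < w j ∧ (LP l G c x y j).Nonempty ∧ ∃ v, c v = j := by
  classical
  unfold aw
  rw [Finset.sum_pos_iff_of_nonneg fun i _ => mul_nonneg (hw i) (Nat.cast_nonneg _)]
  constructor
  · rintro ⟨j, hj, hpos⟩
    obtain ⟨v, _, hv⟩ := Finset.mem_image.1 hj
    have h1 : w j ≠ 0 := fun h => by rw [h, zero_mul] at hpos; exact lt_irrefl _ hpos
    have h2 : ((LP l G c x y j).ncard : ℝ) ≠ 0 := fun h => by
      rw [h, mul_zero] at hpos; exact lt_irrefl _ hpos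
    refine ⟨j, ?_, lt_of_le_of_ne (hw j) h1.symm, ?_, v, hv⟩
    · rintro rfl
      exact h1 h0
    · exact Set.nonempty_of_ncard_ne_zero (fun h => h2 (by rw [h, Nat.cast_zero]))
  · rintro ⟨j, _, hwj, hne, v, hv⟩
    refine ⟨j, Finset.mem_image.2 ⟨v, Finset.mem_univ _, hv⟩, mul_pos hwj ?_⟩
    rw [Nat.cast_pos, Set.ncard_pos (lp_finite l G c x y j)]
    exact hne

theorem pc_pos [Fintype V] [NeZero d] {w : ℕ → ℝ} (hw : ∀ i, 0 ≤ w i) {F : ZMod d → V}
    (h : PC l G c w F) (i : ZMod d) : 0 < aw l G c w (F i) (F (i + 1)) := by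
  have h1 := h.2
  have h2 : aw l G c w (F i) (F (i + 1)) ≠ 0 := fun h3 => by
    rw [Finset.prod_eq_zero (Finset.mem_univ i) h3] at h1
    exact lt_irrefl _ h1
  exact lt_of_le_of_ne (aw_nonneg hw _ _) h2.symm

theorem pc_chn [Fintype V] [NeZero d] {w : ℕ → ℝ} (h0 : w 0 = 0) (hw : ∀ i, 0 ≤ w i)
    {F : ZMod d → V} (h : PC l G c w F) : Chn l G c F := by
  refine ⟨h.1, fun i => ?_⟩
  obtain ⟨j, hj, _, hne, _⟩ := (aw_pos h0 hw).1 (pc_pos hw h i)
  exact ⟨j, hj, hne⟩

/-- Embeddings of `Fin (k + 1)` into the hubs as closed sequences on `ZMod (k + 1)`. -/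
private def embH {V : Type} (c : V → ℕ) (k : ℕ) :
    (Fin (k + 1) ↪ {v // c v = 0}) ≃ {F : ZMod (k + 1) → V // F ∈ HC c (k + 1)} where
  toFun f := ⟨fun i => (f (show Fin (k + 1) from i)).1,
    fun _ _ h => f.injective (Subtype.ext h), fun i => (f (show Fin (k + 1) from i)).2⟩
  invFun F := ⟨fun i => ⟨F.1 (show ZMod (k + 1) from i), F.2.2 _⟩,
    fun _ _ h => F.2.1 (congrArg Subtype.val h)⟩
  left_inv _ := rfl
  right_inv _ := rfl

theorem val_eq [Fintype V] [NeZero d] (w : ℕ → ℝ) : wval l d G c w = wz l d G c w / (2 * d) := by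
  classical
  obtain ⟨k, rfl⟩ : ∃ k, d = k + 1 := ⟨d - 1, (Nat.succ_pred (NeZero.ne d)).symm⟩
  unfold wval wz
  congr 1
  refine Fintype.sum_equiv (embH c k) _ _ fun f => ?_
  refine Fintype.prod_equiv (Equiv.refl (Fin (k + 1))) _ _ fun i => ?_
  rw [finRotate_apply]
  rfl

theorem wz_nonneg [Fintype V] [NeZero d] {w : ℕ → ℝ} (hw : ∀ i, 0 ≤ w i) :
    0 ≤ wz l d G c w := by
  classical
  unfold wz
  exact Finset.sum_nonneg fun F _ => Finset.prod_nonneg fun i _ => aw_nonneg hw _ _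

theorem aw_smul [Fintype V] (t : ℝ) (w : ℕ → ℝ) (x y : V) :
    aw l G c (fun i => t * w i) x y = t * aw l G c w x y := by
  unfold aw
  rw [Finset.mul_sum]
  exact Finset.sum_congr rfl fun i _ => by ring

theorem wval_smul [Fintype V] [NeZero d] (t : ℝ) (w : ℕ → ℝ) :
    wval l d G c (fun i => t * w i) = t ^ d * wval l d G c w := by
  classical
  rw [val_eq, val_eq, mul_div_assoc']
  congr 1
  unfold wz
  rw [Finset.mul_sum]
  refine Finset.sum_congr rfl fun F _ => ?_
  simp_rw [aw_smul]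
  rw [Finset.prod_mul_distrib, Finset.prod_const, Finset.card_univ, ZMod.card]

theorem aw_mono [Fintype V] {w w' : ℕ → ℝ} (h : ∀ i, w i ≤ w' i) (x y : V) :
    aw l G c w x y ≤ aw l G c w' x y := by
  unfold aw
  exact Finset.sum_le_sum fun i _ => mul_le_mul_of_nonneg_right (h i) (Nat.cast_nonneg _)

theorem wz_mono [Fintype V] [NeZero d] {w w' : ℕ → ℝ} (hw : ∀ i, 0 ≤ w i) (h : ∀ i, w i ≤ w' i) :
    wz l d G c w ≤ wz l d G c w' := by
  classical
  unfold wz
  exact Finset.sum_le_sum fun F _ =>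
    Finset.prod_le_prod (fun i _ => aw_nonneg hw _ _) fun i _ => aw_mono h _ _

end H46.CZ
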