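import Pool.Agent.H46.CZ.Spi
import Pool.Agent.H46.CZ.Sym

/-!
# CZ.Spv : the value of the spider (about 130 lines)

Weight `w 1 = 1 / (3 h - 2)`, `w i = 0` otherwise. The vertices of colour `1`: `none` and `some (i, t)` with `t + 1 < h`: `1 + 3 (h - 1) = 3 h - 2`, so the total weight is `1`. For `i ≠ i'` the list `some (i, h - 2), ..., some (i, 0), none, some (i', 0), ..., some (i', h - 2)` of length `2 h - 1` is in `LP (2 h) (spg h) (spc h) (hub i) (hub i') 1`, so
`aw (2 h) ... w (hub i) (hub i') ≥ 1 / (3 h - 2)`. The `6` injective functions `ZMod 3 → hubs` (through the bijection `i ↦ hub i` of `Fin 3`; `ZMod 3 = Fin 3`; `Equiv.Perm (Fin 3)` has `6` elements) give `wz ≥ 6 / (3 h - 2) ^ 3`, `wval = wz / 6` (`val_eq`).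
-/

namespace H46.CZ

open Pool.Agent.H3.LC H46.CY

private def spu (k : ℕ) (i : Fin 3) : List (Option (Fin 3 × Fin (k + 1))) :=
  (List.finRange k).map fun t => some (i, t.castSucc)

private theorem spu_len (k : ℕ) (i : Fin 3) : (spu k i).length = k := by
  simp [spu]

private theorem spu_mem {k : ℕ} {i : Fin 3} {v : Option (Fin 3 × Fin (k + 1))} (hv : v ∈ spu k i) :
    ∃ t : Fin k, v = some (i, t.castSucc) := by
  obtain ⟨t, _, rfl⟩ := List.mem_map.1 hv
  exact ⟨t, rfl⟩

private theorem spu_pi (k : ℕ) (i : Fin 3) :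
    PI (spg (k + 1)) none (some (i, Fin.last k)) (spu k i) := by
  refine ⟨?_, ?_, ?_, ?_⟩
  · have e : spu k i ++ [some (i, Fin.last k)] =
        (List.finRange (k + 1)).map fun t => (some (i, t) : Option (Fin 3 × Fin (k + 1))) := by
      rw [List.finRange_succ_last, List.map_append, List.map_map]
      rfl
    rw [e, List.isChain_iff_getElem]
    intro j hj
    rcases j with _ | j
    · simp only [List.getElem_cons_zero, List.getElem_cons_succ, List.getElem_map,
        List.getElem_finRange]
      rfl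
    · simp only [List.getElem_cons_succ, List.getElem_map, List.getElem_finRange]
      refine ⟨rfl, Or.inl ?_⟩
      rfl
  · refine (List.nodup_finRange k).map ?_
    intro s t hst
    simp only [Option.some.injEq, Prod.mk.injEq, true_and] at hst
    exact Fin.castSucc_injective k hst
  · intro hm
    obtain ⟨t, ht⟩ := spu_mem hm
    exact absurd ht (by simp)
  · intro hm
    obtain ⟨t, ht⟩ := spu_mem hm
    simp only [Option.some.injEq, Prod.mk.injEq, true_and] at ht
    exact (Fin.castSucc_lt_last t).ne ht.symm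

private theorem spu_col {k : ℕ} {i : Fin 3} {v : Option (Fin 3 × Fin (k + 1))}
    (hv : v ∈ spu k i) : spc (k + 1) v = 1 := by
  obtain ⟨t, rfl⟩ := spu_mem hv
  have h1 := t.isLt
  simp only [spc, Fin.val_castSucc]
  rw [if_neg (by omega)]

private theorem sp_lp (k : ℕ) {i j : Fin 3} (hij : i ≠ j) :
    (LP (2 * (k + 1)) (spg (k + 1)) (spc (k + 1)) (some (i, Fin.last k)) (some (j, Fin.last k))
      1).Nonempty := by
  refine ⟨(spu k i).reverse ++ none :: spu k j, ?_, ?_, ?_⟩
  · refine pi_app (pi_rev (spu_pi k i)) (spu_pi k j) (by simp) (by simp) ?_ ?_ ?_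
    · intro x hx hx2
      rw [List.mem_reverse] at hx
      obtain ⟨t, rfl⟩ := spu_mem hx
      obtain ⟨s, hs⟩ := spu_mem hx2
      simp only [Option.some.injEq, Prod.mk.injEq] at hs
      exact hij hs.1
    · intro hx
      obtain ⟨t, ht⟩ := spu_mem hx
      simp only [Option.some.injEq, Prod.mk.injEq] at ht
      exact hij ht.1
    · intro hx
      rw [List.mem_reverse] at hx
      obtain ⟨t, ht⟩ := spu_mem hx
      simp only [Option.some.injEq, Prod.mk.injEq] at ht
      exact hij ht.1.symm
  · simp only [List.length_append, List.length_reverse, List.length_cons, spu_len]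
    omega
  · intro v hv
    rw [List.mem_append, List.mem_reverse, List.mem_cons] at hv
    rcases hv with hv | rfl | hv
    · exact spu_col hv
    · rfl
    · exact spu_col hv

private theorem sp_hub {k : ℕ} {v : Option (Fin 3 × Fin (k + 1))} (hv : spc (k + 1) v = 0) :
    ∃ i, v = some (i, Fin.last k) := by
  rcases v with _ | ⟨i, t⟩
  · exact absurd hv (by simp [spc])
  · refine ⟨i, ?_⟩
    simp only [spc] at hv
    split_ifs at hv with h1
    have : t = Fin.last k := Fin.ext (by rw [Fin.val_last]; omega)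
    rw [this]

private def sp_equiv (k : ℕ) : Fin 3 ≃ {v // spc (k + 1) v = 0} where
  toFun i := ⟨some (i, Fin.last k), by simp [spc]⟩
  invFun v := match v.1 with
    | none => 0
    | some (i, _) => i
  left_inv _ := rfl
  right_inv v := by
    obtain ⟨i, hi⟩ := sp_hub v.2
    apply Subtype.ext
    rcases v with ⟨v, hv⟩
    simp only at hi
    subst hi
    rfl

theorem spi_val {h : ℕ} (hh : 1 ≤ h) :
    ∃ w : ℕ → ℝ, Feas (spc h) w ∧
      1 / (3 * (h : ℝ) - 2) ^ 3 ≤ wval (2 * h) 3 (spg h) (spc h) w := by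
  obtain ⟨k, rfl⟩ : ∃ k, h = k + 1 := ⟨h - 1, by omega⟩
  set x : ℝ := 1 / (3 * ((k + 1 : ℕ) : ℝ) - 2) with hx
  have hden : 0 < 3 * ((k + 1 : ℕ) : ℝ) - 2 := by
    push_cast
    have : (0 : ℝ) ≤ k := Nat.cast_nonneg k
    linarith
  have hx0 : 0 < x := by positivity
  set w : ℕ → ℝ := fun i => if i = 1 then x else 0 with hw
  have hw0 : ∀ i, 0 ≤ w i := by
    intro i
    simp only [hw]
    split_ifs
    · exact hx0.le
    · exact le_rfl
  refine ⟨w, ⟨by simp [hw], hw0, ?_⟩, ?_⟩
  · rw [Fintype.sum_option, Fintype.sum_prod_type]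
    have h1 : ∀ i : Fin 3, ∑ t : Fin (k + 1), w (spc (k + 1) (some (i, t))) = k * x := by
      intro i
      rw [Fin.sum_univ_castSucc]
      have h2 : ∀ t : Fin k, w (spc (k + 1) (some (i, t.castSucc))) = x := by
        intro t
        have h3 := t.isLt
        have h4 : spc (k + 1) (some (i, t.castSucc)) = 1 := by
          simp only [spc, Fin.val_castSucc]
          rw [if_neg (by omega)]
        rw [h4]
        simp [hw]
      have h5 : w (spc (k + 1) (some (i, Fin.last k))) = 0 := by
        have h4 : spc (k + 1) (some (i, Fin.last k)) = 0 := by simp [spc]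
        rw [h4]
        simp [hw]
      rw [Finset.sum_congr rfl fun t _ => h2 t, h5]
      simp
    rw [Finset.sum_congr rfl fun i _ => h1 i]
    have h6 : w (spc (k + 1) none) = x := by simp [spc, hw]
    rw [h6, Finset.sum_const, Finset.card_univ, Fintype.card_fin, nsmul_eq_mul]
    have h7 : x * (3 * ((k + 1 : ℕ) : ℝ) - 2) = 1 := by
      rw [hx]
      exact div_mul_cancel₀ 1 hden.ne'
    push_cast at h7 ⊢
    linarith
  · have haw : ∀ i j : Fin 3, i ≠ j →
        x ≤ aw (2 * (k + 1)) (spg (k + 1)) (spc (k + 1)) w (some (i, Fin.last k))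
          (some (j, Fin.last k)) := by
      intro i j hij
      unfold aw
      have hmem : (1 : ℕ) ∈ Finset.univ.image (spc (k + 1)) :=
        Finset.mem_image.2 ⟨none, Finset.mem_univ _, rfl⟩
      refine le_trans ?_ (Finset.single_le_sum (fun i _ => mul_nonneg (hw0 i) (Nat.cast_nonneg _))
        hmem)
      have h1 : w 1 = x := by simp [hw]
      rw [h1]
      have h2 : 1 ≤ (LP (2 * (k + 1)) (spg (k + 1)) (spc (k + 1)) (some (i, Fin.last k))
          (some (j, Fin.last k)) 1).ncard := by
        rw [Nat.one_le_iff_ne_zero, ← Nat.pos_iff_ne_zero, Set.ncard_pos (lp_finite _ _ _ _ _ _)]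
        exact sp_lp k hij
      have h3 : (1 : ℝ) ≤ ((LP (2 * (k + 1)) (spg (k + 1)) (spc (k + 1)) (some (i, Fin.last k))
          (some (j, Fin.last k)) 1).ncard : ℝ) := by exact_mod_cast h2
      nlinarith
    unfold wval
    rw [le_div_iff₀ (by norm_num)]
    have hterm : ∀ f : Fin 3 ↪ {v // spc (k + 1) v = 0},
        x ^ 3 ≤ ∏ i : Fin 3, aw (2 * (k + 1)) (spg (k + 1)) (spc (k + 1)) w (f i)
          (f (finRotate 3 i)) := by
      intro f
      have h1 : ∀ i : Fin 3, x ≤ aw (2 * (k + 1)) (spg (k + 1)) (spc (k + 1)) w (f i)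
          (f (finRotate 3 i)) := by
        intro i
        obtain ⟨a, ha⟩ := sp_hub (f i).2
        obtain ⟨b, hb⟩ := sp_hub (f (finRotate 3 i)).2
        rw [ha, hb]
        apply haw
        rintro rfl
        have h2 : f i = f (finRotate 3 i) := Subtype.ext (ha.trans hb.symm)
        have h3 := f.injective h2
        revert h3
        fin_cases i <;> decide
      calc x ^ 3 = ∏ _i : Fin 3, x := by simp
        _ ≤ _ := Finset.prod_le_prod (fun _ _ => hx0.le) fun i _ => h1 i
    have hsum := Finset.card_nsmul_le_sum (Finset.univ) _ _ fun f _ => hterm f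
    rw [Finset.card_univ, Fintype.card_embedding_eq, ← Fintype.card_congr (sp_equiv k),
      Fintype.card_fin] at hsum
    have h6 : Nat.descFactorial 3 3 = 6 := rfl
    rw [h6, nsmul_eq_mul] at hsum
    refine le_trans (le_of_eq ?_) hsum
    rw [hx, div_pow, one_pow]
    push_cast
    ring

end H46.CZ
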