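import Pool.Agent.H46.CZ.Rpl
import Pool.Agent.H46.CZ.Brn

/-!
# CZ.Thd : a third hub of a piece used by a closed chain (about 120 lines)

`hub_mem`: if `z` is not one of the `F k` then `branch_paths` (with `x = F i`, `y = F (i + 1)`, `z ≠ x, y`) gives `s'` from `F i` to `z` and `s''` from `z` to `F (i + 1)` with `(s'.length + 1) + (s''.length + 1) = l + 2 ρ`, and `rep_two` gives `(d - 1) l + l + 2 ρ ∈ L`, which is greater than `d l`, against `hmax`.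
`third`: by `hub_mem` `z = F k`; write `k = i + 1 + a` with `a = (k - i - 1).val < d`; `a ≠ 0` (`z ≠ F (i + 1)`), `a ≠ d - 1` (`z ≠ F i`), `b = d - 1 - a ≥ 1`. `branch_paths` gives `e, ρ, s', s'', R`. `twin_mem` for `s'`, `s''`: `2 (e + ρ)`, `2 (l - e + ρ) ∈ L`, `hev` gives `l ≤ e + ρ`, `l ≤ l - e + ρ` (so `e ≤ ρ`).
`tri_mem` for `s` reversed, ... : the hubs `F i, F (i + 1), z`, lists `s`, `s''.reverse`, `s'.reverse`: `l + (l - e + ρ) + (e + ρ) = 2 (l + ρ) ∈ L`. `chord` with `i + 1`, `t = a` and the list `s''.reverse` (from `F (i + 1)` to `z = F (i + 1 + a)`): `a l + (l - e + ρ) ∈ L` (first part). `chord` with `i`, `t = a + 1` and the list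
`s'`: both parts `(a + 1) l + (e + ρ) ∈ L` and `(d - (a + 1)) l + (e + ρ) ∈ L`, `d - (a + 1) = b`; the second part of the first `chord` is `(d - a) l + (l - e + ρ) ∈ L`, `d - a = b + 1`.
-/

namespace H46.CZ

open Pool.Agent.H3.LC H46.CY

variable {V : Type} {L : Finset ℕ} {G : SimpleGraph V} {c : V → ℕ} {l d : ℕ}

theorem hub_mem (hV : Valid L G c) (hl : 2 ≤ l) (hd : 2 ≤ d) (hmax : ∀ x ∈ L, x ≤ d * l)
    {F : ZMod d → V} (hF : Chn l G c F) {i : ZMod d} {j : ℕ} (hj : j ≠ 0) {s : List V}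
    (hs : s ∈ LP l G c (F i) (F (i + 1)) j) {v₀ u z : V} (hv₀ : v₀ ∈ s) (hu : Con G c v₀ u)
    (huz : G.Adj u z) (hz : c z = 0) : ∃ k, F k = z := by
  by_contra hn
  rw [not_exists] at hn
  obtain ⟨hs1, hs2, hs3⟩ := hs
  have hc : ∀ v ∈ s, c v ≠ 0 := fun v hv => by
    rw [hs3 v hv]
    exact hj
  obtain ⟨e, ρ, s', s'', R, he1, he2, hρ, p1, l1, n1, c1, p2, l2, n2, c2, -⟩ :=
    branch_paths hs1 hc hv₀ hu huz (hF.1.2 i) (hF.1.2 (i + 1)) hz (fun h => hn i h.symm)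
      (fun h => hn (i + 1) h.symm)
  have h := hmax _ (rep_two hV hl hd hF i hz hn p1 p2 n1 n2 c1 c2)
  obtain ⟨d', rfl⟩ : ∃ d', d = d' + 1 := ⟨d - 1, by omega⟩
  rw [l1, l2, hs2] at h
  have h' : (d' + 1 - 1) * l + (e + ρ) + (l - e + ρ) ≤ (d' + 1) * l := h
  rw [Nat.add_sub_cancel, Nat.add_mul, Nat.one_mul] at h'
  omega

theorem third (hV : Valid L G c) (hl : 2 ≤ l) (hd : 2 ≤ d) (hev : ∀ x ∈ L, Even x → 2 * l ≤ x)
    (hmax : ∀ x ∈ L, x ≤ d * l) {F : ZMod d → V} (hF : Chn l G c F) {i : ZMod d} {j : ℕ}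
    (hj : j ≠ 0) {s : List V} (hs : s ∈ LP l G c (F i) (F (i + 1)) j) {v₀ u z : V} (hv₀ : v₀ ∈ s)
    (hu : Con G c v₀ u) (huz : G.Adj u z) (hz : c z = 0) (hzx : z ≠ F i) (hzy : z ≠ F (i + 1)) :
    ∃ e ρ a b : ℕ, 1 ≤ e ∧ e < l ∧ 1 ≤ ρ ∧ 1 ≤ a ∧ 1 ≤ b ∧ a + b + 1 = d ∧ l ≤ e + ρ ∧ e ≤ ρ ∧
      2 * (l + ρ) ∈ L ∧ 2 * (e + ρ) ∈ L ∧ 2 * (l - e + ρ) ∈ L ∧ a * l + (l - e + ρ) ∈ L ∧
      b * l + (e + ρ) ∈ L ∧ (a + 1) * l + (e + ρ) ∈ L ∧ (b + 1) * l + (l - e + ρ) ∈ L ∧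
      ∃ R : List V, R.length + 1 = ρ ∧ R.Nodup ∧ ∀ w ∈ R, c w ≠ 0 ∧ w ∉ s ∧ Con G c v₀ w := by
  have hd0 : NeZero d := ⟨by omega⟩
  obtain ⟨k, hk⟩ := hub_mem hV hl hd hmax hF hj hs hv₀ hu huz hz
  obtain ⟨hs1, hs2, hs3⟩ := hs
  have hc : ∀ v ∈ s, c v ≠ 0 := fun v hv => by
    rw [hs3 v hv]
    exact hj
  have hne : s ≠ [] := List.ne_nil_of_mem hv₀
  obtain ⟨a, ha⟩ : ∃ a : ℕ, a = (k - i - 1).val := ⟨_, rfl⟩
  have had : a < d := by
    rw [ha]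
    exact ZMod.val_lt _
  have hka : k = i + 1 + (a : ℕ) := by
    rw [ha, ZMod.natCast_zmod_val]
    ring
  have ha0 : a ≠ 0 := by
    intro h
    apply hzy
    rw [← hk, hka, h]
    simp
  have had1 : a ≠ d - 1 := by
    intro h
    apply hzx
    rw [← hk, hka, h, Nat.cast_sub (by omega), ZMod.natCast_self]
    simp
  have hxy : F i ≠ F (i + 1) := by
    intro h
    have h1 := hF.1.1 h
    have h2 : (1 : ZMod d) = 0 := by
      have h3 : i + 1 = i + 0 := by rw [← h1, add_zero]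
      exact add_left_cancel h3
    have h4 : ((1 : ℕ) : ZMod d) = 0 := by simpa using h2
    rw [ZMod.natCast_eq_zero_iff] at h4
    have := Nat.le_of_dvd one_pos h4
    omega
  obtain ⟨e, ρ, s', s'', R, he1, he2, hρ, p1, l1, n1, c1, p2, l2, n2, c2, r1, r2, r3⟩ :=
    branch_paths hs1 hc hv₀ hu huz (hF.1.2 i) (hF.1.2 (i + 1)) hz hzx hzy
  rw [hs2] at l2
  have c2' : ∀ v ∈ s''.reverse, c v ≠ 0 := fun v hv => c2 v (List.mem_reverse.1 hv)
  have c1' : ∀ v ∈ s'.reverse, c v ≠ 0 := fun v hv => c1 v (List.mem_reverse.1 hv)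
  have n2' : s''.reverse ≠ [] := fun h => n2 (List.reverse_eq_nil_iff.1 h)
  have n1' : s'.reverse ≠ [] := fun h => n1 (List.reverse_eq_nil_iff.1 h)
  have t1 := twin_mem hV (Ne.symm hzx) (hF.1.2 i) hz p1 n1 c1
  have t2 := twin_mem hV hzy hz (hF.1.2 (i + 1)) p2 n2 c2
  rw [l1] at t1
  rw [l2] at t2
  have e1 := hev _ t1 (even_two_mul _)
  have e2 := hev _ t2 (even_two_mul _)
  have t3 := tri_mem hV hxy (Ne.symm hzy) hzx (hF.1.2 i) (hF.1.2 (i + 1)) hz hs1 (pi_rev p2)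
    (pi_rev p1) hne n2' n1' hc c2' c1'
  rw [List.length_reverse, List.length_reverse, l1, l2, hs2] at t3
  have t4 := chord hV hl hF (i + 1) (t := a) (by omega) had (s := s''.reverse)
    (by rw [← hka, hk]; exact pi_rev p2) n2' c2'
  rw [List.length_reverse, l2] at t4
  have hka' : i + ((a + 1 : ℕ) : ZMod d) = k := by
    rw [hka, Nat.cast_add, Nat.cast_one]
    ring
  have t5 := chord hV hl hF i (t := a + 1) (by omega) (by omega) (s := s')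
    (by rw [hka', hk]; exact p1) n1 c1
  rw [l1] at t5
  have e3 : d - (a + 1) = d - 1 - a := by omega
  rw [e3] at t5
  have e5 : d - a = d - 1 - a + 1 := by omega
  rw [e5] at t4
  have e4 : l + (l - e + ρ) + (e + ρ) = 2 * (l + ρ) := by omega
  rw [e4] at t3
  exact ⟨e, ρ, a, d - 1 - a, he1, by omega, hρ, by omega, by omega, by omega, by omega, by omega,
    t3, t1, t2, t4.1, t5.2, t5.1, t4.2, R, r1, r2, r3⟩

/-- if `L` satisfies the condition `NoFork` then no used piece has a third hub -/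
theorem noThird_of_noFork (hV : Valid L G c) (hl : 2 ≤ l) (hd : 2 ≤ d)
    (hev : ∀ x ∈ L, Even x → 2 * l ≤ x) (hmax : ∀ x ∈ L, x ≤ d * l) (h : NoFork L l d) :
    NoThird l G c d := by
  intro F hF i j s hj hs v₀ hv₀ u z hu huz hz
  by_contra hn
  rw [not_or] at hn
  obtain ⟨e, ρ, a, b, he1, hel, hρ, ha, hb, hab, -, -, h1, h2, h3, h4, h5, h6, h7, -⟩ :=
    third hV hl hd hev hmax hF hj hs hv₀ hu huz hz hn.1 hn.2
  exact h e ρ a b he1 hel hρ ha hb hab ⟨h1, h2, h3, h4, h5, h6, h7⟩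

end H46.CZ
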