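import Pool.Agent.H46.CZ.Rpl
import Pool.Agent.H46.CZ.Brn

/-!
# CZ.Unq : uniqueness of the path of length l (about 180 lines)

`two_eq`: let `x = p 0, p 1, ..., p l = y` and `x = q 0, ..., q l = y` be the two paths (`p`, `q` from `x :: (s ++ [y])`). If `p a = q b` with `0 < a, b < l` then the walks `p 0, ..., p a, q (b + 1), ..., q l` and `q 0, ..., q b, p (a + 1), ..., p l` have their inner vertices in `s` or `s'` (colours `≠ 0`), at least one, so
`twin_walk` gives `l ≤ a + (l - b)` and `l ≤ b + (l - a)`: `a = b`. So a common vertex has the same position in both. Suppose `s ≠ s'`. There is a position `t` with `p t ≠ q t`; let `a < t` be the greatest position below `t` and `b > t` the least position above `t` where they agree (`p 0 = q 0`, `p l = q l`). They have a common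
inner vertex `v`, at the same position, so `b - a < l`. The parts of `p` and `q` between `a` and `b` are disjoint (a common vertex has the same position) and not empty, so `cyc_of_two` (CY.Pth) with the end points `p a ≠ p b` gives a cycle of `G` of even length `2 (b - a)`, `4 ≤ 2 (b - a) < 2 l`, in `L` by `mem_of_cyc`, against
`hev`. (With lists: `s = s₁ ++ u :: m ++ u' :: s₃` etc., or with `List.getElem`/`take`/`drop` and `List.isChain_iff_getElem`.)
`run_unique`: if `s`, `s'` have a common vertex use `two_eq`. Otherwise `bridge` gives `v ∈ s`, `v' ∈ s'`, `R`; `s = s₁ ++ v :: s₂`, `s' = s'₁ ++ v' :: s'₂` and the two paths `s₁ ++ v :: R ++ v' :: s'₂` and `s'₁ ++ v' :: R.reverse ++ v :: s₂` from `F i` to `F (i + 1)` (`pi_app` twice) have total length `2 l + 2 (R.length + 1)`,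
but each has length at most `l` by `rep_one` and `hmax` (`(d - 1) l + length ≤ d l`): contradiction.
-/

namespace H46.CZ

open Pool.Agent.H3.LC H46.CY

variable {V : Type} {L : Finset ℕ} {G : SimpleGraph V} {c : V → ℕ} {l d : ℕ}

private def Pos (m m' : List V) : Prop :=
  ∀ (n n' : ℕ) (w : V), m[n]? = some w → m'[n']? = some w → n = n'

private theorem pos_left {m₁ m₂ m₁' m₂' : List V} {r r' : V}
    (h : Pos (m₁ ++ r :: m₂) (m₁' ++ r' :: m₂')) : Pos m₁ m₁' := by
  intro n n' w h1 h2
  apply h n n' w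
  · rw [List.getElem?_append_left]
    · exact h1
    · exact (List.getElem?_eq_some_iff.1 h1).1
  · rw [List.getElem?_append_left]
    · exact h2
    · exact (List.getElem?_eq_some_iff.1 h2).1

private theorem pos_right {m₁ m₂ m₁' m₂' : List V} {r r' : V} (hl : m₁.length = m₁'.length)
    (h : Pos (m₁ ++ r :: m₂) (m₁' ++ r' :: m₂')) : Pos m₂ m₂' := by
  intro n n' w h1 h2
  have h3 := h (m₁.length + (n + 1)) (m₁'.length + (n' + 1)) w
    (by rw [List.getElem?_append_right (by omega)]; simpa using h1)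
    (by rw [List.getElem?_append_right (by omega)]; simpa using h2)
  omega

private theorem split_at {s : List V} {n : ℕ} {w : V} (h : s[n]? = some w) :
    ∃ s₁ s₂, s = s₁ ++ w :: s₂ ∧ s₁.length = n := by
  obtain ⟨hn, rfl⟩ := List.getElem?_eq_some_iff.1 h
  refine ⟨s.take n, s.drop (n + 1), ?_, ?_⟩
  · rw [← List.drop_eq_getElem_cons hn, List.take_append_drop]
  · rw [List.length_take]
    omega

private theorem seg_eq (hV : Valid L G c) (hev : ∀ x ∈ L, Even x → 2 * l ≤ x) (N : ℕ) :
    ∀ (a b : V) (m m' : List V), m.length ≤ N → m.length = m'.length → m.length + 1 < l → a ≠ b →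
      PI G a b m → PI G a b m' → Pos m m' → m = m' := by
  induction N with
  | zero =>
    intro a b m m' h1 h2 _ _ _ _ _
    have h3 : m = [] := List.length_eq_zero_iff.1 (by omega)
    have h4 : m' = [] := List.length_eq_zero_iff.1 (by omega)
    rw [h3, h4]
  | succ N ih =>
    intro a b m m' h1 h2 h3 hab p p' hp
    by_cases hcm : ∃ v ∈ m, v ∈ m'
    · obtain ⟨v, hv, hv'⟩ := hcm
      obtain ⟨n, hn⟩ := List.mem_iff_getElem?.1 hv
      obtain ⟨n', hn'⟩ := List.mem_iff_getElem?.1 hv'
      have e := hp n n' v hn hn'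
      subst e
      obtain ⟨m₁, m₂, rfl, e1⟩ := split_at hn
      obtain ⟨m₁', m₂', rfl, e2⟩ := split_at hn'
      have e3 : m₁.length = m₁'.length := by rw [e1, e2]
      rw [List.length_append, List.length_cons] at h1 h2 h3
      rw [List.length_append, List.length_cons] at h2
      obtain ⟨q1, q2⟩ := pi_split p
      obtain ⟨q1', q2'⟩ := pi_split p'
      have hav : a ≠ v := by
        rintro rfl
        exact p.2.2.1 hv
      have hvb : v ≠ b := by
        rintro rfl
        exact p.2.2.2 hv
      have r1 := ih a v m₁ m₁' (by omega) e3 (by omega) hav q1 q1' (pos_left hp)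
      have r2 := ih v b m₂ m₂' (by omega) (by omega) (by omega) hvb q2 q2' (pos_right e3 hp)
      rw [r1, r2]
    · by_cases h0 : m.length = 0
      · have h3 : m = [] := List.length_eq_zero_iff.1 h0
        have h4 : m' = [] := List.length_eq_zero_iff.1 (by omega)
        rw [h3, h4]
      · exfalso
        obtain ⟨f, hf⟩ := cyc_of_two hab p p' (fun x hx hx' => hcm ⟨x, hx, hx'⟩) (by omega)
        have h4 := mem_of_cyc hV (by omega) hf
        have h5 := hev _ h4 (by
          rw [← h2]
          exact ⟨m.length + 1, by omega⟩)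
        omega

private theorem chain_mix {x y v : V} {s₁ s₂ s₁' s₂' : List V} (h : PI G x y (s₁ ++ v :: s₂))
    (h' : PI G x y (s₁' ++ v :: s₂')) : (x :: ((s₁ ++ v :: s₂') ++ [y])).IsChain G.Adj := by
  have e : x :: ((s₁ ++ v :: s₂') ++ [y]) = (x :: s₁) ++ v :: (s₂' ++ [y]) := by simp
  rw [e, List.isChain_split]
  exact ⟨(pi_split h).1.1, (pi_split h').2.1⟩

private theorem pos_LP (hV : Valid L G c) (hev : ∀ x ∈ L, Even x → 2 * l ≤ x) {x y : V}
    (hxy : x ≠ y) (hx : c x = 0) (hy : c y = 0) {j j' : ℕ} (hj : j ≠ 0) (hj' : j' ≠ 0)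
    {s s' : List V} (hs : s ∈ LP l G c x y j) (hs' : s' ∈ LP l G c x y j') : Pos s s' := by
  intro n n' w h1 h2
  obtain ⟨s₁, s₂, rfl, e1⟩ := split_at h1
  obtain ⟨s₁', s₂', rfl, e2⟩ := split_at h2
  obtain ⟨p, l1, c1⟩ := hs
  obtain ⟨p', l2, c2⟩ := hs'
  have d1 : ∀ u ∈ s₁ ++ w :: s₂, c u ≠ 0 := fun u hu => by
    rw [c1 u hu]
    exact hj
  have d2 : ∀ u ∈ s₁' ++ w :: s₂', c u ≠ 0 := fun u hu => by
    rw [c2 u hu]
    exact hj'
  have t1 := twin_walk hV hev hxy hx hy (chain_mix p p') (by simp) (fun u hu => by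
    rw [List.mem_append, List.mem_cons] at hu
    rcases hu with hu | rfl | hu
    · exact d1 u (by simp [hu])
    · exact d1 u (by simp)
    · exact d2 u (by simp [hu]))
  have t2 := twin_walk hV hev hxy hx hy (chain_mix p' p) (by simp) (fun u hu => by
    rw [List.mem_append, List.mem_cons] at hu
    rcases hu with hu | rfl | hu
    · exact d2 u (by simp [hu])
    · exact d1 u (by simp)
    · exact d1 u (by simp [hu]))
  simp only [List.length_append, List.length_cons] at t1 t2 l1 l2
  omega

theorem two_eq (hV : Valid L G c) (hl : 2 ≤ l) (hev : ∀ x ∈ L, Even x → 2 * l ≤ x) {x y : V}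
    (hxy : x ≠ y) (hx : c x = 0) (hy : c y = 0) {j j' : ℕ} (hj : j ≠ 0) (hj' : j' ≠ 0)
    {s s' : List V} (hs : s ∈ LP l G c x y j) (hs' : s' ∈ LP l G c x y j') {v : V} (hv : v ∈ s)
    (hv' : v ∈ s') : s = s' := by
  have _ := hl
  have hp := pos_LP hV hev hxy hx hy hj hj' hs hs'
  obtain ⟨n, hn⟩ := List.mem_iff_getElem?.1 hv
  obtain ⟨n', hn'⟩ := List.mem_iff_getElem?.1 hv'
  have e := hp n n' v hn hn'
  subst e
  obtain ⟨m₁, m₂, rfl, e1⟩ := split_at hn
  obtain ⟨m₁', m₂', rfl, e2⟩ := split_at hn'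
  have e3 : m₁.length = m₁'.length := by rw [e1, e2]
  obtain ⟨p, l1, c1⟩ := hs
  obtain ⟨p', l2, c2⟩ := hs'
  simp only [List.length_append, List.length_cons] at l1 l2
  obtain ⟨q1, q2⟩ := pi_split p
  obtain ⟨q1', q2'⟩ := pi_split p'
  have hav : x ≠ v := by
    rintro rfl
    exact p.2.2.1 hv
  have hvb : v ≠ y := by
    rintro rfl
    exact p.2.2.2 hv
  have r1 := seg_eq hV hev _ x v m₁ m₁' le_rfl e3 (by omega) hav q1 q1' (pos_left hp)
  have r2 := seg_eq hV hev _ v y m₂ m₂' le_rfl (by omega) (by omega) hvb q2 q2' (pos_right e3 hp)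
  rw [r1, r2]

theorem run_unique (hV : Valid L G c) (hl : 2 ≤ l) (hd : 2 ≤ d)
    (hev : ∀ x ∈ L, Even x → 2 * l ≤ x) (hmax : ∀ x ∈ L, x ≤ d * l) {F : ZMod d → V}
    (hF : Chn l G c F) {i : ZMod d} {j j' : ℕ} (hj : j ≠ 0) (hj' : j' ≠ 0) {s s' : List V}
    (hs : s ∈ LP l G c (F i) (F (i + 1)) j) (hs' : s' ∈ LP l G c (F i) (F (i + 1)) j') {v v' : V}
    (hv : v ∈ s) (hv' : v' ∈ s') (h : Con G c v v') : s = s' := by
  have hd0 : NeZero d := ⟨by omega⟩
  have hxy : F i ≠ F (i + 1) := by
    intro h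
    have h1 := hF.1.1 h
    have h2 : (1 : ZMod d) = 0 := by
      have h3 : i + 1 = i + 0 := by rw [← h1, add_zero]
      exact add_left_cancel h3
    have h4 : ((1 : ℕ) : ZMod d) = 0 := by simpa using h2
    rw [ZMod.natCast_eq_zero_iff] at h4
    have := Nat.le_of_dvd one_pos h4
    omega
  have hx := hF.1.2 i
  have hy := hF.1.2 (i + 1)
  by_cases hcm : ∃ w ∈ s, w ∈ s'
  · obtain ⟨w, hw, hw'⟩ := hcm
    exact two_eq hV hl hev hxy hx hy hj hj' hs hs' hw hw'
  · exfalso
    obtain ⟨p, l1, c1⟩ := hs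
    obtain ⟨p', l2, c2⟩ := hs'
    have hdj : ∀ u ∈ s, u ∉ s' := fun u hu hu' => hcm ⟨u, hu, hu'⟩
    have d1 : ∀ u ∈ s, c u ≠ 0 := fun u hu => by
      rw [c1 u hu]
      exact hj
    have d2 : ∀ u ∈ s', c u ≠ 0 := fun u hu => by
      rw [c2 u hu]
      exact hj'
    obtain ⟨a, b, R, ha, hb, pR, hR⟩ := bridge p p' d1 d2 hdj hv hv' h
    obtain ⟨s₁, s₂, rfl⟩ := List.append_of_mem ha
    obtain ⟨s₁', s₂', rfl⟩ := List.append_of_mem hb
    obtain ⟨q1, q2⟩ := pi_split p
    obtain ⟨q1', q2'⟩ := pi_split p'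
    have hab : a ≠ b := by
      rintro rfl
      exact hdj a ha hb
    have hxa : F i ≠ a := fun h => p.2.2.1 (h ▸ ha)
    have hya : a ≠ F (i + 1) := fun h => p.2.2.2 (h ▸ ha)
    have hxb : F i ≠ b := fun h => p'.2.2.1 (h ▸ hb)
    have hyb : b ≠ F (i + 1) := fun h => p'.2.2.2 (h ▸ hb)
    have hyR : F (i + 1) ∉ R := fun h => (hR _ h).1 hy
    have hxR : F i ∉ R := fun h => (hR _ h).1 hx
    have A1 : PI G a (F (i + 1)) (R ++ b :: s₂') :=
      pi_app pR q2' hab hyb (fun u hu hu' => (hR u hu).2.2 (by simp [hu']))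
        (fun h => hdj a ha (by simp [h])) hyR
    have A2 : PI G (F i) (F (i + 1)) (s₁ ++ a :: (R ++ b :: s₂')) := by
      refine pi_app q1 A1 hxa hya ?_ ?_ ?_
      · intro u hu hu'
        rw [List.mem_append, List.mem_cons] at hu'
        rcases hu' with hu' | rfl | hu'
        · exact (hR u hu').2.1 (by simp [hu])
        · exact hdj u (by simp [hu]) hb
        · exact hdj u (by simp [hu]) (by simp [hu'])
      · intro hu'
        rw [List.mem_append, List.mem_cons] at hu'
        rcases hu' with hu' | hu' | hu'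
        · exact hxR hu'
        · exact hxb hu'
        · exact p'.2.2.1 (by simp [hu'])
      · intro hu
        exact p.2.2.2 (by simp [hu])
    have B1 : PI G b (F (i + 1)) (R.reverse ++ a :: s₂) :=
      pi_app (pi_rev pR) q2 hab.symm hya
        (fun u hu hu' => (hR u (List.mem_reverse.1 hu)).2.1 (by simp [hu']))
        (fun h => hdj b (by simp [h]) hb) (fun h => hyR (List.mem_reverse.1 h))
    have B2 : PI G (F i) (F (i + 1)) (s₁' ++ b :: (R.reverse ++ a :: s₂)) := by
      refine pi_app q1' B1 hxb hyb ?_ ?_ ?_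
      · intro u hu hu'
        rw [List.mem_append, List.mem_cons, List.mem_reverse] at hu'
        rcases hu' with hu' | rfl | hu'
        · exact (hR u hu').2.2 (by simp [hu])
        · exact hdj u ha (by simp [hu])
        · exact hdj u (by simp [hu']) (by simp [hu])
      · intro hu'
        rw [List.mem_append, List.mem_cons, List.mem_reverse] at hu'
        rcases hu' with hu' | hu' | hu'
        · exact hxR hu'
        · exact hxa hu'
        · exact p.2.2.1 (by simp [hu'])
      · intro hu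
        exact p'.2.2.2 (by simp [hu])
    have C1 := hmax _ (rep_one hV hl hd hF i A2 (by simp) (fun u hu => by
      rw [List.mem_append, List.mem_cons, List.mem_append, List.mem_cons] at hu
      rcases hu with hu | rfl | hu | rfl | hu
      · exact d1 u (by simp [hu])
      · exact d1 u ha
      · exact (hR u hu).1
      · exact d2 u hb
      · exact d2 u (by simp [hu])))
    have C2 := hmax _ (rep_one hV hl hd hF i B2 (by simp) (fun u hu => by
      rw [List.mem_append, List.mem_cons, List.mem_append, List.mem_cons, List.mem_reverse] at hu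
      rcases hu with hu | rfl | hu | rfl | hu
      · exact d2 u (by simp [hu])
      · exact d2 u hb
      · exact (hR u hu).1
      · exact d1 u ha
      · exact d1 u (by simp [hu])))
    obtain ⟨d', rfl⟩ : ∃ d', d = d' + 1 := ⟨d - 1, by omega⟩
    rw [Nat.add_sub_cancel, Nat.add_mul, Nat.one_mul] at C1 C2
    simp only [List.length_append, List.length_cons, List.length_reverse] at C1 C2 l1 l2
    omega

end H46.CZ
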