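import Pool.Agent.H46.CZ.Thd
import Pool.Agent.H46.CZ.Unq
import Pool.Agent.H46.CZ.Sym

/-!
# CZ.Up3 : the upper bound for d = 3, l = 2 h (about 250 lines)

All elements of `L` are at most `3 l = 6 h`, the pieces are connected (`CConn`). Write `κ = 1 / (3 h - 2)`, `m j = {v | c v = j}.ncard`.
`piece_size` (a): let `F` be a closed chain and `J F` the set of the `i : ZMod 3` with `LP l G c (F i) (F (i + 1)) j` not empty, `j ≠ 0`. Then `#J F * (3 h - 2) ≤ 3 * m j`: if `#J F = 1`: `m j ≥ l - 1 = 2 h - 1` and `3 (2 h - 1) ≥ 3 h - 2`. If `#J F ≥ 2` then the piece `j` is attached to a third hub `z ≠ F i, F (i + 1)` (`i ∈ J F`, first or last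
member of another list): `third` gives `e, ρ` with `2 (l + ρ) ≤ 3 l`, `l ≤ e + ρ`, `e ≤ ρ`; `l ≤ l - e + ρ`; so `ρ = h = e` and `R` has `h - 1` members outside `s`: `m j ≥ (2 h - 1) + (h - 1) = 3 h - 2`. Each `LP l G c (F i) (F (i + 1)) j` has at most one element (`run_unique`). So for `w ≥ 0`:
`aw (F 0) (F 1) + aw (F 1) (F 2) + aw (F 2) (F 0) ≤ 3 κ * M F`, `M F = ∑ over the j with J F not empty of w j * m j ≤ 1`.
(b) Let `F`, `F'` be closed chains (of three hubs), `F i = x`, `F (i + 1) = y` and `{x, y}` contained in the range of `F'`; then the ranges agree: otherwise `F' ` has a third hub `z' ≠ z`, and `x, z, y, z'` is a closed sequence of `4` different hubs with consecutive ones joined by paths of length `l` through pieces (`z` the third hub of `F`): `chain_mem` with `r = 4`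
gives `4 l ∈ L`, impossible. (For three hubs any two of them are consecutive up to order; `lp_rev`.) (c) For a piece `j ≠ 0` the closed chains `F` with `J F` not empty have all the same range (the attached hubs of `j` are in the range of each of them by `hub_mem`, at least two), so there are at most `6` of them.
(d) `wz = ∑ F, ∏ ≤ ∑ over closed chains F of ((sum of the three factors) / 3) ^ 3` (AM-GM) `≤ ∑ F, (κ M F) ^ 3 ≤ κ ^ 3 ∑ F, M F ≤ κ ^ 3 * 6 * ∑ j, w j m j ≤ 6 κ ^ 3` and `wval = wz / 6`.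
-/

namespace H46.CZ

open Pool.Agent.H3.LC H46.CY

section

variable {V : Type} {L : Finset ℕ} {G : SimpleGraph V} {c : V → ℕ} {l : ℕ}

private theorem u3_join {F : ZMod 3 → V} (hF : Chn l G c F) {a b : ZMod 3} (hab : a ≠ b) :
    ∃ j, j ≠ 0 ∧ ∃ s, s ∈ LP l G c (F a) (F b) j := by
  have h : b = a + 1 ∨ a = b + 1 := by
    revert a b
    decide
  rcases h with rfl | rfl
  · obtain ⟨j, hj, s, hs⟩ := hF.2 a
    exact ⟨j, hj, s, hs⟩
  · obtain ⟨j, hj, s, hs⟩ := hF.2 b
    exact ⟨j, hj, s.reverse, lp_rev hs⟩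

private theorem u3_good {x y : V} {j : ℕ} {s : List V} (hl : 2 ≤ l) (hj : j ≠ 0)
    (hs : s ∈ LP l G c x y j) :
    PI G x y s ∧ s ≠ [] ∧ ∀ v ∈ s, c v ≠ 0 := by
  obtain ⟨h1, h2, h3⟩ := hs
  refine ⟨h1, ?_, fun v hv => by rw [h3 v hv]; exact hj⟩
  rintro rfl
  simp at h2
  omega

private theorem u3_four (hV : Valid L G c) (hl : 2 ≤ l) (hmax : ∀ x ∈ L, x ≤ 3 * l)
    {x₀ x₁ x₂ x₃ : V} (h01 : x₀ ≠ x₁) (h02 : x₀ ≠ x₂) (h03 : x₀ ≠ x₃) (h12 : x₁ ≠ x₂)
    (h13 : x₁ ≠ x₃) (h23 : x₂ ≠ x₃) (c₀ : c x₀ = 0) (c₁ : c x₁ = 0) (c₂ : c x₂ = 0)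
    (c₃ : c x₃ = 0) (j0 : ∃ j, j ≠ 0 ∧ ∃ s, s ∈ LP l G c x₀ x₁ j)
    (j1 : ∃ j, j ≠ 0 ∧ ∃ s, s ∈ LP l G c x₁ x₂ j) (j2 : ∃ j, j ≠ 0 ∧ ∃ s, s ∈ LP l G c x₂ x₃ j)
    (j3 : ∃ j, j ≠ 0 ∧ ∃ s, s ∈ LP l G c x₃ x₀ j) : False := by
  obtain ⟨j0, hj0, s0, hs0⟩ := j0
  obtain ⟨j1, hj1, s1, hs1⟩ := j1
  obtain ⟨j2, hj2, s2, hs2⟩ := j2
  obtain ⟨j3, hj3, s3, hs3⟩ := j3
  have key := chain_mem (r := 4) hV (by norm_num) (F := (![x₀, x₁, x₂, x₃] : Fin 4 → V))
    ⟨by
      intro a b hab
      fin_cases a <;> fin_cases b <;> simp at hab <;>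
        first
          | rfl
          | exact absurd hab h01
          | exact absurd hab h02
          | exact absurd hab h03
          | exact absurd hab h12
          | exact absurd hab h13
          | exact absurd hab h23
          | exact absurd hab.symm h01
          | exact absurd hab.symm h02
          | exact absurd hab.symm h03
          | exact absurd hab.symm h12
          | exact absurd hab.symm h13
          | exact absurd hab.symm h23,
      by
      intro a
      fin_cases a <;> simp <;> assumption⟩ (s := (![s0, s1, s2, s3] : Fin 4 → List V))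
    (by
      intro a
      fin_cases a
      · exact u3_good hl hj0 hs0
      · exact u3_good hl hj1 hs1
      · exact u3_good hl hj2 hs2
      · exact u3_good hl hj3 hs3)
  have hlen : ∀ i : ZMod 4, ((![s0, s1, s2, s3] : Fin 4 → List V) i).length + 1 = l := by
    intro a
    fin_cases a
    · exact hs0.2.1
    · exact hs1.2.1
    · exact hs2.2.1
    · exact hs3.2.1
  rw [Finset.sum_congr rfl fun i _ => hlen i, Finset.sum_const, Finset.card_univ, ZMod.card] at key
  have := hmax _ key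
  simp at this
  omega

private theorem u3_third {a b : ZMod 3} (hab : a ≠ b) :
    ∃ e : ZMod 3, a ≠ e ∧ b ≠ e ∧ ∀ k, k = a ∨ k = b ∨ k = e := by
  revert a b
  decide

private theorem u3_range (hV : Valid L G c) (hl : 2 ≤ l) (hmax : ∀ x ∈ L, x ≤ 3 * l)
    {F F' : ZMod 3 → V} (hF : Chn l G c F) (hF' : Chn l G c F') {a b : ZMod 3} (hab : a ≠ b)
    (ha : ∃ k, F' k = F a) (hb : ∃ k, F' k = F b) : ∀ k, ∃ k', F k' = F' k := by
  obtain ⟨a', ha'⟩ := ha
  obtain ⟨b', hb'⟩ := hb
  have hab' : a' ≠ b' := by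
    rintro rfl
    rw [ha'] at hb'
    exact hab (hF.1.1 hb')
  obtain ⟨e, he1, he2, -⟩ := u3_third hab
  obtain ⟨e', he1', he2', he'⟩ := u3_third hab'
  have hee : F e = F' e' := by
    by_contra hne
    have hi := hF.1.1
    have hi' := hF'.1.1
    refine u3_four (c := c) hV hl hmax (x₀ := F a) (x₁ := F e) (x₂ := F b) (x₃ := F' e')
      (hi.ne he1) (hi.ne hab) (by rw [← ha']; exact hi'.ne he1') (hi.ne he2.symm) hne
      (by rw [← hb']; exact hi'.ne he2') (hF.1.2 _) (hF.1.2 _) (hF.1.2 _) (hF'.1.2 _)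
      (u3_join hF he1) (u3_join hF he2.symm) (by rw [← hb']; exact u3_join hF' he2')
      (by rw [← ha']; exact u3_join hF' he1'.symm)
  intro k
  rcases he' k with rfl | rfl | rfl
  · exact ⟨a, ha'.symm⟩
  · exact ⟨b, hb'.symm⟩
  · exact ⟨e, hee⟩

/-- the hub `x` is adjacent to the first vertex of the list -/
private theorem u3_first {x y : V} {j : ℕ} {s : List V} (hl : 2 ≤ l) (hs : s ∈ LP l G c x y j) :
    ∃ u ∈ s, G.Adj u x := by
  obtain ⟨h1, h2, h3⟩ := hs
  cases s with
  | nil =>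
    simp at h2
    omega
  | cons u s =>
    refine ⟨u, List.mem_cons_self, ?_⟩
    have := h1.1
    simp only [List.cons_append, List.isChain_cons_cons] at this
    exact this.1.symm

private theorem u3_last {x y : V} {j : ℕ} {s : List V} (hl : 2 ≤ l) (hs : s ∈ LP l G c x y j) :
    ∃ u ∈ s, G.Adj u y := by
  obtain ⟨u, hu, h⟩ := u3_first hl (lp_rev hs)
  exact ⟨u, by simpa using hu, h⟩

private theorem u3_mem (hV : Valid L G c) (hl : 2 ≤ l) (hmax : ∀ x ∈ L, x ≤ 3 * l)
    (hC : CConn G c) {F F' : ZMod 3 → V} (hF' : Chn l G c F') {j : ℕ} (hj : j ≠ 0)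
    {i i' : ZMod 3} {s s' : List V} (hc1 : c (F i) = 0) (hc2 : c (F (i + 1)) = 0)
    (hs : s ∈ LP l G c (F i) (F (i + 1)) j)
    (hs' : s' ∈ LP l G c (F' i') (F' (i' + 1)) j) :
    (∃ k, F' k = F i) ∧ ∃ k, F' k = F (i + 1) := by
  obtain ⟨v, hv, -⟩ := u3_first hl hs'
  obtain ⟨u1, hu1, ha1⟩ := u3_first hl hs
  obtain ⟨u2, hu2, ha2⟩ := u3_last hl hs
  have hcv := hs'.2.2 v hv
  refine ⟨hub_mem hV hl (by norm_num) hmax hF' hj hs' hv (hC v u1 ?_ ?_) ha1 hc1,
    hub_mem hV hl (by norm_num) hmax hF' hj hs' hv (hC v u2 ?_ ?_) ha2 hc2⟩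
  · rw [hcv, hs.2.2 u1 hu1]
  · rw [hcv]; exact hj
  · rw [hcv, hs.2.2 u2 hu2]
  · rw [hcv]; exact hj

private theorem u3_nodup_card [Fintype V] [DecidableEq V] {j : ℕ} {s : List V} (hs : s.Nodup)
    (h : ∀ v ∈ s, c v = j) : s.length ≤ (Finset.univ.filter fun v => c v = j).card := by
  rw [← List.toFinset_card_of_nodup hs]
  apply Finset.card_le_card
  intro v hv
  simp only [Finset.mem_filter, Finset.mem_univ, true_and]
  exact h v (by simpa using hv)

private theorem u3_size [Fintype V] {h : ℕ} (hV : Valid L G c) (hh : 1 ≤ h)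
    (hev : ∀ x ∈ L, Even x → 2 * (2 * h) ≤ x) (hmax : ∀ x ∈ L, x ≤ 3 * (2 * h))
    (hC : CConn G c) {F : ZMod 3 → V} (hF : Chn (2 * h) G c F) {j : ℕ} (hj : j ≠ 0)
    (I : Finset (ZMod 3)) (hI : ∀ i ∈ I, (LP (2 * h) G c (F i) (F (i + 1)) j).Nonempty) :
    I.card * (3 * h - 2) ≤ 3 * (Finset.univ.filter fun v => c v = j).card := by
  classical
  have hl : 2 ≤ 2 * h := by omega
  have hI3 : I.card ≤ 3 := by
    have := Finset.card_le_univ I
    rwa [ZMod.card] at this
  rcases Nat.lt_or_ge I.card 2 with h1 | h2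
  · rcases Nat.eq_zero_or_pos I.card with h0 | h0
    · rw [h0]
      omega
    · obtain ⟨i, hi⟩ := Finset.card_pos.1 h0
      obtain ⟨s, hs⟩ := hI i hi
      have a1 := u3_nodup_card (c := c) hs.1.2.1 hs.2.2
      have a2 := hs.2.1
      have a3 : I.card = 1 := by omega
      rw [a3]
      omega
  · obtain ⟨i, hi, i', hi', hne⟩ := Finset.one_lt_card.1 h2
    obtain ⟨s, hs⟩ := hI i hi
    obtain ⟨s', hs'⟩ := hI i' hi'
    obtain ⟨v₀, hv₀, -⟩ := u3_first hl hs
    have hu : ∃ u ∈ s', G.Adj u (F (i + 2)) := by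
      have e : i' = i + 1 ∨ i' = i + 2 := by
        clear hs hs' hi hi'
        revert i i'
        decide
      rcases e with rfl | rfl
      · have := u3_last hl hs'
        rwa [show i + 1 + 1 = i + 2 by ring] at this
      · exact u3_first hl hs'
    obtain ⟨u, hu, huz⟩ := hu
    have hcon : Con G c v₀ u := by
      apply hC
      · rw [hs.2.2 v₀ hv₀, hs'.2.2 u hu]
      · rw [hs.2.2 v₀ hv₀]
        exact hj
    have n1 : i + 2 ≠ i := by
      clear hs hs' hi hi' hne huz
      revert i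
      decide
    have n2 : i + 2 ≠ i + 1 := by
      clear hs hs' hi hi' hne huz n1
      revert i
      decide
    obtain ⟨e, ρ, a, b, he1, hel, hρ, ha, hb, hab, g1, g2, g3, -, -, -, -, -, -, R, r1, r2, r3⟩ :=
      third hV hl (by norm_num) hev hmax hF hj hs hv₀ hcon huz (hF.1.2 _) (hF.1.1.ne n1)
        (hF.1.1.ne n2)
    have g4 := hmax _ g3
    have hρh : ρ = h := by omega
    have hsR : (s ++ R).Nodup := by
      rw [List.nodup_append]
      refine ⟨hs.1.2.1, r2, ?_⟩
      intro x hx y hy hxy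
      subst hxy
      exact (r3 x hy).2.1 hx
    have hcR : ∀ v ∈ s ++ R, c v = j := by
      intro v hv
      rcases List.mem_append.1 hv with hv | hv
      · exact hs.2.2 v hv
      · rw [← con_col hV.1 (r3 v hv).2.2]
        exact hs.2.2 v₀ hv₀
    have a1 := u3_nodup_card (c := c) hsR hcR
    rw [List.length_append] at a1
    have a2 := hs.2.1
    have a4 : 3 * h - 2 ≤ (Finset.univ.filter fun v => c v = j).card := by omega
    exact Nat.mul_le_mul hI3 a4

private theorem u3_one [Fintype V] (hV : Valid L G c) (hl : 2 ≤ l)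
    (hev : ∀ x ∈ L, Even x → 2 * l ≤ x) (hmax : ∀ x ∈ L, x ≤ 3 * l) (hC : CConn G c)
    {F : ZMod 3 → V} (hF : Chn l G c F) {j : ℕ} (hj : j ≠ 0) (i : ZMod 3) :
    (LP l G c (F i) (F (i + 1)) j).ncard ≤ 1 := by
  rw [Set.ncard_le_one (lp_finite l G c _ _ j)]
  intro s hs s' hs'
  obtain ⟨v, hv, -⟩ := u3_first hl hs
  obtain ⟨v', hv', -⟩ := u3_first hl hs'
  refine run_unique hV hl (by norm_num) hev hmax hF hj hj hs hs' hv hv' (hC v v' ?_ ?_)
  · rw [hs.2.2 v hv, hs'.2.2 v' hv']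
  · rw [hs.2.2 v hv]
    exact hj

/-- the closed chains which use the piece `j` -/
private def u3S (l : ℕ) (G : SimpleGraph V) (c : V → ℕ) (j : ℕ) (F : ZMod 3 → V) : Prop :=
  j ≠ 0 ∧ Chn l G c F ∧ ∃ i, (LP l G c (F i) (F (i + 1)) j).Nonempty

open Classical in
private theorem u3_count [Fintype V] (hV : Valid L G c) (hl : 2 ≤ l)
    (hmax : ∀ x ∈ L, x ≤ 3 * l) (hC : CConn G c) (j : ℕ) :
    (Finset.univ.filter fun F : ZMod 3 → V => u3S l G c j F).card ≤ 6 := by
  rcases (Finset.univ.filter fun F : ZMod 3 → V => u3S l G c j F).eq_empty_or_nonempty with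
    h0 | ⟨F0, h0⟩
  · rw [h0]
    simp
  · simp only [Finset.mem_filter, Finset.mem_univ, true_and] at h0
    obtain ⟨hj, hF0, i0, s0, hs0⟩ := h0
    have hsub : (Finset.univ.filter fun F : ZMod 3 → V => u3S l G c j F) ⊆
        Finset.image (fun σ : Equiv.Perm (ZMod 3) => F0 ∘ (σ : ZMod 3 → ZMod 3))
          (Finset.univ : Finset (Equiv.Perm (ZMod 3))) := by
      intro F hF
      simp only [Finset.mem_filter, Finset.mem_univ, true_and] at hF
      obtain ⟨-, hF, i, s, hs⟩ := hF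
      obtain ⟨m1, m2⟩ := u3_mem hV hl hmax hC hF0 hj (hF.1.2 _) (hF.1.2 _) hs hs0
      have hii : i ≠ i + 1 := by
        clear hs m1 m2
        revert i
        decide
      have hr := u3_range hV hl hmax hF hF0 hii m1 m2
      have hr' : ∀ k, ∃ k', F0 k' = F k := by
        have hrr := u3_range hV hl hmax hF0 hF (a := 0) (b := 1) (by decide)
          (by obtain ⟨k, hk⟩ := hr 0; exact ⟨k, hk⟩) (by obtain ⟨k, hk⟩ := hr 1; exact ⟨k, hk⟩)
        intro k
        obtain ⟨k', hk'⟩ := hrr k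
        exact ⟨k', hk'⟩
      choose σ hσ using hr'
      have hinj : Function.Injective σ := by
        intro a b hab
        apply hF.1.1
        rw [← hσ a, ← hσ b, hab]
      have hbij : Function.Bijective σ := Finite.injective_iff_bijective.1 hinj
      refine Finset.mem_image.2 ⟨Equiv.ofBijective σ hbij, Finset.mem_univ _, ?_⟩
      funext k
      exact hσ k
    refine (Finset.card_le_card hsub).trans (Finset.card_image_le.trans ?_)
    rw [Finset.card_univ, Fintype.card_perm, ZMod.card]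
    decide

/-- the total weight of the pieces used by the closed chain `F` -/
private noncomputable def u3M [Fintype V] (l : ℕ) (G : SimpleGraph V) (c : V → ℕ) (w : ℕ → ℝ)
    (F : ZMod 3 → V) : ℝ := by
  classical
  exact ∑ j ∈ Finset.univ.image c,
    if u3S l G c j F then w j * ((Finset.univ.filter fun v => c v = j).card : ℝ) else 0

private theorem u3_total [Fintype V] [DecidableEq V] (w : ℕ → ℝ) :
    ∑ j ∈ Finset.univ.image c, w j * ((Finset.univ.filter fun v => c v = j).card : ℝ) =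
      ∑ v, w (c v) := by
  rw [Finset.sum_comp w c]
  apply Finset.sum_congr rfl
  intro j _
  rw [nsmul_eq_mul, mul_comm]

private theorem u3_M_le [Fintype V] {w : ℕ → ℝ} (hw : Feas c w) (F : ZMod 3 → V) :
    0 ≤ u3M l G c w F ∧ u3M l G c w F ≤ 1 := by
  classical
  obtain ⟨-, h1, h2⟩ := hw
  rw [← u3_total] at h2
  constructor
  · apply Finset.sum_nonneg
    intro j _
    split_ifs
    · have := h1 j
      positivity
    · exact le_rfl
  · refine le_trans (Finset.sum_le_sum fun j _ => ?_) h2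
    split_ifs
    · exact le_rfl
    · have := h1 j
      positivity

private theorem u3_sumM [Fintype V] (hV : Valid L G c) (hl : 2 ≤ l)
    (hmax : ∀ x ∈ L, x ≤ 3 * l) (hC : CConn G c) {w : ℕ → ℝ} (hw : Feas c w) :
    ∑ F : ZMod 3 → V, u3M l G c w F ≤ 6 := by
  classical
  have h1 := hw.2.1
  have h2 := hw.2.2
  rw [← u3_total] at h2
  unfold u3M
  rw [Finset.sum_comm]
  have h3 : ∀ j ∈ Finset.univ.image c, (∑ F : ZMod 3 → V, if u3S l G c j F then
      w j * ((Finset.univ.filter fun v => c v = j).card : ℝ) else 0) ≤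
      6 * (w j * ((Finset.univ.filter fun v => c v = j).card : ℝ)) := by
    intro j _
    rw [← Finset.sum_filter, Finset.sum_const, nsmul_eq_mul]
    have hc := u3_count hV hl hmax hC j
    have h0 : 0 ≤ w j * ((Finset.univ.filter fun v => c v = j).card : ℝ) := by
      have := h1 j
      positivity
    apply mul_le_mul_of_nonneg_right _ h0
    have : ((Finset.univ.filter fun F : ZMod 3 → V => u3S l G c j F).card : ℝ) ≤ (6 : ℕ) := by
      exact_mod_cast hc
    exact_mod_cast this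
  refine (Finset.sum_le_sum h3).trans ?_
  rw [← Finset.mul_sum]
  linarith

private theorem u3_aw [Fintype V] {h : ℕ} (hV : Valid L G c) (hh : 1 ≤ h)
    (hev : ∀ x ∈ L, Even x → 2 * (2 * h) ≤ x) (hmax : ∀ x ∈ L, x ≤ 3 * (2 * h))
    (hC : CConn G c) {w : ℕ → ℝ} (hw : Feas c w) {F : ZMod 3 → V} (hF : Chn (2 * h) G c F) :
    (3 * (h : ℝ) - 2) * ∑ i, aw (2 * h) G c w (F i) (F (i + 1)) ≤
      3 * u3M (2 * h) G c w F := by
  classical
  have hl : 2 ≤ 2 * h := by omega
  have h1 := hw.2.1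
  unfold aw u3M
  rw [Finset.sum_comm, Finset.mul_sum, Finset.mul_sum]
  apply Finset.sum_le_sum
  intro j _
  rcases eq_or_ne j 0 with rfl | hj
  · simp [hw.1, u3S]
  · set I : Finset (ZMod 3) :=
      Finset.univ.filter fun i => (LP (2 * h) G c (F i) (F (i + 1)) j).Nonempty with hI
    have e1 : ∑ i : ZMod 3, w j * ((LP (2 * h) G c (F i) (F (i + 1)) j).ncard : ℝ) ≤
        w j * I.card := by
      rw [← Finset.mul_sum]
      apply mul_le_mul_of_nonneg_left _ (h1 j)
      have : ∑ i : ZMod 3, (LP (2 * h) G c (F i) (F (i + 1)) j).ncard ≤ I.card := by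
        rw [Finset.card_eq_sum_ones, hI, Finset.sum_filter]
        apply Finset.sum_le_sum
        intro i _
        split_ifs with hne
        · exact u3_one hV hl hev hmax hC hF hj i
        · rw [Set.not_nonempty_iff_eq_empty] at hne
          rw [hne, Set.ncard_empty]
      exact_mod_cast this
    have e2 := u3_size hV hh hev hmax hC hF hj I (fun i hi => by
      simpa [hI] using hi)
    have e3 : (I.card : ℝ) * (3 * (h : ℝ) - 2) ≤
        3 * ((Finset.univ.filter fun v => c v = j).card : ℝ) := by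
      have : ((I.card * (3 * h - 2) : ℕ) : ℝ) ≤
          ((3 * (Finset.univ.filter fun v => c v = j).card : ℕ) : ℝ) := by
        exact_mod_cast e2
      rw [Nat.cast_mul, Nat.cast_mul, Nat.cast_sub (by omega)] at this
      push_cast at this
      exact this
    have hh' : (1 : ℝ) ≤ h := by exact_mod_cast hh
    have h0 : 0 ≤ 3 * (h : ℝ) - 2 := by linarith
    by_cases hS : u3S (2 * h) G c j F
    · rw [if_pos hS]
      have e4 := mul_le_mul_of_nonneg_left e1 h0
      have e5 := mul_le_mul_of_nonneg_left e3 (h1 j)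
      nlinarith
    · rw [if_neg hS]
      have hI0 : I = ∅ := by
        rw [Finset.eq_empty_iff_forall_notMem]
        intro i hi
        apply hS
        refine ⟨hj, hF, i, ?_⟩
        simpa [hI] using hi
      rw [hI0] at e1
      simp only [Finset.card_empty, Nat.cast_zero, mul_zero] at e1
      rw [mul_zero]
      exact mul_nonpos_of_nonneg_of_nonpos h0 e1

private theorem u3_amgm {a b e : ℝ} (ha : 0 ≤ a) (hb : 0 ≤ b) (he : 0 ≤ e) :
    27 * (a * b * e) ≤ (a + b + e) ^ 3 := by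
  nlinarith [mul_nonneg ha (sq_nonneg (b - e)), mul_nonneg hb (sq_nonneg (a - e)),
    mul_nonneg he (sq_nonneg (a - b)), mul_nonneg ha (sq_nonneg (a - b)),
    mul_nonneg ha (sq_nonneg (a - e)), mul_nonneg hb (sq_nonneg (b - a)),
    mul_nonneg hb (sq_nonneg (b - e)), mul_nonneg he (sq_nonneg (e - a)),
    mul_nonneg he (sq_nonneg (e - b))]

end

theorem wval_le_three {V : Type} [Fintype V] {L : Finset ℕ} {G : SimpleGraph V} {c : V → ℕ}
    {h : ℕ} (hV : Valid L G c) (hh : 1 ≤ h) (hev : ∀ x ∈ L, Even x → 2 * (2 * h) ≤ x)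
    (hmax : ∀ x ∈ L, x ≤ 3 * (2 * h)) (hC : CConn G c) {w : ℕ → ℝ} (hw : Feas c w) :
    wval (2 * h) 3 G c w ≤ 1 / (3 * (h : ℝ) - 2) ^ 3 := by
  classical
  have hl : 2 ≤ 2 * h := by omega
  have hh' : (1 : ℝ) ≤ h := by exact_mod_cast hh
  set K : ℝ := 3 * (h : ℝ) - 2 with hK
  have hK0 : 0 < K := by rw [hK]; linarith
  have hw0 := hw.1
  have hw1 := hw.2.1
  have step : ∀ F : ZMod 3 → V, F ∈ HC c 3 →
      ∏ i, aw (2 * h) G c w (F i) (F (i + 1)) ≤ u3M (2 * h) G c w F / K ^ 3 := by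
    intro F hF
    obtain ⟨m0, m1⟩ := u3_M_le (l := 2 * h) (G := G) hw F
    by_cases hc : Chn (2 * h) G c F
    · have e1 := u3_aw hV hh hev hmax hC hw hc
      have e2 : ∑ i : ZMod 3, aw (2 * h) G c w (F i) (F (i + 1)) =
          aw (2 * h) G c w (F 0) (F (0 + 1)) + aw (2 * h) G c w (F 1) (F (1 + 1)) +
            aw (2 * h) G c w (F 2) (F (2 + 1)) :=
        Fin.sum_univ_three (fun i : ZMod 3 => aw (2 * h) G c w (F i) (F (i + 1)))
      have e3 : ∏ i : ZMod 3, aw (2 * h) G c w (F i) (F (i + 1)) =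
          aw (2 * h) G c w (F 0) (F (0 + 1)) * aw (2 * h) G c w (F 1) (F (1 + 1)) *
            aw (2 * h) G c w (F 2) (F (2 + 1)) :=
        Fin.prod_univ_three (fun i : ZMod 3 => aw (2 * h) G c w (F i) (F (i + 1)))
      rw [e2] at e1
      rw [e3]
      have p0 := aw_nonneg (l := 2 * h) (G := G) (c := c) hw1 (F 0) (F (0 + 1))
      have p1 := aw_nonneg (l := 2 * h) (G := G) (c := c) hw1 (F 1) (F (1 + 1))
      have p2 := aw_nonneg (l := 2 * h) (G := G) (c := c) hw1 (F 2) (F (2 + 1))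
      set a := aw (2 * h) G c w (F 0) (F (0 + 1))
      set b := aw (2 * h) G c w (F 1) (F (1 + 1))
      set e := aw (2 * h) G c w (F 2) (F (2 + 1))
      have am := u3_amgm p0 p1 p2
      rw [le_div_iff₀ (by positivity)]
      have q1 : (K * (a + b + e)) ^ 3 ≤ (3 * u3M (2 * h) G c w F) ^ 3 := by
        apply pow_le_pow_left₀ _ e1
        positivity
      have q2 : (u3M (2 * h) G c w F) ^ 3 ≤ u3M (2 * h) G c w F := by
        have := pow_le_pow_of_le_one m0 m1 (show 1 ≤ 3 by norm_num)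
        simpa using this
      have q3 : 27 * (a * b * e * K ^ 3) ≤ (K * (a + b + e)) ^ 3 := by
        have := mul_le_mul_of_nonneg_right am (show 0 ≤ K ^ 3 by positivity)
        calc 27 * (a * b * e * K ^ 3) = 27 * (a * b * e) * K ^ 3 := by ring
          _ ≤ (a + b + e) ^ 3 * K ^ 3 := this
          _ = (K * (a + b + e)) ^ 3 := by ring
      nlinarith
    · have h0 : ¬ 0 < ∏ i, aw (2 * h) G c w (F i) (F (i + 1)) := fun hp =>
        hc (pc_chn hw0 hw1 ⟨hF, hp⟩)
      refine (not_lt.1 h0).trans ?_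
      positivity
  have hwz : wz (2 * h) 3 G c w ≤ 6 / K ^ 3 := by
    unfold wz
    calc ∑ F : {F : ZMod 3 → V // F ∈ HC c 3}, ∏ i, aw (2 * h) G c w (F.1 i) (F.1 (i + 1))
        ≤ ∑ F : {F : ZMod 3 → V // F ∈ HC c 3}, u3M (2 * h) G c w F.1 / K ^ 3 :=
          Finset.sum_le_sum fun F _ => step F.1 F.2
      _ = ∑ F ∈ Finset.univ.filter (fun F : ZMod 3 → V => F ∈ HC c 3),
            u3M (2 * h) G c w F / K ^ 3 :=
          (Finset.sum_subtype (Finset.univ.filter (fun F : ZMod 3 → V => F ∈ HC c 3))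
            (fun x => by simp) (fun F => u3M (2 * h) G c w F / K ^ 3)).symm
      _ ≤ ∑ F : ZMod 3 → V, u3M (2 * h) G c w F / K ^ 3 := by
          apply Finset.sum_le_sum_of_subset_of_nonneg (Finset.filter_subset _ _)
          intro F _ _
          have := (u3_M_le (l := 2 * h) (G := G) hw F).1
          positivity
      _ = (∑ F : ZMod 3 → V, u3M (2 * h) G c w F) / K ^ 3 := (Finset.sum_div _ _ _).symm
      _ ≤ 6 / K ^ 3 := by
          apply div_le_div_of_nonneg_right (u3_sumM hV hl hmax hC hw)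
          positivity
  rw [val_eq]
  have e9 : (2 * ((3 : ℕ) : ℝ)) = 6 := by norm_num
  rw [e9, div_le_iff₀ (by norm_num)]
  calc wz (2 * h) 3 G c w ≤ 6 / K ^ 3 := hwz
    _ = 1 / K ^ 3 * 6 := by ring

end H46.CZ
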