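import Pool.Agent.H46.CZ.Gmw
import Pool.Agent.H46.CZ.Upd
import Pool.Agent.H46.CZ.Up3
import Pool.Agent.H46.CZ.Thd
import Pool.Agent.H46.CZ.Lw2
import Pool.Agent.H46.CZ.Spv
import Pool.Agent.H46.CZ.Cmp

/-!
# CZ.Cls : closed forms
-/

namespace H46.CZ

open Pool.Agent.H3.LC H46.CY

variable {L : Finset ℕ} {l d : ℕ}

theorem noFork_two (l : ℕ) : NoFork L l 2 := by
  intro e ρ a b _ _ _ ha hb hab
  omega

theorem Gam_two (hl : 2 ≤ l) (h2 : 2 * l ∈ L) (hev : ∀ x ∈ L, Even x → 2 * l ≤ x)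
    (hmax : ∀ x ∈ L, x ≤ 2 * l) : Gam L 2 = 1 / (2 * ((l : ℝ) - 1) ^ 2) := by
  apply le_antisymm
  · refine Gam_le hl le_rfl hev hmax fun N G c w hV hw => ?_
    exact wval_le_two hV hl hev (noThird_of_noFork hV hl le_rfl hev hmax (noFork_two l)) hw
  · obtain ⟨V, hV, G, c, w, h1, h3, h4⟩ := low_two hl h2
    exact h4.trans (wval_le_Gam h1 hl le_rfl hev hmax h3)

theorem Gam_neck (hl : 2 ≤ l) (hd : 3 ≤ d) (h2 : 2 * l ∈ L) (hdl : d * l ∈ L)
    (hev : ∀ x ∈ L, Even x → 2 * l ≤ x) (hmax : ∀ x ∈ L, x ≤ d * l) (hN : NoFork L l d) :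
    Gam L d = 1 / ((d : ℝ) * ((l : ℝ) - 1)) ^ d := by
  apply le_antisymm
  · refine Gam_le hl (by omega) hev hmax fun N G c w hV hw => ?_
    exact wval_le_neck hV hl hd hev (noThird_of_noFork hV hl (by omega) hev hmax hN) hw
  · exact Gam_pos hl (by omega) h2 hdl le_rfl hev fun x hx => by
      have := hmax x hx
      have h3 : (d + 1) * l = d * l + l := by ring
      omega

theorem Gam_three_even {h : ℕ} (hh : 1 ≤ h) (h2 : 4 * h ∈ L) (h3 : 6 * h ∈ L)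
    (hev : ∀ x ∈ L, Even x → 4 * h ≤ x) (hmax : ∀ x ∈ L, x ≤ 6 * h) :
    Gam L 3 = 1 / (3 * (h : ℝ) - 2) ^ 3 := by
  have hev' : ∀ x ∈ L, Even x → 2 * (2 * h) ≤ x := fun x hx he => by
    have := hev x hx he
    omega
  have hmax' : ∀ x ∈ L, x ≤ 3 * (2 * h) := fun x hx => by
    have := hmax x hx
    omega
  apply le_antisymm
  · refine Gam_le (l := 2 * h) (by omega) (by omega) hev' hmax' fun N G c w hV hw => ?_
    obtain ⟨c', w', h4, h5, h6, h7⟩ := comp_col (l := 2 * h) (by omega) hV hw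
    rw [← h7]
    exact wval_le_three h4 hh hev' hmax' h5 h6
  · obtain ⟨w, hw, hv⟩ := spi_val hh
    exact hv.trans (wval_le_Gam (spi_valid hh h2 h3) (by omega) (by omega) hev' hmax' hw)

/-- for `d = 3` and odd `l` there are no forks -/
theorem noFork_three (hl : 2 ≤ l) (hodd : Odd l) (hev : ∀ x ∈ L, Even x → 2 * l ≤ x)
    (hmax : ∀ x ∈ L, x ≤ 3 * l) : NoFork L l 3 := by
  rintro e ρ a b he1 hel hρ ha hb hab ⟨h1, h2, h3, -, -, -, -⟩
  have g1 := hmax _ h1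
  have g2 := hev _ h2 ⟨e + ρ, by ring⟩
  have g3 := hev _ h3 ⟨l - e + ρ, by ring⟩
  obtain ⟨k, hk⟩ := hodd
  omega

/-- if `L` has no element in `[3 l, d l)` and `d ≥ 4` there are no forks -/
theorem noFork_gap (hl : 2 ≤ l) (hd : 4 ≤ d) (hev : ∀ x ∈ L, Even x → 2 * l ≤ x)
    (hmax : ∀ x ∈ L, x ≤ d * l) (hgap : ∀ x ∈ L, x < 3 * l ∨ x = d * l) : NoFork L l d := by
  rintro e ρ a b he1 hel hρ ha hb hab ⟨h1, h2, h3, -, -, -, -⟩
  have g2 := hev _ h2 ⟨e + ρ, by ring⟩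
  have g3 := hev _ h3 ⟨l - e + ρ, by ring⟩
  have k1 := hgap _ h1
  have k2 := hgap _ h2
  have k3 := hgap _ h3
  have h4 : 4 * l ≤ d * l := Nat.mul_le_mul_right l hd
  omega

end H46.CZ
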