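import Pool.Agent.H46.CZ.Fib
import Pool.Agent.H3.LC.Transfer

/-!
# CZ.CyL : lower bound for c(L, n) with a i copies of the piece i (about 200 lines)

The graph `sblow G c a` (vertices: hubs and pairs `(v, k)`, `k < a (c v)`) is contained in `blow G c M` for `M ≥ a (c v)` for all `v` (map `(v, k) ↦ (v, k)`, injective, preserves adjacency), so it is an `L`-cycle graph (`isLCycle_iff`, compose the cyclic sequence). It has `{v | c v = 0}.ncard + ∑ v with c v ≠ 0, a (c v) ≤ n` vertices, so
`(cycles (sblow G c a)).ncard ≤ cMax L n` (`ncard_le_cMax`). With the colouring `c' x = c x.1.1` the image of `TS l (sblow G c a) c' d` under `p ↦ cedges (cyg l p.1 p.2)` consists of cycles (`ts_isCyc`, `mem_cycles_iff`, `3 ≤ d l`), so `ts_card` gives `(TS l (sblow G c a) c' d).ncard ≤ 2 d * cMax L n`. Lower bound for the left side: for `F ∈ HC c d`,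
colours `j i ≠ 0`, lists `s i ∈ LP l G c (F i) (F (i + 1)) (j i)` and an injective function `α : ZMod d → ℕ` with `α i < a (j i)` the pair (`fun i => (F i, 0)`, `fun i => (s i).map (·, α i)`) is in `TS` (copies `α i` different: disjoint lists), and different `(F, s, α)` give different pairs (`s i` is not empty, so `α i` is determined). For fixed `F, s`
the number of the injective `α` with `α i < a (j i)` is at least `∏ i, (a (j i) - d)` (choose the values one after the other, at most `d` values are forbidden; induction over a `Finset` of indices, or: the map below). So `(TS ...).ncard ≥ ∑ F, ∏ i, ∑ j, (a j - d) * (LP ... j).ncard` (natural subtraction).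
-/

namespace H46.CZ

open Pool.Agent.H3.LC H46.CY

variable {V : Type} [Fintype V] {L : Finset ℕ} {G : SimpleGraph V} {c : V → ℕ} {l d : ℕ}

private theorem CyL_step {ι : Type} [Fintype ι] [DecidableEq ι] (b : ι → ℕ) (m : ℕ)
    (s : Finset ι) (hs : s.card ≤ m) :
    ∏ i ∈ s, (b i - m) ≤
      ((Fintype.piFinset fun i => if i ∈ s then Finset.range (b i) else {0}).filter
        fun α => Set.InjOn α (s : Set ι)).card := by
  classical
  induction s using Finset.induction_on with
  | empty => simp
  | insert i s hi ih =>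
    rw [Finset.card_insert_of_notMem hi] at hs
    have ih' := ih (by omega)
    rw [Finset.prod_insert hi]
    set A := (Fintype.piFinset fun i => if i ∈ s then Finset.range (b i) else {0}).filter
        fun α => Set.InjOn α (s : Set ι) with hA
    have h1 : (b i - m) * ∏ i ∈ s, (b i - m) ≤
        (A.sigma fun α => Finset.range (b i) \ s.image α).card := by
      rw [Finset.card_sigma]
      calc (b i - m) * ∏ i ∈ s, (b i - m) ≤ (b i - m) * A.card := Nat.mul_le_mul_left _ ih'
        _ = ∑ _α ∈ A, (b i - m) := by rw [Finset.sum_const, smul_eq_mul, Nat.mul_comm]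
        _ ≤ _ := by
          refine Finset.sum_le_sum fun α _ => ?_
          have h2 := Finset.le_card_sdiff (s.image α) (Finset.range (b i))
          have h3 : (s.image α).card ≤ s.card := Finset.card_image_le
          rw [Finset.card_range] at h2
          omega
    refine h1.trans (Finset.card_le_card_of_injOn
      (fun p : (_ : ι → ℕ) × ℕ => Function.update p.1 i p.2) ?_ ?_)
    · rintro ⟨α, x⟩ hp
      simp only [Finset.coe_sigma, Set.mem_sigma_iff, Finset.mem_coe, hA, Finset.mem_filter,
        Fintype.mem_piFinset, Finset.mem_sdiff, Finset.mem_range, Finset.mem_image, not_exists,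
        not_and] at hp
      obtain ⟨⟨hp1, hp2⟩, hp3, hp4⟩ := hp
      simp only [Finset.coe_filter, Set.mem_ofPred_eq, Fintype.mem_piFinset]
      refine ⟨fun k => ?_, ?_⟩
      · by_cases hk : k = i
        · subst hk
          rw [Function.update_self, if_pos (Finset.mem_insert_self _ _), Finset.mem_range]
          exact hp3
        · rw [Function.update_of_ne hk]
          have h5 := hp1 k
          by_cases hks : k ∈ s
          · rw [if_pos (Finset.mem_insert_of_mem hks)]
            rwa [if_pos hks] at h5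
          · rw [if_neg (by rw [Finset.mem_insert]; tauto)]
            rwa [if_neg hks] at h5
      · intro u hu v hv huv
        rw [Finset.mem_coe, Finset.mem_insert] at hu hv
        rcases hu with rfl | hu
        · rcases hv with rfl | hv
          · rfl
          · exfalso
            have hne : v ≠ u := fun h => hi (h ▸ hv)
            simp only [Function.update_self, Function.update_of_ne hne] at huv
            exact hp4 v hv huv.symm
        · rcases hv with rfl | hv
          · exfalso
            have hne : u ≠ v := fun h => hi (h ▸ hu)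
            simp only [Function.update_self, Function.update_of_ne hne] at huv
            exact hp4 u hu huv
          · have hne : u ≠ i := fun h => hi (h ▸ hu)
            have hne' : v ≠ i := fun h => hi (h ▸ hv)
            simp only [Function.update_of_ne hne, Function.update_of_ne hne'] at huv
            exact hp2 hu hv huv
    · rintro ⟨α, x⟩ hp ⟨β, y⟩ hq hpq
      simp only [Finset.coe_sigma, Set.mem_sigma_iff, Finset.mem_coe, hA, Finset.mem_filter,
        Fintype.mem_piFinset] at hp hq
      simp only at hpq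
      have hx : x = y := by
        have := congrFun hpq i
        simpa using this
      have ha : α = β := by
        funext k
        by_cases hk : k = i
        · subst hk
          have h5 := hp.1.1 k
          have h6 := hq.1.1 k
          rw [if_neg hi, Finset.mem_singleton] at h5 h6
          rw [h5, h6]
        · have := congrFun hpq k
          simpa [Function.update_of_ne hk] using this
      rw [hx, ha]

/-- the number of injective `α` with `α i < b i` is at least `∏ (b i - d)` -/
theorem inj_count {ι : Type} [Fintype ι] [DecidableEq ι] (b : ι → ℕ) :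
    ∏ i, (b i - Fintype.card ι) ≤
      {α : ι → ℕ | Function.Injective α ∧ ∀ i, α i < b i}.ncard := by
  classical
  have h := CyL_step b (Fintype.card ι) Finset.univ (by rw [Finset.card_univ])
  refine h.trans (le_of_eq ?_)
  rw [← Set.ncard_coe_finset]
  congr 1
  ext α
  simp only [Finset.mem_univ, if_true, Finset.coe_filter, Fintype.mem_piFinset, Finset.mem_range,
    Finset.coe_univ, Set.mem_ofPred_eq, Set.injOn_univ]
  tauto

private theorem CyL_fin (c : V → ℕ) (a : ℕ → ℕ) : ∃ _ : Fintype (SBV c a),
    Fintype.card (SBV c a) ≤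
      {v | c v = 0}.ncard + ∑ v, (if c v = 0 then 0 else a (c v)) := by
  classical
  have hinj : Function.Injective (fun x : SBV c a =>
      (⟨x.1.1, ⟨x.1.2, by
        by_cases h : c x.1.1 = 0
        · rw [if_pos h, x.2.1 h]
          exact Nat.one_pos
        · rw [if_neg h]
          exact x.2.2 h⟩⟩ : Σ v : V, Fin (if c v = 0 then 1 else a (c v)))) := by
    intro x y hxy
    have h1 : x.1.1 = y.1.1 := congrArg Sigma.fst hxy
    have h2 : x.1.2 = y.1.2 := by
      have := congrArg (fun z : Σ v : V, Fin (if c v = 0 then 1 else a (c v)) => z.2.val) hxy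
      exact this
    exact Subtype.ext (Prod.ext h1 h2)
  have hf : Finite (SBV c a) := Finite.of_injective _ hinj
  let F : Fintype (SBV c a) := Fintype.ofFinite _
  refine ⟨F, (Fintype.card_le_of_injective _ hinj).trans (le_of_eq ?_)⟩
  rw [Fintype.card_sigma]
  simp only [Fintype.card_fin]
  have h3 : {v | c v = 0}.ncard = ∑ v, (if c v = 0 then 1 else 0) := by
    rw [Finset.sum_boole, ← Set.ncard_coe_finset]
    simp
  rw [h3, ← Finset.sum_add_distrib]
  refine Finset.sum_congr rfl fun v _ => ?_
  split_ifs <;> simp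

private theorem CyL_L (hV : Valid L G c) (a : ℕ → ℕ) : IsLCycleGraph L (sblow G c a) := by
  rw [isLCycle_iff]
  intro m f hm hf
  set M := ∑ v, a (c v) with hM
  have hb : ∀ x : SBV c a, x.1.2 < M + 1 := by
    intro x
    by_cases h : c x.1.1 = 0
    · rw [x.2.1 h]
      omega
    · have h1 := x.2.2 h
      have h2 : a (c x.1.1) ≤ M :=
        Finset.single_le_sum (f := fun v => a (c v)) (fun _ _ => Nat.zero_le _)
          (Finset.mem_univ x.1.1)
      omega
  have h := (isLCycle_iff.1 (hV.2 M)) m
    (fun i => (⟨((f i).1.1, ⟨(f i).1.2, hb _⟩), fun h => by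
      apply Fin.ext
      exact (f i).2.1 h⟩ : BV c M)) hm
  refine h ⟨?_, ?_⟩
  · intro i j hij
    apply hf.1
    have h1 := congrArg Subtype.val hij
    have h2 := congrArg Prod.fst h1
    have h3 := congrArg (fun z : V × Fin (M + 1) => z.2.val) h1
    exact Subtype.ext (Prod.ext h2 h3)
  · intro i
    have h1 := hf.2 i
    refine ⟨h1.1, fun h2 h3 => ?_⟩
    apply Fin.ext
    exact h1.2 h2 h3

private def CyL_lf {c : V → ℕ} {a : ℕ → ℕ} (x0 : SBV c a) (k : ℕ) (v : V) : SBV c a :=
  if h : c v = 0 then ⟨(v, 0), fun _ => rfl, fun h' => absurd h h'⟩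
  else if h2 : k < a (c v) then ⟨(v, k), fun h' => absurd h' h, fun _ => h2⟩ else x0

private theorem CyL_lf0 {a : ℕ → ℕ} (x0 : SBV c a) (k : ℕ) {v : V} (h : c v = 0) :
    (CyL_lf x0 k v).1 = (v, 0) := by
  unfold CyL_lf
  rw [dif_pos h]

private theorem CyL_lf1 {a : ℕ → ℕ} (x0 : SBV c a) {k : ℕ} {v : V} (h : c v ≠ 0)
    (h2 : k < a (c v)) : (CyL_lf x0 k v).1 = (v, k) := by
  unfold CyL_lf
  rw [dif_neg h, dif_pos h2]

private theorem CyL_adj {a : ℕ → ℕ} (x0 : SBV c a) {k : ℕ} {u v : V} (huv : G.Adj u v)
    (hu : c u ≠ 0 → k < a (c u)) (hv : c v ≠ 0 → k < a (c v)) :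
    (sblow G c a).Adj (CyL_lf x0 k u) (CyL_lf x0 k v) := by
  by_cases h1 : c u = 0
  · have e1 := CyL_lf0 x0 k h1
    by_cases h2 : c v = 0
    · have e2 := CyL_lf0 x0 k h2
      refine ⟨by rw [e1, e2]; exact huv, fun h3 _ => ?_⟩
      rw [e1] at h3
      exact absurd h1 h3
    · have e2 := CyL_lf1 x0 h2 (hv h2)
      refine ⟨by rw [e1, e2]; exact huv, fun h3 _ => ?_⟩
      rw [e1] at h3
      exact absurd h1 h3
  · have e1 := CyL_lf1 x0 h1 (hu h1)
    by_cases h2 : c v = 0
    · have e2 := CyL_lf0 x0 k h2
      refine ⟨by rw [e1, e2]; exact huv, fun _ h3 => ?_⟩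
      rw [e2] at h3
      exact absurd h2 h3
    · have e2 := CyL_lf1 x0 h2 (hv h2)
      refine ⟨by rw [e1, e2]; exact huv, fun _ _ => ?_⟩
      rw [e1, e2]

private theorem CyL_lp {a : ℕ → ℕ} (x0 : SBV c a) {k : ℕ} {x y : V} (hx : c x = 0)
    (hy : c y = 0) {s : List V} {j : ℕ} (hj : j ≠ 0) (hk : k < a j) (hs : s ∈ LP l G c x y j) :
    s.map (CyL_lf x0 k) ∈
      LP l (sblow G c a) (fun z => c z.1.1) (CyL_lf x0 0 x) (CyL_lf x0 0 y) j := by
  obtain ⟨⟨h1, h2, h3, h4⟩, h5, h6⟩ := hs
  have ex : CyL_lf x0 0 x = CyL_lf x0 k x :=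
    Subtype.ext (by rw [CyL_lf0 x0 0 hx, CyL_lf0 x0 k hx])
  have ey : CyL_lf x0 0 y = CyL_lf x0 k y :=
    Subtype.ext (by rw [CyL_lf0 x0 0 hy, CyL_lf0 x0 k hy])
  have hval : ∀ v ∈ s, (CyL_lf x0 k v).1 = (v, k) := by
    intro v hv
    have h7 := h6 v hv
    exact CyL_lf1 x0 (by rw [h7]; exact hj) (by rw [h7]; exact hk)
  have hgood : ∀ v ∈ x :: (s ++ [y]), c v ≠ 0 → k < a (c v) := by
    intro v hv hcv
    simp only [List.mem_cons, List.mem_append, List.not_mem_nil, or_false] at hv
    rcases hv with rfl | hv | rfl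
    · exact absurd hx hcv
    · rw [h6 v hv]
      exact hk
    · exact absurd hy hcv
  refine ⟨⟨?_, ?_, ?_, ?_⟩, ?_, ?_⟩
  · have e : CyL_lf x0 0 x :: (s.map (CyL_lf x0 k) ++ [CyL_lf x0 0 y]) =
        (x :: (s ++ [y])).map (CyL_lf x0 k) := by
      rw [ex, ey]
      simp
    rw [e, List.isChain_iff_getElem]
    rw [List.isChain_iff_getElem] at h1
    intro i hi
    rw [List.length_map] at hi
    rw [List.getElem_map, List.getElem_map]
    exact CyL_adj x0 (h1 i hi) (hgood _ (List.getElem_mem _)) (hgood _ (List.getElem_mem _))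
  · refine List.Nodup.map_on ?_ h2
    intro u hu v hv huv
    have h7 := congrArg Subtype.val huv
    rw [hval u hu, hval v hv] at h7
    exact congrArg Prod.fst h7
  · intro hmem
    obtain ⟨v, hv, he⟩ := List.mem_map.1 hmem
    have h7 := congrArg Subtype.val he
    rw [hval v hv, CyL_lf0 x0 0 hx] at h7
    have h8 : v = x := congrArg Prod.fst h7
    subst h8
    exact h3 hv
  · intro hmem
    obtain ⟨v, hv, he⟩ := List.mem_map.1 hmem
    have h7 := congrArg Subtype.val he
    rw [hval v hv, CyL_lf0 x0 0 hy] at h7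
    have h8 : v = y := congrArg Prod.fst h7
    subst h8
    exact h4 hv
  · rw [List.length_map]
    exact h5
  · intro z hz
    obtain ⟨v, hv, rfl⟩ := List.mem_map.1 hz
    show c (CyL_lf x0 k v).1.1 = j
    rw [hval v hv]
    exact h6 v hv

private theorem CyL_lpfin (l : ℕ) (G : SimpleGraph V) (c : V → ℕ) (x y : V) (j : ℕ) :
    (LP l G c x y j).Finite := by
  refine (List.finite_length_eq V (l - 1)).subset ?_
  rintro s ⟨_, h, _⟩
  show s.length = l - 1
  omega

theorem cyL (hV : Valid L G c) (hl : 2 ≤ l) (hd : 2 ≤ d) [NeZero d] (a : ℕ → ℕ) {n : ℕ}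
    (hn : {v | c v = 0}.ncard + ∑ v, (if c v = 0 then 0 else a (c v)) ≤ n) :
    wz l d G c (fun i => if i = 0 then 0 else ((a i - d : ℕ) : ℝ)) ≤
      (2 * d : ℝ) * (cMax L n : ℝ) := by
  classical
  obtain ⟨FT, hcard⟩ := CyL_fin c a
  have hcyc : (cycles (sblow G c a)).ncard ≤ cMax L n :=
    ncard_le_cMax (hcard.trans hn) (CyL_L hV a)
  set TT := TS l (sblow G c a) (fun z => c z.1.1) d with hTT
  have hTfin : TT.Finite := ts_finite l (sblow G c a) (fun z => c z.1.1)
  have hT : TT.ncard ≤ 2 * d * cMax L n := by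
    rw [hTT, ts_card hl hd]
    refine Nat.mul_le_mul_left _ (le_trans (Set.ncard_le_ncard ?_ (Set.toFinite _)) hcyc)
    rintro _ ⟨p, hp, rfl⟩
    rw [mem_cycles_iff]
    refine ⟨d * l, cyg l p.1 p.2, ?_, ts_isCyc hl hd hp, rfl⟩
    calc 3 ≤ 2 * 2 := by norm_num
      _ ≤ d * l := Nat.mul_le_mul hd hl
  have hmain : wz l d G c (fun i => if i = 0 then 0 else ((a i - d : ℕ) : ℝ)) ≤
      (TT.ncard : ℝ) := by
    set PF : (ZMod d → V) → (ZMod d → ℕ) → Finset (ZMod d → List V) := fun F J =>
      Fintype.piFinset fun i => (CyL_lpfin l G c (F i) (F (i + 1)) (J i)).toFinset with hPF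
    have hAfin : ∀ J : ZMod d → ℕ,
        {α : ZMod d → ℕ | Function.Injective α ∧ ∀ i, α i < a (J i)}.Finite := by
      intro J
      refine (Finset.finite_toSet (Fintype.piFinset fun i => Finset.range (a (J i)))).subset ?_
      rintro α ⟨_, h⟩
      simp only [Finset.mem_coe, Fintype.mem_piFinset, Finset.mem_range]
      exact h
    set AF : (ZMod d → ℕ) → Finset (ZMod d → ℕ) := fun J => (hAfin J).toFinset with hAF
    set JF : Finset (ZMod d → ℕ) :=
      (Fintype.piFinset fun _ : ZMod d => Finset.univ.image c).filter fun J => ∀ i, J i ≠ 0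
      with hJF
    have h1 : ∀ F : ZMod d → V, ∏ i, aw l G c
        (fun i => if i = 0 then 0 else ((a i - d : ℕ) : ℝ)) (F i) (F (i + 1)) ≤
        ((∑ J ∈ JF, (PF F J ×ˢ AF J).card : ℕ) : ℝ) := by
      intro F
      unfold aw
      rw [Finset.prod_univ_sum, hJF, Finset.sum_filter]
      push_cast
      refine Finset.sum_le_sum fun J _ => ?_
      by_cases hJ : ∀ i, J i ≠ 0
      · rw [if_pos hJ, Finset.prod_mul_distrib, Finset.card_product, Nat.cast_mul, mul_comm]
        have e1 : ∏ i, (if J i = 0 then 0 else ((a (J i) - d : ℕ) : ℝ)) ≤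
            ((AF J).card : ℝ) := by
          have h2 := inj_count (fun i : ZMod d => a (J i))
          rw [ZMod.card d] at h2
          rw [hAF, ← Set.ncard_eq_toFinset_card _ (hAfin J)]
          refine le_trans (le_of_eq ?_) (Nat.cast_le.2 h2)
          push_cast
          refine Finset.prod_congr rfl fun i _ => ?_
          rw [if_neg (hJ i)]
        have e2 : ∏ i, ((LP l G c (F i) (F (i + 1)) (J i)).ncard : ℝ) =
            ((PF F J).card : ℝ) := by
          rw [hPF, Fintype.card_piFinset]
          push_cast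
          refine Finset.prod_congr rfl fun i _ => ?_
          rw [← Set.ncard_eq_toFinset_card _ (CyL_lpfin l G c (F i) (F (i + 1)) (J i))]
        rw [e2]
        exact mul_le_mul_of_nonneg_left e1 (Nat.cast_nonneg _)
      · rw [if_neg hJ]
        push Not at hJ
        obtain ⟨i, hi⟩ := hJ
        refine le_of_eq (Finset.prod_eq_zero (Finset.mem_univ i) ?_)
        rw [if_pos hi, zero_mul]
    have h2 : wz l d G c (fun i => if i = 0 then 0 else ((a i - d : ℕ) : ℝ)) ≤
        ((∑ F : {F : ZMod d → V // F ∈ HC c d}, ∑ J ∈ JF, (PF F.1 J ×ˢ AF J).card : ℕ) : ℝ) := by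
      unfold wz
      rw [Nat.cast_sum]
      exact Finset.sum_le_sum fun F _ => h1 F.1
    refine h2.trans (Nat.cast_le.2 ?_)
    have h3 : (∑ F : {F : ZMod d → V // F ∈ HC c d}, ∑ J ∈ JF, (PF F.1 J ×ˢ AF J).card) =
        ((Finset.univ : Finset {F : ZMod d → V // F ∈ HC c d}).sigma fun F =>
          JF.sigma fun J => PF F.1 J ×ˢ AF J).card := by
      rw [Finset.card_sigma]
      refine Finset.sum_congr rfl fun F _ => ?_
      rw [Finset.card_sigma]
    rw [h3, Set.ncard_eq_toFinset_card TT hTfin]
    by_cases hne : ∃ F : ZMod d → V, F ∈ HC c d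
    · obtain ⟨F0, hF0⟩ := hne
      let x0 : SBV c a := ⟨(F0 0, 0), fun _ => rfl, fun h' => absurd (hF0.2 0) h'⟩
      refine Finset.card_le_card_of_injOn
        (fun p : (_ : {F : ZMod d → V // F ∈ HC c d}) ×
            (_ : ZMod d → ℕ) × ((ZMod d → List V) × (ZMod d → ℕ)) =>
          ((fun i => CyL_lf x0 0 (p.1.1 i) : ZMod d → SBV c a),
            (fun i => (p.2.2.1 i).map (CyL_lf x0 (p.2.2.2 i)) : ZMod d → List (SBV c a))))
        ?_ ?_
      · rintro ⟨F, J, s, α⟩ hp
        simp only [Finset.coe_sigma, Set.mem_sigma_iff, Finset.mem_coe, Finset.mem_univ,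
          true_and, hJF, hPF, hAF, Finset.mem_filter, Finset.mem_product, Fintype.mem_piFinset,
          Set.Finite.mem_toFinset, Set.mem_ofPred_eq] at hp
        obtain ⟨⟨_, hJ0⟩, hs, hα, hαb⟩ := hp
        rw [Finset.mem_coe, Set.Finite.mem_toFinset, hTT]
        have hFc : ∀ i, c (F.1 i) = 0 := F.2.2
        refine ⟨⟨?_, ?_⟩, ?_, ?_⟩
        · intro i k hik
          apply F.2.1
          have h5 := congrArg Subtype.val hik
          rw [CyL_lf0 x0 0 (hFc i), CyL_lf0 x0 0 (hFc k)] at h5
          exact congrArg Prod.fst h5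
        · intro i
          show c (CyL_lf x0 0 (F.1 i)).1.1 = 0
          rw [CyL_lf0 x0 0 (hFc i)]
          exact hFc i
        · intro i
          exact ⟨J i, hJ0 i, CyL_lp x0 (hFc i) (hFc (i + 1)) (hJ0 i) (hαb i) (hs i)⟩
        · intro i k hik z hz hz'
          obtain ⟨v, hv, rfl⟩ := List.mem_map.1 hz
          obtain ⟨v', hv', he⟩ := List.mem_map.1 hz'
          have h5 := (hs i).2.2 v hv
          have h6 := (hs k).2.2 v' hv'
          have h7 := congrArg Subtype.val he
          have h8 : (CyL_lf x0 (α i) v).1 = (v, α i) :=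
            CyL_lf1 x0 (by rw [h5]; exact hJ0 i) (by rw [h5]; exact hαb i)
          have h9 : (CyL_lf x0 (α k) v').1 = (v', α k) :=
            CyL_lf1 x0 (by rw [h6]; exact hJ0 k) (by rw [h6]; exact hαb k)
          change (CyL_lf x0 (α k) v').1 = (CyL_lf x0 (α i) v).1 at h7
          rw [h8, h9] at h7
          exact hik (hα (congrArg Prod.snd h7).symm)
      · rintro ⟨F, J, s, α⟩ hp ⟨F', J', s', α'⟩ hq hpq
        simp only [Finset.coe_sigma, Set.mem_sigma_iff, Finset.mem_coe, Finset.mem_univ,
          true_and, hJF, hPF, hAF, Finset.mem_filter, Finset.mem_product, Fintype.mem_piFinset,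
          Set.Finite.mem_toFinset, Set.mem_ofPred_eq] at hp hq
        obtain ⟨⟨_, hJ0⟩, hs, hα, hαb⟩ := hp
        obtain ⟨⟨_, hJ0'⟩, hs', hα', hαb'⟩ := hq
        have e1 := congrArg Prod.fst hpq
        have e2 := congrArg Prod.snd hpq
        simp only at e1 e2
        have hF : F = F' := by
          apply Subtype.ext
          funext i
          have h5 := congrArg Subtype.val (congrFun e1 i)
          rw [CyL_lf0 x0 0 (F.2.2 i), CyL_lf0 x0 0 (F'.2.2 i)] at h5
          exact congrArg Prod.fst h5
        have hv1 : ∀ i, ∀ v ∈ s i, (CyL_lf x0 (α i) v).1 = (v, α i) := by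
          intro i v hv
          have h5 := (hs i).2.2 v hv
          exact CyL_lf1 x0 (by rw [h5]; exact hJ0 i) (by rw [h5]; exact hαb i)
        have hv2 : ∀ i, ∀ v ∈ s' i, (CyL_lf x0 (α' i) v).1 = (v, α' i) := by
          intro i v hv
          have h5 := (hs' i).2.2 v hv
          exact CyL_lf1 x0 (by rw [h5]; exact hJ0' i) (by rw [h5]; exact hαb' i)
        have hss : s = s' := by
          funext i
          have h5 := congrArg (List.map fun z : SBV c a => z.1.1) (congrFun e2 i)
          rw [List.map_map, List.map_map] at h5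
          have h6 : (s i).map ((fun z : SBV c a => z.1.1) ∘ CyL_lf x0 (α i)) = s i := by
            conv_rhs => rw [← List.map_id (s i)]
            refine List.map_congr_left fun v hv => ?_
            show (CyL_lf x0 (α i) v).1.1 = v
            rw [hv1 i v hv]
          have h7 : (s' i).map ((fun z : SBV c a => z.1.1) ∘ CyL_lf x0 (α' i)) = s' i := by
            conv_rhs => rw [← List.map_id (s' i)]
            refine List.map_congr_left fun v hv => ?_
            show (CyL_lf x0 (α' i) v).1.1 = v
            rw [hv2 i v hv]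
          rw [h6, h7] at h5
          exact h5
        subst hss
        have hnon : ∀ i, ∃ v, v ∈ s i := by
          intro i
          have h5 := (hs i).2.1
          have h6 : 0 < (s i).length := by omega
          exact ⟨(s i)[0], List.getElem_mem _⟩
        have haa : α = α' := by
          funext i
          obtain ⟨v, hv⟩ := hnon i
          have h5 : CyL_lf x0 (α i) v ∈ (s i).map (CyL_lf x0 (α' i)) := by
            rw [← congrFun e2 i]
            exact List.mem_map_of_mem hv
          obtain ⟨v', hv', he⟩ := List.mem_map.1 h5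
          have h7 := congrArg Subtype.val he
          rw [hv2 i v' hv', hv1 i v hv] at h7
          exact (congrArg Prod.snd h7).symm
        have hJJ : J = J' := by
          funext i
          obtain ⟨v, hv⟩ := hnon i
          rw [← (hs i).2.2 v hv, ← (hs' i).2.2 v hv]
        subst hF haa hJJ
        rfl
    · refine le_trans (le_of_eq ?_) (Nat.zero_le _)
      rw [Finset.card_eq_zero, Finset.eq_empty_iff_forall_notMem]
      rintro ⟨F, _⟩ _
      exact hne ⟨F.1, F.2⟩
  calc wz l d G c (fun i => if i = 0 then 0 else ((a i - d : ℕ) : ℝ)) ≤ (TT.ncard : ℝ) := hmain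
    _ ≤ ((2 * d * cMax L n : ℕ) : ℝ) := Nat.cast_le.2 hT
    _ = (2 * d : ℝ) * (cMax L n : ℝ) := by push_cast; ring

end H46.CZ
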