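import Pool.Agent.H3.LC.Glue

/-!
# CZ.Dih : cyclic sequences with the same set of edges (about 100 lines)

Every vertex `f i` is on exactly the two edges `s(f i, f (i + 1))`, `s(f (i - 1), f i)` of `cedges f` (`f` injective). `g 0` is on an edge of `cedges g = cedges f`, so `g 0 = f a` for some `a`. `s(g 0, g 1) ∈ cedges f` gives `g 1 = f (a + 1)` or `g 1 = f (a - 1)` (different since `m ≥ 3`). Suppose `g 1 = f (a + 1)`. Induction on `n : ℕ`:
`g n = f (a + n)` and `g (n + 1) = f (a + n + 1)`: the edge `s(g (n + 1), g (n + 2)) ∈ cedges f` gives `g (n + 2) = f (a + n + 2)` or `g (n + 2) = f (a + n) = g n`, the second is impossible as `g` is injective and `2 ≠ 0` in `ZMod m`. Every `i : ZMod m` is a cast of `i.val`. The second case in the same way (or replace `f` by `fun i => f (-i)`).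
-/

namespace H46.CZ

open Pool.Agent.H3.LC

private theorem edge_nb {V : Type} {m : ℕ} {f : ZMod m → V} (hf : Function.Injective f)
    {a : ZMod m} {v : V} (h : s(f a, v) ∈ cedges f) : v = f (a + 1) ∨ v = f (a - 1) := by
  obtain ⟨i, hi⟩ := h
  rw [Sym2.eq_iff] at hi
  rcases hi with ⟨h1, h2⟩ | ⟨h1, h2⟩
  · left
    rw [hf h1, h2]
  · right
    have h3 : a = i + 1 := hf h1
    rw [h2, h3, add_sub_cancel_right]

private theorem core {V : Type} {m : ℕ} (hm : 3 ≤ m) {f g : ZMod m → V}
    (hf : Function.Injective f) (hg : Function.Injective g)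
    (h : ∀ i, s(g i, g (i + 1)) ∈ cedges f) {a : ZMod m} (h0 : g 0 = f a)
    (h1 : g 1 = f (a + 1)) : ∀ i, g i = f (a + i) := by
  have : NeZero m := ⟨by omega⟩
  have key : ∀ n : ℕ, g (n : ZMod m) = f (a + n) ∧ g ((n : ZMod m) + 1) = f (a + n + 1) := by
    intro n
    induction n with
    | zero => simp [h0, h1]
    | succ n ih =>
      obtain ⟨ih1, ih2⟩ := ih
      push_cast
      refine ⟨by rw [ih2, add_assoc], ?_⟩
      have h3 := h ((n : ZMod m) + 1)
      rw [ih2] at h3
      rcases edge_nb hf h3 with h4 | h4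
      · rw [h4, ← add_assoc]
      · exfalso
        rw [add_sub_cancel_right, ← ih1] at h4
        have h5 := hg h4
        have h6 : (2 : ZMod m) = 0 := by
          have : (n : ZMod m) + 1 + 1 - n = 0 := by rw [h5, sub_self]
          rw [← this]
          ring
        have h7 : ((2 : ℕ) : ZMod m) = 0 := by exact_mod_cast h6
        rw [ZMod.natCast_eq_zero_iff] at h7
        have := Nat.le_of_dvd (by norm_num) h7
        omega
  intro i
  have := (key i.val).1
  rwa [ZMod.natCast_zmod_val] at this

theorem dihedral {V : Type} {G : SimpleGraph V} {m : ℕ} (hm : 3 ≤ m) {f g : ZMod m → V}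
    (hf : IsCyc G f) (hg : IsCyc G g) (h : cedges f = cedges g) :
    ∃ a : ZMod m, (∀ i, g i = f (a + i)) ∨ (∀ i, g i = f (a - i)) := by
  have he : ∀ i, s(g i, g (i + 1)) ∈ cedges f := by
    intro i
    rw [h]
    exact ⟨i, rfl⟩
  have h0 : ∃ a, g 0 = f a := by
    obtain ⟨i, hi⟩ := he 0
    rw [Sym2.eq_iff] at hi
    rcases hi with ⟨h1, -⟩ | ⟨h1, -⟩
    · exact ⟨_, h1⟩
    · exact ⟨_, h1⟩
  obtain ⟨a, ha⟩ := h0
  have h1 := he 0
  rw [ha, zero_add] at h1
  refine ⟨a, ?_⟩
  rcases edge_nb hf.1 h1 with h2 | h2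
  · left
    exact core hm hf.1 hg.1 he ha h2
  · right
    have hf' : Function.Injective (fun i => f (-i)) := fun x y hxy => neg_injective (hf.1 hxy)
    have hce : cedges (fun i => f (-i)) = cedges f := by
      ext e
      constructor
      · rintro ⟨i, hi⟩
        refine ⟨-(i + 1), ?_⟩
        rw [hi, Sym2.eq_swap]
        have h5 : -(i + 1) + 1 = -i := by ring
        rw [h5]
      · rintro ⟨i, hi⟩
        refine ⟨-(i + 1), ?_⟩
        rw [hi, Sym2.eq_swap]
        simp only [neg_neg]
        congr 3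
        ring
    have h3 := core (f := fun i => f (-i)) (g := g) (a := -a) hm hf' hg.1
      (by rw [hce]; exact he) (by simpa using ha)
      (by
        have : (- ((-a) + 1) : ZMod m) = a - 1 := by ring
        simpa [this] using h2)
    intro i
    rw [h3 i]
    congr 1
    ring

end H46.CZ
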