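import Pool.Agent.H46.CZ.Cyg
import Pool.Agent.H46.CZ.Dih
import Pool.Agent.H46.CZ.Sym

/-!
# CZ.Fib : every cycle comes from exactly 2 d closed chains with paths (about 220 lines)

For `p ∈ TS l G c d` the sequence `cyg l p.1 p.2` is a cyclic sequence of `G` (`cyg_isCyc`; `F i ∉ s k` since `c (F i) = 0`). Fix `p ∈ TS` and let `q ∈ TS` with the same edges. `dihedral` (`m = d l ≥ 4`): `cyg q x = cyg p (a + x)` or `cyg p (a - x)`. The value `cyg q 0 = q.1 0` has colour `0`, so `l ∣ a.val` (at the positions not divisible by `l`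
the colour is `≠ 0`), `a.val = r l`, `r < d`. So `cyg q` is determined by `r` and the direction, and `q` by `cyg q` (`cyg_inj`): at most `2 d` such `q` (`fib_le`).
`fib_ge`: for `r : ZMod d` the pairs `(fun i => F (i + r), fun i => s (i + r))` and `(fun i => F (r - i), fun i => (s (r - i - 1)).reverse)` are in `TS` and have the same edges (`cyg` of them is `x ↦ cyg p (x + r l)`, `x ↦ cyg p (r l - x)`; the edge set `cedges` is invariant; for the second one position `q l + t` is the position `(r - q) l - t`).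
They are `2 d` different pairs: the first kind by `F r = F' 0` (`F` injective), the second kind in the same way, and a pair of the first kind with `r` is different from the one of the second kind with the same `r` because the first members `s r` and `(s (r - 1)).reverse` of the lists are disjoint and not empty (`r ≠ r - 1` as `d ≥ 2`).
`ts_card`: the fibres of `p ↦ cedges (cyg l p.1 p.2)` on the finite set `TS` have exactly `2 d` members (`ts_finite`: `F` in a finite type, `s` a function to lists of length `l - 1`): `Set.ncard` through `Finset.card_eq_sum_card_image` or `Finset.card_nsmul_le_card...`.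
-/

namespace H46.CZ

open Pool.Agent.H3.LC H46.CY

variable {V : Type} {G : SimpleGraph V} {c : V → ℕ} {l d : ℕ}

theorem ts_isCyc (hl : 2 ≤ l) (hd : 2 ≤ d) {p : (ZMod d → V) × (ZMod d → List V)}
    (hp : p ∈ TS l G c d) : IsCyc G (cyg l p.1 p.2) := by
  obtain ⟨⟨h1, h2⟩, h3, h4⟩ := hp
  refine cyg_isCyc hl hd h1 (fun i => ?_) h4 (fun i k hik => ?_)
  · obtain ⟨j, hj, h5, h6, h7⟩ := h3 i
    exact ⟨h5, h6⟩
  · obtain ⟨j, hj, h5, h6, h7⟩ := h3 k
    have h8 := h7 _ hik
    rw [h2 i] at h8
    exact hj h8.symm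

private theorem ts_len {p : (ZMod d → V) × (ZMod d → List V)} (hp : p ∈ TS l G c d)
    (i : ZMod d) : (p.2 i).length + 1 = l := by
  obtain ⟨j, hj, h5, h6, h7⟩ := hp.2.1 i
  exact h6

private theorem ts_ne {p : (ZMod d → V) × (ZMod d → List V)} (hp : p ∈ TS l G c d)
    {i : ZMod d} {v : V} (hv : v ∈ p.2 i) : c v ≠ 0 := by
  obtain ⟨j, hj, h5, h6, h7⟩ := hp.2.1 i
  rw [h7 v hv]
  exact hj

theorem ts_finite [Finite V] (l : ℕ) (G : SimpleGraph V) (c : V → ℕ) [NeZero d] :
    (TS l G c d).Finite := by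
  have h1 : (Set.univ.pi fun _ : ZMod d => {t : List V | t.length = l - 1}).Finite :=
    Set.Finite.pi fun _ => List.finite_length_eq V (l - 1)
  have h2 : ((Set.univ : Set (ZMod d → V)) ×ˢ
      (Set.univ.pi fun _ : ZMod d => {t : List V | t.length = l - 1})).Finite :=
    Set.Finite.prod (Set.toFinite _) h1
  refine h2.subset fun p hp => ?_
  refine ⟨Set.mem_univ _, fun i _ => ?_⟩
  have := ts_len hp i
  change (p.2 i).length = l - 1
  omega

/-- the position of the hub number `q` -/
private def hp (l : ℕ) {d : ℕ} (q : ZMod d) : ZMod (d * l) := ((q.val * l : ℕ) : ZMod (d * l))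

private theorem hp_nat (n : ℕ) : hp l ((n : ℕ) : ZMod d) = ((n * l : ℕ) : ZMod (d * l)) := by
  unfold hp
  rw [ZMod.val_natCast]
  have h : n * l = (n % d) * l + (n / d) * (d * l) := by
    conv_lhs => rw [← Nat.mod_add_div n d]
    ring
  rw [h, Nat.cast_add, Nat.cast_mul (n / d), ZMod.natCast_self, mul_zero, add_zero]

private theorem hp_add [NeZero d] (q r : ZMod d) : hp l (q + r) = hp l q + hp l r := by
  have h : q + r = ((q.val + r.val : ℕ) : ZMod d) := by
    rw [Nat.cast_add, ZMod.natCast_zmod_val, ZMod.natCast_zmod_val]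
  rw [h, hp_nat, Nat.add_mul, Nat.cast_add]
  rfl

private theorem hp_sub [NeZero d] (q r : ZMod d) : hp l (q - r) = hp l q - hp l r := by
  have h := hp_add (l := l) (q - r) r
  rw [sub_add_cancel] at h
  rw [h, add_sub_cancel_right]

private theorem hp_one [NeZero d] : hp l (1 : ZMod d) = ((l : ℕ) : ZMod (d * l)) := by
  have h := hp_nat (l := l) (d := d) 1
  rw [Nat.cast_one, Nat.one_mul] at h
  exact h

private theorem c_hub [NeZero d] (hl : 1 ≤ l) (F : ZMod d → V) (s : ZMod d → List V)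
    (q : ZMod d) : cyg l F s (hp l q) = F q := cyg_hub hl F s q

private theorem c_in [NeZero d] (F : ZMod d → V) (s : ZMod d → List V) (q : ZMod d) {t : ℕ}
    (ht : t + 1 < l) (hs : (s q).length + 1 = l) :
    cyg l F s (hp l q + ((t + 1 : ℕ) : ZMod (d * l))) = (s q)[t]'(by omega) := by
  have h := cyg_in F s q ht hs
  rwa [Nat.cast_add] at h

private theorem pos_rep [NeZero d] (hl : 1 ≤ l) (x : ZMod (d * l)) :
    ∃ q : ZMod d, x = hp l q ∨ ∃ t, t + 1 < l ∧ x = hp l q + ((t + 1 : ℕ) : ZMod (d * l)) := by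
  have : NeZero (d * l) := ⟨Nat.mul_ne_zero (NeZero.ne d) (by omega)⟩
  have hx := ZMod.val_lt x
  have h1 : x.val / l < d := Nat.div_lt_of_lt_mul (hx.trans_eq (Nat.mul_comm d l))
  have h2 : x = ((x.val / l * l : ℕ) : ZMod (d * l)) + ((x.val % l : ℕ) : ZMod (d * l)) := by
    rw [← Nat.cast_add, Nat.div_add_mod', ZMod.natCast_zmod_val]
  refine ⟨((x.val / l : ℕ) : ZMod d), ?_⟩
  rw [hp_nat]
  have h3 : x.val % l < l := Nat.mod_lt _ (by omega)
  rcases Nat.eq_zero_or_pos (x.val % l) with h | h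
  · left
    rw [h, Nat.cast_zero, add_zero] at h2
    exact h2
  · right
    refine ⟨x.val % l - 1, by omega, ?_⟩
    rw [Nat.sub_add_cancel h]
    exact h2

theorem fib_le (hl : 2 ≤ l) (hd : 2 ≤ d) {p : (ZMod d → V) × (ZMod d → List V)}
    (hp : p ∈ TS l G c d) :
    {q | q ∈ TS l G c d ∧ cedges (cyg l q.1 q.2) = cedges (cyg l p.1 p.2)}.encard ≤
      (2 * d : ℕ) := by
  classical
  have : NeZero d := ⟨by omega⟩
  have hm : 3 ≤ d * l := by nlinarith
  set Φ : (ZMod d → V) × (ZMod d → List V) → (ZMod (d * l) → V) := fun q => cyg l q.1 q.2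
    with hΦ
  set S := {q | q ∈ TS l G c d ∧ cedges (cyg l q.1 q.2) = cedges (cyg l p.1 p.2)} with hS
  have hinj : Set.InjOn Φ S := by
    intro q hq q' hq' h
    have h1 := cyg_inj hl hd (fun i => ts_len hq.1 i) (fun i => ts_len hq'.1 i) h
    exact Prod.ext h1.1 h1.2
  let act : ZMod d × Bool → (ZMod (d * l) → V) := fun rb =>
    if rb.2 then fun x => cyg l p.1 p.2 (CZ.hp l rb.1 + x)
    else fun x => cyg l p.1 p.2 (CZ.hp l rb.1 - x)
  have hsub : Φ '' S ⊆ ((Finset.univ.image act : Finset (ZMod (d * l) → V)) : Set _) := by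
    rintro g ⟨q, hq, rfl⟩
    obtain ⟨a, ha⟩ := dihedral hm (ts_isCyc hl hd hp) (ts_isCyc hl hd hq.1) hq.2.symm
    have h0 : c (cyg l p.1 p.2 a) = 0 := by
      have h1 : cyg l q.1 q.2 0 = cyg l p.1 p.2 a := by
        rcases ha with ha | ha
        · rw [ha 0, add_zero]
        · rw [ha 0, sub_zero]
      have h2 : (0 : ZMod (d * l)) = CZ.hp l (0 : ZMod d) := by
        have h3 := hp_nat (l := l) (d := d) 0
        rw [Nat.cast_zero, Nat.zero_mul, Nat.cast_zero] at h3
        exact h3.symm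
      rw [← h1, h2, c_hub (by omega)]
      exact hq.1.1.2 0
    obtain ⟨r, hr | ⟨t, ht, hr⟩⟩ := pos_rep (by omega : 1 ≤ l) a
    · rw [Finset.coe_image, Finset.coe_univ, Set.image_univ]
      rcases ha with ha | ha
      · refine ⟨(r, true), ?_⟩
        funext x
        simp only [act, if_true, hΦ]
        rw [← hr, ha x]
      · refine ⟨(r, false), ?_⟩
        funext x
        simp only [act, Bool.false_eq_true, if_false, hΦ]
        rw [← hr, ha x]
    · exfalso
      rw [hr, c_in p.1 p.2 r ht (ts_len hp r)] at h0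
      exact ts_ne hp (List.getElem_mem _) h0
  rw [← hinj.encard_image]
  refine (Set.encard_le_encard hsub).trans ?_
  rw [Set.encard_coe_eq_coe_finsetCard]
  have h1 : (Finset.univ.image act).card ≤ 2 * d := by
    refine Finset.card_image_le.trans ?_
    rw [Finset.card_univ, Fintype.card_prod, ZMod.card, Fintype.card_bool, mul_comm]
  exact_mod_cast h1

private def acF (r : ZMod d) (p : (ZMod d → V) × (ZMod d → List V)) :
    (ZMod d → V) × (ZMod d → List V) := (fun i => p.1 (i + r), fun i => p.2 (i + r))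

private def acT (r : ZMod d) (p : (ZMod d → V) × (ZMod d → List V)) :
    (ZMod d → V) × (ZMod d → List V) :=
  (fun i => p.1 (r - i), fun i => (p.2 (r - i - 1)).reverse)

private theorem acF_mem (r : ZMod d) {p : (ZMod d → V) × (ZMod d → List V)}
    (hp : p ∈ TS l G c d) : acF r p ∈ TS l G c d := by
  obtain ⟨⟨h1, h2⟩, h3, h4⟩ := hp
  refine ⟨⟨fun i k hik => add_right_cancel (h1 hik), fun i => h2 _⟩, fun i => ?_,
    fun i k hik => h4 _ _ fun h => hik (add_right_cancel h)⟩
  obtain ⟨j, hj, h5⟩ := h3 (i + r)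
  refine ⟨j, hj, ?_⟩
  have e : i + r + 1 = i + 1 + r := by ring
  rw [e] at h5
  exact h5

private theorem acT_mem (r : ZMod d) {p : (ZMod d → V) × (ZMod d → List V)}
    (hp : p ∈ TS l G c d) : acT r p ∈ TS l G c d := by
  obtain ⟨⟨h1, h2⟩, h3, h4⟩ := hp
  refine ⟨⟨fun i k hik => sub_right_injective (h1 hik), fun i => h2 _⟩, fun i => ?_,
    fun i k hik v hv hv' => ?_⟩
  · obtain ⟨j, hj, h5⟩ := h3 (r - i - 1)
    refine ⟨j, hj, ?_⟩
    have h6 := lp_rev h5
    have e : r - i - 1 + 1 = r - i := by ring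
    have e2 : r - i - 1 = r - (i + 1) := by ring
    rw [e] at h6
    change (p.2 (r - i - 1)).reverse ∈ LP l G c (p.1 (r - i)) (p.1 (r - (i + 1))) j
    rw [← e2]
    exact h6
  · have hv1 : v ∈ p.2 (r - i - 1) := List.mem_reverse.1 hv
    have hv2 : v ∈ p.2 (r - k - 1) := List.mem_reverse.1 hv'
    refine h4 _ _ (fun h => hik ?_) v hv1 hv2
    have h5 : r - i = r - k := sub_left_injective h
    exact sub_right_injective h5

private theorem acF_cyg [NeZero d] (hl : 2 ≤ l) (r : ZMod d)
    {p : (ZMod d → V) × (ZMod d → List V)} (hp : p ∈ TS l G c d) (x : ZMod (d * l)) :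
    cyg l (acF r p).1 (acF r p).2 x = cyg l p.1 p.2 (x + CZ.hp l r) := by
  obtain ⟨q, hq | ⟨t, ht, hq⟩⟩ := pos_rep (by omega : 1 ≤ l) x
  · rw [hq, c_hub (by omega), ← hp_add, c_hub (by omega)]
    rfl
  · have e : CZ.hp l q + ((t + 1 : ℕ) : ZMod (d * l)) + CZ.hp l r =
        CZ.hp l (q + r) + ((t + 1 : ℕ) : ZMod (d * l)) := by
      rw [hp_add]
      ring
    rw [hq, e, c_in _ _ q ht (ts_len (acF_mem r hp) q), c_in _ _ (q + r) ht (ts_len hp _)]
    rfl

private theorem acT_cyg [NeZero d] (hl : 2 ≤ l) (r : ZMod d)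
    {p : (ZMod d → V) × (ZMod d → List V)} (hp : p ∈ TS l G c d) (x : ZMod (d * l)) :
    cyg l (acT r p).1 (acT r p).2 x = cyg l p.1 p.2 (CZ.hp l r - x) := by
  obtain ⟨q, hq | ⟨t, ht, hq⟩⟩ := pos_rep (by omega : 1 ≤ l) x
  · rw [hq, c_hub (by omega), ← hp_sub, c_hub (by omega)]
    rfl
  · have hlen := ts_len hp (r - q - 1)
    have e : CZ.hp l r - (CZ.hp l q + ((t + 1 : ℕ) : ZMod (d * l))) =
        CZ.hp l (r - q - 1) + (((l - 2 - t) + 1 : ℕ) : ZMod (d * l)) := by
      have h1 : ((l : ℕ) : ZMod (d * l)) =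
          (((l - 2 - t) + 1 : ℕ) : ZMod (d * l)) + ((t + 1 : ℕ) : ZMod (d * l)) := by
        rw [← Nat.cast_add]
        congr 1
        omega
      rw [hp_sub, hp_sub, hp_one, h1]
      ring
    rw [hq, e, c_in _ _ q ht (ts_len (acT_mem r hp) q), c_in _ _ (r - q - 1) (by omega) hlen]
    have key : ∀ (L : List V) (h1 : L.length = l - 1) (h : t < L.reverse.length),
        L.reverse[t]'h = L[l - 2 - t]'(by omega) := by
      intro L h1 h
      rw [List.getElem_reverse]
      congr 1
      omega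
    exact key _ (by omega) _

private theorem cedges_add {m : ℕ} {f g : ZMod m → V} {a : ZMod m} (h : ∀ x, g x = f (x + a)) :
    cedges g = cedges f := by
  ext e
  constructor
  · rintro ⟨i, rfl⟩
    refine ⟨i + a, ?_⟩
    rw [h, h]
    have : i + 1 + a = i + a + 1 := by ring
    rw [this]
  · rintro ⟨i, rfl⟩
    refine ⟨i - a, ?_⟩
    rw [h, h]
    have h1 : i - a + a = i := by ring
    have h2 : i - a + 1 + a = i + 1 := by ring
    rw [h1, h2]

private theorem cedges_sub {m : ℕ} {f g : ZMod m → V} {a : ZMod m} (h : ∀ x, g x = f (a - x)) :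
    cedges g = cedges f := by
  ext e
  constructor
  · rintro ⟨i, rfl⟩
    refine ⟨a - i - 1, ?_⟩
    rw [h, h]
    have h1 : a - i - 1 + 1 = a - i := by ring
    have h2 : a - (i + 1) = a - i - 1 := by ring
    rw [h1, h2]
    exact Sym2.eq_swap
  · rintro ⟨i, rfl⟩
    refine ⟨a - i - 1, ?_⟩
    rw [h, h]
    have h1 : a - (a - i - 1) = i + 1 := by ring
    have h2 : a - (a - i - 1 + 1) = i := by ring
    rw [h1, h2]
    exact Sym2.eq_swap

private theorem ac_inj (hl : 2 ≤ l) (hd : 2 ≤ d) {p : (ZMod d → V) × (ZMod d → List V)}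
    (hp : p ∈ TS l G c d) :
    Function.Injective (fun t : ZMod d × Bool => if t.2 then acT t.1 p else acF t.1 p) := by
  have : Fact (1 < d) := ⟨by omega⟩
  have h1 := hp.1.1
  have key : ∀ r r' : ZMod d, acT r p ≠ acF r' p := by
    intro r r' h
    have ha := congrFun (congrArg Prod.fst h) 0
    have hb := congrFun (congrArg Prod.snd h) 0
    simp only [acT, acF, sub_zero, zero_add] at ha hb
    have ha' := h1 ha
    subst ha'
    have hlen := ts_len hp r
    have hne : p.2 r ≠ [] := by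
      intro h0
      rw [h0] at hlen
      simp at hlen
      omega
    obtain ⟨v, hv⟩ := List.exists_mem_of_ne_nil _ hne
    have hv2 : v ∈ p.2 (r - 1) := by
      rw [← hb] at hv
      exact List.mem_reverse.1 hv
    refine hp.2.2 r (r - 1) (fun h2 => ?_) v hv hv2
    have h3 : (1 : ZMod d) = 0 := by
      have h4 : r - (r - 1) = r - r := by rw [← h2]
      simp at h4
    exact one_ne_zero h3
  rintro ⟨r, b⟩ ⟨r', b'⟩ h
  cases b <;> cases b' <;> simp only [if_true, Bool.false_eq_true, if_false] at h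
  · have ha := congrFun (congrArg Prod.fst h) 0
    simp only [acF, zero_add] at ha
    rw [h1 ha]
  · exact absurd h.symm (key _ _)
  · exact absurd h (key _ _)
  · have ha := congrFun (congrArg Prod.fst h) 0
    simp only [acT, sub_zero] at ha
    rw [h1 ha]

theorem fib_ge (hl : 2 ≤ l) (hd : 2 ≤ d) {p : (ZMod d → V) × (ZMod d → List V)}
    (hp : p ∈ TS l G c d) :
    ((2 * d : ℕ) : ℕ∞) ≤
      {q | q ∈ TS l G c d ∧ cedges (cyg l q.1 q.2) = cedges (cyg l p.1 p.2)}.encard := by
  classical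
  have : NeZero d := ⟨by omega⟩
  have hi := ac_inj hl hd hp
  have hcard : (Finset.univ.image
      (fun t : ZMod d × Bool => if t.2 then acT t.1 p else acF t.1 p)).card = 2 * d := by
    rw [Finset.card_image_of_injective _ hi, Finset.card_univ, Fintype.card_prod, ZMod.card,
      Fintype.card_bool, mul_comm]
  rw [← hcard, ← Set.encard_coe_eq_coe_finsetCard]
  refine Set.encard_le_encard ?_
  intro x hx
  obtain ⟨⟨r, b⟩, -, rfl⟩ := Finset.mem_image.1 (Finset.mem_coe.1 hx)
  cases b
  · simp only [Bool.false_eq_true, if_false]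
    exact ⟨acF_mem r hp, cedges_add (acF_cyg hl r hp)⟩
  · simp only [if_true]
    exact ⟨acT_mem r hp, cedges_sub (acT_cyg hl r hp)⟩

theorem ts_card [Finite V] (hl : 2 ≤ l) (hd : 2 ≤ d) :
    (TS l G c d).ncard =
      2 * d * ((fun p : (ZMod d → V) × (ZMod d → List V) => cedges (cyg l p.1 p.2)) ''
        TS l G c d).ncard := by
  classical
  have : NeZero d := ⟨by omega⟩
  have hfin : (TS l G c d).Finite := ts_finite l G c
  obtain ⟨s, hs⟩ : ∃ s : Finset ((ZMod d → V) × (ZMod d → List V)),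
      (s : Set _) = TS l G c d := ⟨hfin.toFinset, hfin.coe_toFinset⟩
  have hmem : ∀ q, q ∈ s ↔ q ∈ TS l G c d := fun q => by rw [← hs, Finset.mem_coe]
  set f := fun p : (ZMod d → V) × (ZMod d → List V) => cedges (cyg l p.1 p.2) with hf
  rw [← hs, ← Finset.coe_image, Set.ncard_coe_finset, Set.ncard_coe_finset]
  rw [Finset.card_eq_sum_card_image f s]
  rw [Finset.sum_congr rfl (g := fun _ => 2 * d), Finset.sum_const, smul_eq_mul, mul_comm]
  intro b hb
  obtain ⟨p, hp, rfl⟩ := Finset.mem_image.1 hb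
  have hpT := (hmem p).1 hp
  have e : ((s.filter fun q => f q = f p : Finset _) : Set _) =
      {q | q ∈ TS l G c d ∧ cedges (cyg l q.1 q.2) = cedges (cyg l p.1 p.2)} := by
    ext q
    simp only [Finset.coe_filter, Set.mem_setOf_eq, hmem, hf]
  have h1 := fib_le hl hd hpT
  have h2 := fib_ge hl hd hpT
  rw [← e, Set.encard_coe_eq_coe_finsetCard] at h1 h2
  have h3 : (s.filter fun q => f q = f p).card ≤ 2 * d := by exact_mod_cast h1
  have h4 : 2 * d ≤ (s.filter fun q => f q = f p).card := by exact_mod_cast h2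
  exact le_antisymm h3 h4

end H46.CZ
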