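import Pool.Agent.H46.CZ.StrB
import Pool.Agent.H46.CZ.Fib

/-!
# CZ.CyU : upper bound for the number of cycles meeting d pieces (about 90 lines)

`dcyc_sub` and `ts_card`: `2 d * (dcyc d G c).ncard ≤ 2 d * (image).ncard = (TS l G c d).ncard` (the image is finite). `TS` is contained in the set of the pairs `(F, s)` with `F ∈ HC c d` and `s i ∈ ⋃ j ∈ image, j ≠ 0, LP l G c (F i) (F (i + 1)) j` for all `i` (a member of `LP ... j` with `2 ≤ l` is not empty, so `j` is a colour of a vertex); the number of these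
pairs is `∑ F, ∏ i, ∑ j ∈ (univ.image c).erase 0, (LP l G c (F i) (F (i + 1)) j).ncard` (for different `j` the sets are disjoint; `Fintype.card_pi`, `Finset.card_sigma`), which is `wz` for the weights `1`.
-/

namespace H46.CZ

open Pool.Agent.H3.LC H46.CY

variable {V : Type} [Fintype V] {L : Finset ℕ} {G : SimpleGraph V} {c : V → ℕ} {l d : ℕ}

private theorem lp_fin (l : ℕ) (G : SimpleGraph V) (c : V → ℕ) (x y : V) (i : ℕ) :
    (LP l G c x y i).Finite := by
  refine (List.finite_length_eq V (l - 1)).subset ?_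
  rintro s ⟨_, hs, _⟩
  simp only [Set.mem_ofPred_eq]
  omega

open Classical in
private noncomputable def uf (l : ℕ) (G : SimpleGraph V) (c : V → ℕ) (x y : V) :
    Finset (List V) :=
  ((Finset.univ.image c).erase 0).biUnion (fun j => (lp_fin l G c x y j).toFinset)

open Classical in
private theorem uf_card (l : ℕ) (G : SimpleGraph V) (c : V → ℕ) (x y : V) :
    ((uf l G c x y).card : ℝ) ≤ aw l G c (fun i => if i = 0 then 0 else 1) x y := by
  have h1 : ((uf l G c x y).card : ℝ) ≤
      ∑ j ∈ (Finset.univ.image c).erase 0, ((LP l G c x y j).ncard : ℝ) := by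
    have h2 : (uf l G c x y).card ≤
        ∑ j ∈ (Finset.univ.image c).erase 0, (LP l G c x y j).ncard := by
      refine le_trans Finset.card_biUnion_le (Finset.sum_le_sum fun j _ => ?_)
      rw [Set.ncard_eq_toFinset_card _ (lp_fin l G c x y j)]
    exact_mod_cast h2
  refine h1.trans (le_of_eq ?_)
  unfold aw
  have h3 : ∑ i ∈ Finset.univ.image c, (if i = 0 then (0 : ℝ) else 1) *
      ((LP l G c x y i).ncard : ℝ) =
      ∑ i ∈ (Finset.univ.image c).erase 0, (if i = 0 then (0 : ℝ) else 1) *
      ((LP l G c x y i).ncard : ℝ) := by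
    symm
    apply Finset.sum_subset (Finset.erase_subset _ _)
    intro i hi hn
    have : i = 0 := by
      by_contra h
      exact hn (Finset.mem_erase.2 ⟨h, hi⟩)
    simp [this]
  rw [h3]
  refine Finset.sum_congr rfl fun i hi => ?_
  rw [if_neg (Finset.ne_of_mem_erase hi), one_mul]

theorem cyU (hV : Valid L G c) (hl : 2 ≤ l) (hd : 2 ≤ d) [NeZero d]
    (hev : ∀ x ∈ L, Even x → 2 * l ≤ x) (hmax : ∀ x ∈ L, x ≤ d * l) :
    (2 * d : ℝ) * ((dcyc d G c).ncard : ℝ) ≤ wz l d G c (fun i => if i = 0 then 0 else 1) := by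
  classical
  have hTf : (TS l G c d).Finite := ts_finite l G c
  have h1 : (dcyc d G c).ncard ≤
      ((fun p : (ZMod d → V) × (ZMod d → List V) => cedges (cyg l p.1 p.2)) ''
        TS l G c d).ncard :=
    Set.ncard_le_ncard (dcyc_sub hV hl hd hev hmax) (hTf.image _)
  have h2 : 2 * d * (dcyc d G c).ncard ≤ (TS l G c d).ncard := by
    rw [ts_card hl hd]
    exact Nat.mul_le_mul_left _ h1
  have h3 : (2 * d : ℝ) * ((dcyc d G c).ncard : ℝ) ≤ ((TS l G c d).ncard : ℝ) := by
    exact_mod_cast h2
  refine h3.trans ?_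
  set T : Finset ((ZMod d → V) × (ZMod d → List V)) := hTf.toFinset with hT
  have hTm : ∀ p, p ∈ T ↔ p ∈ TS l G c d := fun p => by rw [hT]; exact hTf.mem_toFinset
  have hc : (TS l G c d).ncard = T.card := Set.ncard_eq_toFinset_card _ hTf
  set H : Finset (ZMod d → V) := Finset.univ.filter (fun F => F ∈ HC c d) with hH
  have h4 : T.card = ∑ F ∈ H, (T.filter (fun p => p.1 = F)).card := by
    apply Finset.card_eq_sum_card_fiberwise
    intro p hp
    have hp' : p ∈ TS l G c d := (hTm p).1 hp
    exact Finset.mem_coe.2 (Finset.mem_filter.2 ⟨Finset.mem_univ _, hp'.1⟩)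
  have h5 : ∀ F ∈ H, ((T.filter (fun p => p.1 = F)).card : ℝ) ≤
      ∏ i, aw l G c (fun i => if i = 0 then 0 else 1) (F i) (F (i + 1)) := by
    intro F _
    have h6 : (T.filter (fun p => p.1 = F)).card ≤
        (Fintype.piFinset fun i : ZMod d => uf l G c (F i) (F (i + 1))).card := by
      apply Finset.card_le_card_of_injOn (fun p => p.2)
      · intro p hp
        have hp1 := Finset.mem_filter.1 (Finset.mem_coe.1 hp)
        have hp' : p ∈ TS l G c d := (hTm p).1 hp1.1
        refine Finset.mem_coe.2 (Fintype.mem_piFinset.2 fun i => ?_)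
        obtain ⟨j, hj0, hj⟩ := hp'.2.1 i
        rw [hp1.2] at hj
        refine Finset.mem_biUnion.2 ⟨j, ?_, (lp_fin l G c _ _ j).mem_toFinset.2 hj⟩
        refine Finset.mem_erase.2 ⟨hj0, ?_⟩
        obtain ⟨_, hlen, hcol⟩ := hj
        have hne : p.2 i ≠ [] := by
          intro h0
          rw [h0] at hlen
          simp at hlen
          omega
        obtain ⟨v, hv⟩ := List.exists_mem_of_ne_nil _ hne
        exact Finset.mem_image.2 ⟨v, Finset.mem_univ _, hcol v hv⟩
      · intro p hp q hq hpq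
        have hp1 := Finset.mem_filter.1 (Finset.mem_coe.1 hp)
        have hq1 := Finset.mem_filter.1 (Finset.mem_coe.1 hq)
        exact Prod.ext (hp1.2.trans hq1.2.symm) hpq
    rw [Fintype.card_piFinset] at h6
    calc ((T.filter (fun p => p.1 = F)).card : ℝ)
        ≤ ((∏ i : ZMod d, (uf l G c (F i) (F (i + 1))).card : ℕ) : ℝ) := by exact_mod_cast h6
      _ = ∏ i : ZMod d, ((uf l G c (F i) (F (i + 1))).card : ℝ) := by push_cast; rfl
      _ ≤ _ := Finset.prod_le_prod (fun i _ => Nat.cast_nonneg _) (fun i _ => uf_card l G c _ _)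
  rw [hc, h4]
  push_cast
  refine (Finset.sum_le_sum h5).trans (le_of_eq ?_)
  unfold wz
  rw [← Finset.sum_subtype H (fun F => by rw [hH]; simp)
    (fun F => ∏ i, aw l G c (fun i => if i = 0 then 0 else 1) (F i) (F (i + 1)))]

end H46.CZ
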