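import Pool.Agent.H46.CZ.Lst

/-!
# CZ.Cyg : the cyclic sequence of a closed chain (about 130 lines)

`cyg l F s x` is `F q` if `x.val = q l` and the member number `t - 1` of `s q` if `x.val = q l + t`, `0 < t < l`. `cyg_hub`, `cyg_in`: `Nat.mul_add_div`, `Nat.mul_add_mod`, `ZMod.val_natCast_of_lt` (`q < d`, `q l + t < d l`). `cyg_isCyc`: injective: `x.val = q l + t`, `x'.val = q' l + t'`; equal values give `t = 0 = t'` (then `F q = F q'`, `q = q'`)
or both `> 0` (then the same `q` by disjointness and the same `t` by `Nodup`). Adjacent: for `t + 1 < l` both are consecutive members of `F q :: s q`; for `t + 1 = l` the next value is `F (q + 1)` (also for `x.val + 1 = d l`, where the next value is `F 0 = F ((d : ℕ) : ZMod d)`); use `List.isChain_iff_getElem` for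
`F q :: (s q ++ [F (q + 1)])`. `cyg_inj`: the values at `q l` give `F = F'`, the values at `q l + t` give `s = s'` (`List.ext_getElem`).
-/

namespace H46.CZ

open Pool.Agent.H3.LC H46.CY

variable {V : Type} {G : SimpleGraph V} {l d : ℕ}

private theorem rep_val [NeZero d] (q : ZMod d) {r : ℕ} (hr : r < l) :
    ((q.val * l + r : ℕ) : ZMod (d * l)).val = q.val * l + r := by
  refine ZMod.val_natCast_of_lt ?_
  have h1 := ZMod.val_lt q
  calc q.val * l + r < q.val * l + l := by omega
    _ = (q.val + 1) * l := by ring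
    _ ≤ d * l := Nat.mul_le_mul_right _ h1

private theorem cyg_at [NeZero d] (F : ZMod d → V) (s : ZMod d → List V) (q : ZMod d) {r : ℕ}
    (hr : r < l) :
    cyg l F s ((q.val * l + r : ℕ) : ZMod (d * l)) = (F q :: s q).getD r (F 0) := by
  unfold cyg
  rw [rep_val q hr]
  have h1 : (q.val * l + r) / l = q.val := by
    rw [Nat.add_comm, Nat.add_mul_div_right _ _ (by omega), Nat.div_eq_of_lt hr, zero_add]
  have h2 : (q.val * l + r) % l = r := by
    rw [Nat.add_comm, Nat.add_mul_mod_self_right, Nat.mod_eq_of_lt hr]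
  rw [h1, h2, ZMod.natCast_zmod_val]

private theorem exists_rep [NeZero d] (hl : 1 ≤ l) (x : ZMod (d * l)) :
    ∃ (q : ZMod d) (r : ℕ), r < l ∧ x = ((q.val * l + r : ℕ) : ZMod (d * l)) := by
  have : NeZero (d * l) := ⟨Nat.mul_ne_zero (NeZero.ne d) (by omega)⟩
  have hx := ZMod.val_lt x
  have h1 : x.val / l < d := Nat.div_lt_of_lt_mul (hx.trans_eq (Nat.mul_comm d l))
  refine ⟨((x.val / l : ℕ) : ZMod d), x.val % l, Nat.mod_lt _ (by omega), ?_⟩
  rw [ZMod.val_natCast_of_lt h1, Nat.div_add_mod', ZMod.natCast_zmod_val]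

theorem cyg_hub (hl : 1 ≤ l) [NeZero d] (F : ZMod d → V) (s : ZMod d → List V) (q : ZMod d) :
    cyg l F s ((q.val * l : ℕ) : ZMod (d * l)) = F q := by
  have h := cyg_at F s q (l := l) (r := 0) (by omega)
  rw [Nat.add_zero] at h
  rw [h, List.getD_cons_zero]

theorem cyg_in [NeZero d] (F : ZMod d → V) (s : ZMod d → List V) (q : ZMod d) {t : ℕ}
    (ht : t + 1 < l) (hs : (s q).length + 1 = l) :
    cyg l F s ((q.val * l + (t + 1) : ℕ) : ZMod (d * l)) = (s q)[t]'(by omega) := by
  rw [cyg_at F s q ht, List.getD_cons_succ, List.getD_eq_getElem _ _ (by omega)]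

private theorem next_val [NeZero d] (hl : 1 ≤ l) (F : ZMod d → V) (s : ZMod d → List V)
    (q : ZMod d) : cyg l F s (((q.val * l + (l - 1) : ℕ) : ZMod (d * l)) + 1) = F (q + 1) := by
  have e : ((q.val * l + (l - 1) : ℕ) : ZMod (d * l)) + 1 =
      (((q.val + 1) * l : ℕ) : ZMod (d * l)) := by
    have h1 : (q.val + 1) * l = (q.val * l + (l - 1)) + 1 := by
      rw [Nat.add_mul, Nat.one_mul]
      omega
    rw [h1]
    push_cast
    ring
  have e2 : q + 1 = ((q.val + 1 : ℕ) : ZMod d) := by
    rw [Nat.cast_add, ZMod.natCast_zmod_val, Nat.cast_one]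
  have hq := ZMod.val_lt q
  rw [e]
  rcases Nat.lt_or_ge (q.val + 1) d with h | h
  · have h3 : (q + 1).val = q.val + 1 := by rw [e2, ZMod.val_natCast_of_lt h]
    have h4 := cyg_hub hl F s (q + 1)
    rwa [h3] at h4
  · have h3 : q.val + 1 = d := by omega
    have h4 : q + 1 = 0 := by rw [e2, h3, ZMod.natCast_self]
    have h5 := cyg_hub hl F s 0
    rw [h3, ZMod.natCast_self, h4]
    rwa [ZMod.val_zero, Nat.zero_mul, Nat.cast_zero] at h5

theorem cyg_isCyc (hl : 2 ≤ l) (hd : 2 ≤ d) {F : ZMod d → V} {s : ZMod d → List V}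
    (hF : Function.Injective F) (hs : ∀ i, PI G (F i) (F (i + 1)) (s i) ∧ (s i).length + 1 = l)
    (hdis : ∀ i k, i ≠ k → ∀ v ∈ s i, v ∉ s k) (hFs : ∀ i k, F i ∉ s k) :
    IsCyc G (cyg l F s) := by
  have : NeZero d := ⟨by omega⟩
  constructor
  · intro x y hxy
    obtain ⟨q, r, hr, rfl⟩ := exists_rep (by omega) x
    obtain ⟨q', r', hr', rfl⟩ := exists_rep (by omega) y
    rcases r with _ | t
    · rcases r' with _ | t'
      · simp only [Nat.add_zero] at hxy ⊢
        rw [cyg_hub (l := l) (by omega) F s q, cyg_hub (l := l) (by omega) F s q'] at hxy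
        rw [hF hxy]
      · exfalso
        rw [Nat.add_zero, cyg_hub (l := l) (by omega) F s q, cyg_in F s q' hr' (hs q').2] at hxy
        exact hFs q q' (hxy ▸ List.getElem_mem _)
    · rcases r' with _ | t'
      · exfalso
        rw [Nat.add_zero (q'.val * l), cyg_hub (l := l) (by omega) F s q',
          cyg_in F s q hr (hs q).2] at hxy
        exact hFs q' q (hxy ▸ List.getElem_mem _)
      · rw [cyg_in F s q hr (hs q).2, cyg_in F s q' hr' (hs q').2] at hxy
        by_cases hqq : q = q'
        · subst hqq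
          have h1 := (List.Nodup.getElem_inj_iff (hs q).1.2.1).1 hxy
          rw [h1]
        · exfalso
          have h1 : (s q)[t]'(by have := (hs q).2; omega) ∈ s q := List.getElem_mem _
          exact hdis q q' hqq _ h1 (hxy ▸ List.getElem_mem _)
  · intro x
    obtain ⟨q, r, hr, rfl⟩ := exists_rep (by omega) x
    have hch := (hs q).1.1
    have hlen := (hs q).2
    have hL : (F q :: (s q ++ [F (q + 1)])).length = l + 1 := by
      simp only [List.length_cons, List.length_append, List.length_nil]
      omega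
    rw [List.isChain_iff_getElem] at hch
    have hr1 := hch r (by omega)
    have e1 : cyg l F s ((q.val * l + r : ℕ) : ZMod (d * l)) =
        (F q :: (s q ++ [F (q + 1)]))[r]'(by omega) := by
      rcases r with _ | t
      · rw [Nat.add_zero, cyg_hub (by omega), List.getElem_cons_zero]
      · rw [cyg_in F s q hr hlen, List.getElem_cons_succ, List.getElem_append_left (by omega)]
    have e2 : cyg l F s (((q.val * l + r : ℕ) : ZMod (d * l)) + 1) =
        (F q :: (s q ++ [F (q + 1)]))[r + 1]'(by omega) := by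
      rcases Nat.lt_or_ge (r + 1) l with h | h
      · have h1 : ((q.val * l + r : ℕ) : ZMod (d * l)) + 1 =
            ((q.val * l + (r + 1) : ℕ) : ZMod (d * l)) := by
          push_cast
          ring
        rw [h1, cyg_in F s q h hlen, List.getElem_cons_succ, List.getElem_append_left (by omega)]
      · have h1 : r = l - 1 := by omega
        subst h1
        rw [next_val (by omega), List.getElem_cons_succ, List.getElem_append_right (by omega)]
        simp
    rw [e1, e2]
    exact hr1

theorem cyg_inj (hl : 2 ≤ l) (hd : 2 ≤ d) {F F' : ZMod d → V} {s s' : ZMod d → List V}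
    (hs : ∀ i, (s i).length + 1 = l) (hs' : ∀ i, (s' i).length + 1 = l)
    (h : cyg l F s = cyg l F' s') : F = F' ∧ s = s' := by
  have : NeZero d := ⟨by omega⟩
  constructor
  · funext q
    rw [← cyg_hub (l := l) (by omega) F s q, ← cyg_hub (l := l) (by omega) F' s' q, h]
  · funext q
    have h1 := hs q
    have h2 := hs' q
    refine List.ext_getElem (by omega) fun t ht ht' => ?_
    rw [← cyg_in F s q (by omega) (hs q), ← cyg_in F' s' q (by omega) (hs' q), h]

end H46.CZ
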