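import Pool.Agent.H46.CY.Defs

/-!
# Definitions for the finite formula, max L = d l (MP_d7aaae_co)

`l` is half of the least even element of `L` (no even element of `L` is less than `2 l`) and all
elements of `L` are at most `d l`.
-/

namespace H46.CZ

open Pool.Agent.H3.LC H46.CY Finset

/-- `(G, c)` is a template all of whose blow-ups have only cycles with lengths in `L`. -/
def Valid {V : Type} (L : Finset ℕ) (G : SimpleGraph V) (c : V → ℕ) : Prop :=
  Compat G c ∧ ∀ M, IsLCycleGraph L (blow G c M)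

/-- the (lists of inner vertices of) paths of length `l` from `x` to `y` through the piece `i` -/
def LP {V : Type} (l : ℕ) (G : SimpleGraph V) (c : V → ℕ) (x y : V) (i : ℕ) : Set (List V) :=
  {s | PI G x y s ∧ s.length + 1 = l ∧ ∀ v ∈ s, c v = i}

/-- weights for the pieces: `w i ≥ 0`, total weight of the vertices outside the hubs at most `1` -/
def Feas {V : Type} [Fintype V] (c : V → ℕ) (w : ℕ → ℝ) : Prop :=
  w 0 = 0 ∧ (∀ i, 0 ≤ w i) ∧ ∑ v, w (c v) ≤ 1

/-- the weighted number of paths of length `l` from `x` to `y` through one piece -/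
noncomputable def aw {V : Type} [Fintype V] (l : ℕ) (G : SimpleGraph V) (c : V → ℕ) (w : ℕ → ℝ)
    (x y : V) : ℝ :=
  ∑ i ∈ univ.image c, w i * ((LP l G c x y i).ncard : ℝ)

open Classical in
/-- the weighted number of closed chains of `d` hubs -/
noncomputable def wval {V : Type} [Fintype V] (l d : ℕ) (G : SimpleGraph V) (c : V → ℕ)
    (w : ℕ → ℝ) : ℝ :=
  (∑ f : Fin d ↪ {v // c v = 0}, ∏ i : Fin d, aw l G c w (f i) (f (finRotate d i))) / (2 * d)

/-- closed sequences of `d` different hubs -/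
def HC {V : Type} (c : V → ℕ) (d : ℕ) : Set (ZMod d → V) :=
  {F | Function.Injective F ∧ ∀ i, c (F i) = 0}

open Classical in
/-- `2 d` times `wval`, with `ZMod d` instead of `Fin d` -/
noncomputable def wz {V : Type} [Fintype V] (l d : ℕ) [NeZero d] (G : SimpleGraph V) (c : V → ℕ)
    (w : ℕ → ℝ) : ℝ :=
  ∑ F : {F : ZMod d → V // F ∈ HC c d}, ∏ i, aw l G c w (F.1 i) (F.1 (i + 1))

/-- closed chains: consecutive hubs are joined by a path of length `l` through a piece -/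
def Chn {V : Type} (l : ℕ) (G : SimpleGraph V) (c : V → ℕ) {d : ℕ} (F : ZMod d → V) : Prop :=
  F ∈ HC c d ∧ ∀ i, ∃ j, j ≠ 0 ∧ (LP l G c (F i) (F (i + 1)) j).Nonempty

/-- `u` and `v` are joined outside the hubs -/
def Con {V : Type} (G : SimpleGraph V) (c : V → ℕ) (u v : V) : Prop :=
  Relation.ReflTransGen (fun a b => G.Adj a b ∧ c a ≠ 0 ∧ c b ≠ 0) u v

/-- the pieces are connected -/
def CConn {V : Type} (G : SimpleGraph V) (c : V → ℕ) : Prop :=
  ∀ u v, c u = c v → c u ≠ 0 → Con G c u v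

/-- `x, y` are consecutive in some closed chain of `d` hubs -/
def Used {V : Type} (l : ℕ) (G : SimpleGraph V) (c : V → ℕ) (d : ℕ) (x y : V) : Prop :=
  ∃ F : ZMod d → V, Chn l G c F ∧ ∃ i, F i = x ∧ F (i + 1) = y

/-- closed chains of positive weight -/
def PC {V : Type} [Fintype V] (l : ℕ) (G : SimpleGraph V) (c : V → ℕ) (w : ℕ → ℝ) {d : ℕ}
    [NeZero d] (F : ZMod d → V) : Prop :=
  F ∈ HC c d ∧ 0 < ∏ i, aw l G c w (F i) (F (i + 1))

/-- the pieces used by closed chains have no third hub -/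
def NoThird {V : Type} (l : ℕ) (G : SimpleGraph V) (c : V → ℕ) (d : ℕ) : Prop :=
  ∀ (F : ZMod d → V), Chn l G c F → ∀ (i : ZMod d) (j : ℕ) (s : List V), j ≠ 0 →
    s ∈ LP l G c (F i) (F (i + 1)) j → ∀ v₀ ∈ s, ∀ u z, Con G c v₀ u → G.Adj u z → c z = 0 →
      z = F i ∨ z = F (i + 1)

open Classical in
/-- the total weight of the pieces attached to the hub `x` -/
noncomputable def am {V : Type} [Fintype V] (G : SimpleGraph V) (c : V → ℕ) (w : ℕ → ℝ) (x : V) :
    ℝ :=
  ∑ v, if ∃ u, c u = c v ∧ G.Adj u x then w (c v) else 0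

/-- the vertices of the graph made of the hubs and `a i` copies of the piece `i` -/
abbrev SBV {V : Type} (c : V → ℕ) (a : ℕ → ℕ) : Type :=
  {x : V × ℕ // (c x.1 = 0 → x.2 = 0) ∧ (c x.1 ≠ 0 → x.2 < a (c x.1))}

/-- the hubs and `a i` copies of the piece `i` -/
def sblow {V : Type} (G : SimpleGraph V) (c : V → ℕ) (a : ℕ → ℕ) : SimpleGraph (SBV c a) where
  Adj x y := G.Adj x.1.1 y.1.1 ∧ (c x.1.1 ≠ 0 → c y.1.1 ≠ 0 → x.1.2 = y.1.2)
  symm := by
    constructor
    intro x y h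
    exact ⟨h.1.symm, fun h1 h2 => (h.2 h2 h1).symm⟩
  loopless := by
    constructor
    intro x h
    exact G.loopless.irrefl _ h.1

/-- the cyclic sequence `F 0, s 0, F 1, s 1, ...` (all lists `s i` of length `l - 1`) -/
def cyg {V : Type} (l : ℕ) {d : ℕ} (F : ZMod d → V) (s : ZMod d → List V) (x : ZMod (d * l)) : V :=
  (F ((x.val / l : ℕ) : ZMod d) :: s ((x.val / l : ℕ) : ZMod d)).getD (x.val % l) (F 0)

/-- closed chains with pairwise disjoint paths -/
def TS {V : Type} (l : ℕ) (G : SimpleGraph V) (c : V → ℕ) (d : ℕ) :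
    Set ((ZMod d → V) × (ZMod d → List V)) :=
  {p | p.1 ∈ HC c d ∧ (∀ i, ∃ j, j ≠ 0 ∧ p.2 i ∈ LP l G c (p.1 i) (p.1 (i + 1)) j) ∧
    ∀ i k, i ≠ k → ∀ v ∈ p.2 i, v ∉ p.2 k}

/-- the bound for the number of vertices of an optimal template -/
def bnd (l d : ℕ) : ℕ := d ^ 2 + (d ^ 4 + 1) * (d ^ 2 * l)

/-- The condition for closed form 1 / (d (l - 1)) ^ d: there are no positive integers `e < l`, `ρ`,
`a`, `b` with `a + b + 1 = d` such that the seven cycle lengths made by a piece with three hubs are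
all in `L`. -/
def NoFork (L : Finset ℕ) (l d : ℕ) : Prop :=
  ∀ e ρ a b : ℕ, 1 ≤ e → e < l → 1 ≤ ρ → 1 ≤ a → 1 ≤ b → a + b + 1 = d →
    ¬ (2 * (l + ρ) ∈ L ∧ 2 * (e + ρ) ∈ L ∧ 2 * (l - e + ρ) ∈ L ∧ a * l + (l - e + ρ) ∈ L ∧
      b * l + (e + ρ) ∈ L ∧ (a + 1) * l + (e + ρ) ∈ L ∧ (b + 1) * l + (l - e + ρ) ∈ L)

end H46.CZ
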