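import Pool.Agent.H46.CZ.Unq
import Pool.Agent.H46.CZ.Sym

/-!
# CZ.Dsj : without third hubs the used paths of a piece are disjoint (about 120 lines)

Let `v` be a vertex of colour `j ≠ 0` with `v ∈ s`, `s ∈ LP l G c x y j`, `Used x y` and `v ∈ s'`, `s' ∈ LP l G c x' y' j`, `Used x' y'`. The first member of `s'` is joined to `v` outside the hubs (the chain of `s'`, colours `≠ 0`) and adjacent to `x'` (`c x' = 0`), so `NoThird` (with the closed chain `F` of `Used x y`) gives `x' ∈ {x, y}`; in
the same way `y' ∈ {x, y}` and `x' ≠ y'` (`used_hub`). If `x' = x`, `y' = y` then `s' = s` (`two_eq`); if `x' = y`, `y' = x` then `s'.reverse = s` (`lp_rev`, `two_eq`). So the set of the triples `(x, y, s)` with `Used x y`, `s ∈ LP l G c x y j`, `v ∈ s` has at most `2` members.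
Count the pairs (triple, `v ∈ s`): every triple has `l - 1` such `v` (`s.Nodup`, length `l - 1`), every `v` of colour `j` is in at most `2` triples: `(l - 1) * #triples ≤ 2 * #{v | c v = j}` and `#triples` is the double sum (`Finset.card_sigma` or `Finset.card_eq_sum_card_fiberwise`; everything is finite, `lp_finite`).
`used_sum_le`: multiply by `w j`, sum over the colours `j` of the image: `∑ x, ∑ y, if Used x y then aw x y else 0 ≤ 2 / (l - 1) * ∑ v, w (c v)`.
-/

namespace H46.CZ

open Pool.Agent.H3.LC H46.CY Finset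

variable {V : Type} [Fintype V] {L : Finset ℕ} {G : SimpleGraph V} {c : V → ℕ} {l d : ℕ}

omit [Fintype V] in
/-- the end `a` of a path is attached to the piece of its inner vertices -/
private theorem head_con {b v : V} {j : ℕ} (hj : j ≠ 0) :
    ∀ (s : List V) (a : V), (a :: (s ++ [b])).IsChain G.Adj → (∀ u ∈ s, c u = j) → v ∈ s →
      ∃ u, G.Adj a u ∧ c u ≠ 0 ∧ Con G c u v := by
  intro s
  induction s with
  | nil => intro a _ _ h; simp at h
  | cons u t ih =>
    intro a hch hc hv
    rw [List.cons_append, List.isChain_cons_cons] at hch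
    have hu : c u ≠ 0 := by rw [hc u (by simp)]; exact hj
    refine ⟨u, hch.1, hu, ?_⟩
    rcases List.mem_cons.1 hv with rfl | hv
    · exact Relation.ReflTransGen.refl
    · obtain ⟨u', h1, h2, h3⟩ := ih u hch.2 (fun w hw => hc w (by simp [hw])) hv
      exact Relation.ReflTransGen.head ⟨h1, hu, h2⟩ h3

private theorem end_con {x y v : V} {j : ℕ} (hj : j ≠ 0) {s : List V} (hs : s ∈ LP l G c x y j)
    (hv : v ∈ s) : ∃ u, Con G c v u ∧ G.Adj u x := by
  obtain ⟨u, h1, _, h3⟩ := head_con (v := v) hj s x hs.1.1 hs.2.2 hv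
  exact ⟨u, con_symm h3, h1.symm⟩

/-- two used paths with a common vertex are equal up to the direction -/
private theorem used_eq (hV : Valid L G c) (hl : 2 ≤ l) (hd : 2 ≤ d)
    (hev : ∀ x ∈ L, Even x → 2 * l ≤ x) (hN : NoThird l G c d) {j : ℕ} (hj : j ≠ 0)
    {x y x' y' v : V} {s s' : List V} (hU : Used l G c d x y) (hU' : Used l G c d x' y')
    (hs : s ∈ LP l G c x y j) (hs' : s' ∈ LP l G c x' y' j) (hv : v ∈ s) (hv' : v ∈ s') :
    (x' = x ∧ y' = y ∧ s' = s) ∨ (x' = y ∧ y' = x ∧ s' = s.reverse) := by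
  obtain ⟨hx, hy, hxy⟩ := used_hub hd hU
  obtain ⟨hx', hy', hxy'⟩ := used_hub hd hU'
  obtain ⟨F, hF, i, rfl, rfl⟩ := hU
  have key : ∀ z u, Con G c v u → G.Adj u z → c z = 0 → z = F i ∨ z = F (i + 1) :=
    fun z u h1 h2 h3 => hN F hF i j s hj hs v hv u z h1 h2 h3
  obtain ⟨u, hu1, hu2⟩ := end_con hj hs' hv'
  obtain ⟨u', hu1', hu2'⟩ := end_con (v := v) hj (lp_rev hs') (by simpa using hv')
  rcases key x' u hu1 hu2 hx' with e | e <;> rcases key y' u' hu1' hu2' hy' with e' | e'
  · exact absurd (e.trans e'.symm) hxy'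
  · left
    subst e e'
    exact ⟨rfl, rfl, two_eq hV hl hev hxy hx hy hj hj hs' hs hv' hv⟩
  · right
    subst e e'
    refine ⟨rfl, rfl, ?_⟩
    have h := two_eq hV hl hev hxy hx hy hj hj (lp_rev hs') hs (by simpa using hv') hv
    rw [← h, List.reverse_reverse]
  · exact absurd (e.trans e'.symm) hxy'

open Classical in
theorem dsj_count (hV : Valid L G c) (hl : 2 ≤ l) (hd : 2 ≤ d)
    (hev : ∀ x ∈ L, Even x → 2 * l ≤ x) (hN : NoThird l G c d) {j : ℕ} (hj : j ≠ 0) :
    (l - 1) * ∑ x, ∑ y, (if Used l G c d x y then (LP l G c x y j).ncard else 0) ≤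
      2 * {v | c v = j}.ncard := by
  set P : V × V → Finset (List V) := fun p =>
    if Used l G c d p.1 p.2 then (lp_finite l G c p.1 p.2 j).toFinset else ∅ with hP
  have hmem : ∀ (p : V × V) (s : List V), s ∈ P p ↔ Used l G c d p.1 p.2 ∧
      s ∈ LP l G c p.1 p.2 j := by
    intro p s
    simp only [hP]
    split_ifs with h
    · simp [h]
    · simp [h]
  set T : Finset (Σ _ : V × V, List V) := (univ : Finset (V × V)).sigma P with hT
  have hTcard : ∑ x, ∑ y, (if Used l G c d x y then (LP l G c x y j).ncard else 0) = T.card := by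
    rw [hT, card_sigma, Fintype.sum_prod_type]
    refine Finset.sum_congr rfl fun x _ => Finset.sum_congr rfl fun y _ => ?_
    simp only [hP]
    split_ifs with h
    · rw [Set.ncard_eq_toFinset_card _ (lp_finite l G c x y j)]
    · simp
  have hcol : {v | c v = j}.ncard = (univ.filter (fun v => c v = j)).card := by
    rw [Set.ncard_eq_toFinset_card']
    congr 1
    ext v
    simp
  rw [hTcard, hcol, mul_comm, mul_comm 2]
  refine Finset.card_mul_le_card_mul (fun (t : Σ _ : V × V, List V) (v : V) => v ∈ t.2) ?_ ?_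
  · rintro ⟨p, s⟩ ht
    rw [hT, mem_sigma, hmem] at ht
    obtain ⟨-, -, h1, h2, h3⟩ := ht
    have e : (univ.filter (fun v => c v = j)).bipartiteAbove
        (fun (t : Σ _ : V × V, List V) (v : V) => v ∈ t.2) ⟨p, s⟩ = s.toFinset := by
      ext v
      simp only [Finset.mem_bipartiteAbove, mem_filter, mem_univ, true_and, List.mem_toFinset]
      exact ⟨fun h => h.2, fun h => ⟨h3 v h, h⟩⟩
    rw [e, List.toFinset_card_of_nodup h1.2.1]
    omega
  · intro v _
    rcases (T.bipartiteBelow (fun (t : Σ _ : V × V, List V) (v : V) => v ∈ t.2) v).eq_empty_or_nonempty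
      with h0 | ⟨⟨p, s⟩, h0⟩
    · rw [h0]
      simp
    · rw [Finset.mem_bipartiteBelow, hT, mem_sigma, hmem] at h0
      obtain ⟨⟨-, hU, hs⟩, hvs⟩ := h0
      refine (Finset.card_le_card (t := {⟨p, s⟩, ⟨(p.2, p.1), s.reverse⟩}) ?_).trans
        Finset.card_le_two
      rintro ⟨p', s'⟩ h0'
      rw [Finset.mem_bipartiteBelow, hT, mem_sigma, hmem] at h0'
      obtain ⟨⟨-, hU', hs'⟩, hvs'⟩ := h0'
      rcases used_eq hV hl hd hev hN hj hU hU' hs hs' hvs hvs' with ⟨h1, h2, h3⟩ | ⟨h1, h2, h3⟩
      · rw [mem_insert]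
        left
        simp only [Sigma.mk.injEq, heq_eq_eq]
        exact ⟨Prod.ext h1 h2, h3⟩
      · rw [mem_insert]
        right
        rw [mem_singleton]
        simp only [Sigma.mk.injEq, heq_eq_eq]
        exact ⟨Prod.ext h1 h2, h3⟩

open Classical in
theorem used_sum_le (hV : Valid L G c) (hl : 2 ≤ l) (hd : 2 ≤ d)
    (hev : ∀ x ∈ L, Even x → 2 * l ≤ x) (hN : NoThird l G c d) {w : ℕ → ℝ} (hw : Feas c w) :
    ((l : ℝ) - 1) * ∑ x, ∑ y, (if Used l G c d x y then aw l G c w x y else 0) ≤ 2 := by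
  obtain ⟨w0, wn, ws⟩ := hw
  have e1 : ∑ x, ∑ y, (if Used l G c d x y then aw l G c w x y else 0) =
      ∑ i ∈ univ.image c, w i *
        ((∑ x, ∑ y, (if Used l G c d x y then (LP l G c x y i).ncard else 0) : ℕ) : ℝ) := by
    have : ∀ x y : V, (if Used l G c d x y then aw l G c w x y else 0) =
        ∑ i ∈ univ.image c, w i *
          (((if Used l G c d x y then (LP l G c x y i).ncard else 0 : ℕ)) : ℝ) := by
      intro x y
      split_ifs with h
      · rfl
      · simp
    simp only [this]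
    push_cast
    simp only [Finset.mul_sum]
    rw [Finset.sum_congr rfl (fun x _ => Finset.sum_comm), Finset.sum_comm]
  have e2 : ∑ v, w (c v) = ∑ i ∈ univ.image c, ({v | c v = i}.ncard : ℝ) * w i := by
    rw [Finset.sum_comp]
    refine Finset.sum_congr rfl fun i _ => ?_
    rw [nsmul_eq_mul, Set.ncard_eq_toFinset_card']
    congr 3
    ext v
    simp
  rw [e1, Finset.mul_sum]
  calc ∑ i ∈ univ.image c, ((l : ℝ) - 1) * (w i *
        ((∑ x, ∑ y, (if Used l G c d x y then (LP l G c x y i).ncard else 0) : ℕ) : ℝ))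
      ≤ ∑ i ∈ univ.image c, 2 * (({v | c v = i}.ncard : ℝ) * w i) := by
        refine Finset.sum_le_sum fun i _ => ?_
        rcases eq_or_ne i 0 with rfl | hi
        · rw [w0]
          simp
        · have h := dsj_count hV hl hd hev hN hi
          have h' : ((l : ℝ) - 1) *
              ((∑ x, ∑ y, (if Used l G c d x y then (LP l G c x y i).ncard else 0) : ℕ) : ℝ) ≤
              2 * ({v | c v = i}.ncard : ℝ) := by
            have hc : ((l - 1 : ℕ) : ℝ) = (l : ℝ) - 1 := by
              rw [Nat.cast_sub (by omega), Nat.cast_one]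
            rw [← hc]
            exact_mod_cast h
          have := mul_le_mul_of_nonneg_left h' (wn i)
          nlinarith [this]
    _ = 2 * ∑ v, w (c v) := by rw [e2, Finset.mul_sum]
    _ ≤ 2 := by linarith

end H46.CZ
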