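import Pool.Agent.H46.CZ.Thd
import Pool.Agent.H46.CZ.Unq
import Pool.Agent.H46.CZ.Sym

/-!
# CZ.Ess : the useful vertices of a piece (about 100 lines)

If the set is empty there is nothing to prove. Otherwise fix a closed chain `F₀` and `s₀ ∈ LP l G c (F₀ i₀) (F₀ (i₀ + 1)) j`. For every closed chain `F` and `s ∈ LP l G c (F i) (F (i + 1)) j` the first member of `s` has colour `j` and is adjacent to `F i`, the last one to `F (i + 1)`; `CConn` and `hub_mem` (for `F₀`, `s₀`) give that `F i`, `F (i + 1)` are in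
the range of `F₀`. So there are at most `d ^ 2` pairs `(x, y) = (F i, F (i + 1))`, and for each pair exactly one such list `s` (`run_unique`, with the closed chain of this pair, `CConn`), which has `l - 1 ≤ l` members. So at most `d ^ 2 * l` vertices (`Set.ncard` of a union over the pairs: `Finset.card_biUnion_le` or an injection into
`ZMod d × ZMod d × Fin l`).
-/

namespace H46.CZ

open Pool.Agent.H3.LC H46.CY

private theorem ess_first {V : Type} {G : SimpleGraph V} {c : V → ℕ} {l j : ℕ} (hl : 2 ≤ l)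
    {x y : V} {s : List V} (hs : s ∈ LP l G c x y j) : ∃ u ∈ s, G.Adj u x ∧ c u = j := by
  obtain ⟨⟨h1, -, -, -⟩, h2, h3⟩ := hs
  cases s with
  | nil =>
    simp only [List.length_nil] at h2
    omega
  | cons u t =>
    rw [List.cons_append, List.isChain_cons_cons] at h1
    exact ⟨u, List.mem_cons_self, h1.1.symm, h3 u List.mem_cons_self⟩

private theorem ess_pair {V : Type} {L : Finset ℕ} {G : SimpleGraph V} {c : V → ℕ} {l d : ℕ}
    (hV : Valid L G c) (hl : 2 ≤ l) (hd : 2 ≤ d) (hmax : ∀ x ∈ L, x ≤ d * l) (hC : CConn G c)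
    {j : ℕ} (hj : j ≠ 0) {F₀ : ZMod d → V} (hF₀ : Chn l G c F₀) {i₀ : ZMod d} {s₀ : List V}
    (hs₀ : s₀ ∈ LP l G c (F₀ i₀) (F₀ (i₀ + 1)) j) {x y : V} (hx : c x = 0) (hy : c y = 0)
    {s : List V} (hs : s ∈ LP l G c x y j) : (∃ k, F₀ k = x) ∧ ∃ k, F₀ k = y := by
  obtain ⟨v₀, hv₀, -, hc₀⟩ := ess_first hl hs₀
  refine ⟨?_, ?_⟩
  · obtain ⟨u, -, hux, hcu⟩ := ess_first hl hs
    have hcon : Con G c v₀ u := hC v₀ u (by rw [hc₀, hcu]) (by rw [hc₀]; exact hj)
    exact hub_mem hV hl hd hmax hF₀ hj hs₀ hv₀ hcon hux hx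
  · obtain ⟨u, -, huy, hcu⟩ := ess_first hl (lp_rev hs)
    have hcon : Con G c v₀ u := hC v₀ u (by rw [hc₀, hcu]) (by rw [hc₀]; exact hj)
    exact hub_mem hV hl hd hmax hF₀ hj hs₀ hv₀ hcon huy hy

theorem ess_card {V : Type} [Finite V] {L : Finset ℕ} {G : SimpleGraph V} {c : V → ℕ} {l d : ℕ}
    (hV : Valid L G c) (hl : 2 ≤ l) (hd : 2 ≤ d) (hev : ∀ x ∈ L, Even x → 2 * l ≤ x)
    (hmax : ∀ x ∈ L, x ≤ d * l) (hC : CConn G c) {j : ℕ} (hj : j ≠ 0) :
    {v | ∃ F : ZMod d → V, Chn l G c F ∧ ∃ i, ∃ s ∈ LP l G c (F i) (F (i + 1)) j, v ∈ s}.ncard ≤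
      d ^ 2 * l := by
  classical
  have : NeZero d := ⟨by omega⟩
  set S : Set V :=
    {v | ∃ F : ZMod d → V, Chn l G c F ∧ ∃ i, ∃ s ∈ LP l G c (F i) (F (i + 1)) j, v ∈ s} with hS
  rcases S.eq_empty_or_nonempty with h | ⟨w, hw⟩
  · rw [h, Set.ncard_empty]
    exact Nat.zero_le _
  obtain ⟨F₀, hF₀, i₀, s₀, hs₀, -⟩ := hw
  have key : ∀ v : S, ∃ p : ZMod d × ZMod d × Fin l, ∃ F : ZMod d → V, Chn l G c F ∧ ∃ i,
      ∃ s ∈ LP l G c (F i) (F (i + 1)) j, F₀ p.1 = F i ∧ F₀ p.2.1 = F (i + 1) ∧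
        s[(p.2.2 : ℕ)]? = some v.1 := by
    rintro ⟨v, F, hF, i, s, hs, hv⟩
    obtain ⟨⟨k, hk⟩, k', hk'⟩ := ess_pair hV hl hd hmax hC hj hF₀ hs₀ (hF.1.2 i) (hF.1.2 (i + 1)) hs
    obtain ⟨n, hn, hnv⟩ := List.mem_iff_getElem.1 hv
    have hnl : n < l := by
      have := hs.2.1
      omega
    refine ⟨(k, k', ⟨n, hnl⟩), F, hF, i, s, hs, hk, hk', ?_⟩
    rw [List.getElem?_eq_getElem hn, hnv]
  choose p hp using key
  have hinj : Function.Injective p := by
    intro v v' hvv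
    obtain ⟨F, hF, i, s, hs, h1, h2, h3⟩ := hp v
    obtain ⟨F', hF', i', s', hs', h1', h2', h3'⟩ := hp v'
    rw [← hvv] at h1' h2' h3'
    rw [← h1', h1, ← h2', h2] at hs'
    have m1 : v.1 ∈ s := List.mem_of_getElem? h3
    have m2 : v'.1 ∈ s' := List.mem_of_getElem? h3'
    have hcon : Con G c v.1 v'.1 := by
      have e1 : c v.1 = j := hs.2.2 _ m1
      have e2 : c v'.1 = j := hs'.2.2 _ m2
      exact hC _ _ (by rw [e1, e2]) (by rw [e1]; exact hj)
    have hss := run_unique hV hl hd hev hmax hF hj hj hs hs' m1 m2 hcon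
    rw [hss, h3'] at h3
    exact Subtype.ext (Option.some.inj h3).symm
  have hcard := Nat.card_le_card_of_injective p hinj
  rw [Nat.card_prod, Nat.card_prod, Nat.card_zmod, Nat.card_fin] at hcard
  have e : S.ncard = Nat.card S := rfl
  rw [e]
  calc Nat.card S ≤ d * (d * l) := hcard
    _ = d ^ 2 * l := by ring

end H46.CZ
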