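import Pool.Agent.H46.CZ.CyL
import Pool.Agent.H46.CZ.CyU
import Pool.Agent.H46.CY.Fin

/-!
# CZ.Gmw : Gam and the weighted values (about 130 lines)

`wval_le_Gam`: for `q : ℕ` let `a i = ⌊w i * q⌋₊` and `n = {v | c v = 0}.ncard + q`; the hypothesis of `cyL` holds because `∑ v, w (c v) ≤ 1` (`Nat.floor_le`; the sum of the floors is at most `q`, as real numbers and so as natural numbers). The natural number `a i - d` is at least `w i * q - (d + 1)`, so with `w' i = max 0 (w i - (d + 1) / q)` (`w' 0 = 0`)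
`q ^ d * wz (w') ≤ wz (a - d) ≤ 2 d * cMax L n` (`wz` is homogeneous: `wval_smul`, `val_eq`; monotone: `wz_mono`). Divide by `n ^ d` and let `q → ∞`: `wz` is continuous in the weights (finite sums and products; or: `wz (w') → wz w` since each `aw` converges), `q / n → 1`, and `cMax L n / n ^ d → Gam L d` (`tendsto_Gam`, `x ≤ d l < (d + 1) l`; composed
with `q ↦ h + q`). So `wz w ≤ 2 d * Gam L d`.
`Gam_le`: `Gam L d` is the supremum of the numbers `(dcyc d G c).ncard / p ^ d`, `p = {v | c v ≠ 0}.ncard`. If `p = 0` the number is `0` (`d ≥ 2`); `0 ≤ B` because of the template without vertices (`N = 0`, `wval = 0`, as there is no embedding of `Fin d`). If `p > 0` the weights `w i = 1 / p` for `i ≠ 0`, `w 0 = 0` are feasible and by `cyU` and homogeneity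
`(dcyc d G c).ncard / p ^ d ≤ wval l d G c w ≤ B`. The set is not empty (`N = 0`), `csSup_le`.
-/

namespace H46.CZ

open Pool.Agent.H3.LC H46.CY Filter Topology

theorem wval_le_Gam {V : Type} [Fintype V] {L : Finset ℕ} {G : SimpleGraph V} {c : V → ℕ}
    {l d : ℕ} (hV : Valid L G c) (hl : 2 ≤ l) (hd : 2 ≤ d) (hev : ∀ x ∈ L, Even x → 2 * l ≤ x)
    (hmax : ∀ x ∈ L, x ≤ d * l) {w : ℕ → ℝ} (hw : Feas c w) : wval l d G c w ≤ Gam L d := by
  classical
  have : NeZero d := ⟨by omega⟩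
  obtain ⟨hw0, hwn, hws⟩ := hw
  obtain ⟨h, hh⟩ : ∃ h : ℕ, h = {v | c v = 0}.ncard := ⟨_, rfl⟩
  have hd0 : (0 : ℝ) < 2 * (d : ℝ) := by
    have : (0 : ℝ) < (d : ℝ) := by exact_mod_cast (by omega : 0 < d)
    linarith
  -- the weights for `q`
  have key : ∀ q : ℕ, 0 < q →
      wval l d G c (fun i => max 0 (w i - ((d : ℝ) + 1) / (q : ℝ))) ≤
        (cMax L (h + q) : ℝ) / ((h + q : ℕ) : ℝ) ^ d * ((((h + q : ℕ) : ℝ)) / (q : ℝ)) ^ d := by
    intro q hq
    have hq' : (0 : ℝ) < (q : ℝ) := by exact_mod_cast hq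
    have hcard : {v | c v = 0}.ncard + ∑ v, (if c v = 0 then 0 else ⌊w (c v) * q⌋₊) ≤ h + q := by
      rw [← hh]
      have h1 : ((∑ v, (if c v = 0 then 0 else ⌊w (c v) * q⌋₊) : ℕ) : ℝ) ≤ (q : ℝ) := by
        push_cast
        calc ∑ v, (if c v = 0 then (0 : ℝ) else ((⌊w (c v) * q⌋₊ : ℕ) : ℝ))
            ≤ ∑ v, w (c v) * q := by
              refine Finset.sum_le_sum fun v _ => ?_
              split_ifs with hv
              · exact mul_nonneg (hwn _) hq'.le
              · exact Nat.floor_le (mul_nonneg (hwn _) hq'.le)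
          _ = (∑ v, w (c v)) * q := by rw [Finset.sum_mul]
          _ ≤ 1 * q := mul_le_mul_of_nonneg_right hws hq'.le
          _ = q := one_mul _
      have h2 : ∑ v, (if c v = 0 then 0 else ⌊w (c v) * q⌋₊) ≤ q := by exact_mod_cast h1
      omega
    have h1 := cyL hV hl hd (fun i => ⌊w i * q⌋₊) hcard
    have h2 : wz l d G c (fun i => (q : ℝ) * max 0 (w i - ((d : ℝ) + 1) / (q : ℝ))) ≤
        wz l d G c (fun i => if i = 0 then 0 else ((⌊w i * q⌋₊ - d : ℕ) : ℝ)) := by
      apply wz_mono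
      · intro i
        exact mul_nonneg hq'.le (le_max_left _ _)
      · intro i
        have hfl : ((⌊w i * q⌋₊ : ℕ) : ℝ) ≤ ((⌊w i * q⌋₊ - d : ℕ) : ℝ) + d := by
          have : ⌊w i * q⌋₊ ≤ (⌊w i * q⌋₊ - d) + d := by omega
          exact_mod_cast this
        have hlt := Nat.lt_floor_add_one (w i * q)
        have e1 : (q : ℝ) * (w i - ((d : ℝ) + 1) / (q : ℝ)) = w i * q - (d + 1) := by
          field_simp
        rcases le_total (w i - ((d : ℝ) + 1) / (q : ℝ)) 0 with hle | hle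
        · rw [max_eq_left hle, mul_zero]
          split_ifs
          · exact le_rfl
          · positivity
        · rw [max_eq_right hle, e1]
          split_ifs with hi
          · subst hi
            rw [hw0]
            have hdn : (0 : ℝ) ≤ (d : ℝ) := Nat.cast_nonneg d
            linarith
          · linarith
    have h3 : (q : ℝ) ^ d * wval l d G c (fun i => max 0 (w i - ((d : ℝ) + 1) / (q : ℝ))) ≤
        (cMax L (h + q) : ℝ) := by
      rw [← wval_smul, val_eq, div_le_iff₀ hd0]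
      calc _ ≤ _ := h2
        _ ≤ _ := h1
        _ = _ := by ring
    have hn' : (0 : ℝ) < ((h + q : ℕ) : ℝ) := by exact_mod_cast (by omega : 0 < h + q)
    rw [div_pow, div_mul_div_comm, mul_comm (((h + q : ℕ) : ℝ) ^ d) ((q : ℝ) ^ d),
      mul_div_mul_right _ _ (by positivity), le_div_iff₀ (by positivity), mul_comm]
    exact h3
  -- the limits
  have hmax' : ∀ x ∈ L, x < (d + 1) * l := by
    intro x hx
    have := hmax x hx
    have e : (d + 1) * l = d * l + l := by ring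
    omega
  have hG := tendsto_Gam hl (by omega : 1 ≤ d) hev hmax'
  have hshift : Tendsto (fun q : ℕ => h + q) atTop atTop :=
    tendsto_atTop_mono (fun q => by omega : ∀ q : ℕ, q ≤ h + q) tendsto_id
  have hR1 : Tendsto (fun q : ℕ => (cMax L (h + q) : ℝ) / ((h + q : ℕ) : ℝ) ^ d) atTop
      (𝓝 (Gam L d)) := hG.comp hshift
  have hinv : Tendsto (fun q : ℕ => (1 : ℝ) / (q : ℝ)) atTop (𝓝 0) :=
    tendsto_one_div_atTop_nhds_zero_nat
  have hR2 : Tendsto (fun q : ℕ => (((h + q : ℕ) : ℝ)) / (q : ℝ)) atTop (𝓝 1) := by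
    have h1 : Tendsto (fun q : ℕ => (h : ℝ) * (1 / (q : ℝ)) + 1) atTop (𝓝 ((h : ℝ) * 0 + 1)) :=
      (hinv.const_mul _).add tendsto_const_nhds
    rw [mul_zero, zero_add] at h1
    refine h1.congr' ?_
    filter_upwards [eventually_gt_atTop 0] with q hq
    have hq' : (0 : ℝ) < (q : ℝ) := by exact_mod_cast hq
    push_cast
    field_simp
  have hR : Tendsto (fun q : ℕ => (cMax L (h + q) : ℝ) / ((h + q : ℕ) : ℝ) ^ d *
      ((((h + q : ℕ) : ℝ)) / (q : ℝ)) ^ d) atTop (𝓝 (Gam L d)) := by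
    have := hR1.mul (hR2.pow d)
    rwa [one_pow, mul_one] at this
  have hwlim : ∀ i, Tendsto (fun q : ℕ => max 0 (w i - ((d : ℝ) + 1) / (q : ℝ))) atTop
      (𝓝 (w i)) := by
    intro i
    have h1 : Tendsto (fun q : ℕ => w i - ((d : ℝ) + 1) * (1 / (q : ℝ))) atTop
        (𝓝 (w i - ((d : ℝ) + 1) * 0)) := tendsto_const_nhds.sub (hinv.const_mul _)
    rw [mul_zero, sub_zero] at h1
    have h2 : Tendsto (fun q : ℕ => max 0 (w i - ((d : ℝ) + 1) * (1 / (q : ℝ)))) atTop
        (𝓝 (max 0 (w i))) := tendsto_const_nhds.max h1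
    rw [max_eq_right (hwn i)] at h2
    refine h2.congr fun q => ?_
    rw [mul_one_div]
  have hL : Tendsto (fun q : ℕ => wval l d G c
      (fun i => max 0 (w i - ((d : ℝ) + 1) / (q : ℝ)))) atTop (𝓝 (wval l d G c w)) := by
    unfold wval
    apply Tendsto.div_const
    apply tendsto_finsetSum
    intro f _
    apply tendsto_finsetProd
    intro i _
    unfold aw
    apply tendsto_finsetSum
    intro k _
    exact (hwlim k).mul_const _
  refine le_of_tendsto_of_tendsto hL hR ?_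
  filter_upwards [eventually_gt_atTop 0] with q hq
  exact key q hq

theorem Gam_le {L : Finset ℕ} {l d : ℕ} (hl : 2 ≤ l) (hd : 2 ≤ d)
    (hev : ∀ x ∈ L, Even x → 2 * l ≤ x) (hmax : ∀ x ∈ L, x ≤ d * l) {B : ℝ}
    (h : ∀ (N : ℕ) (G : SimpleGraph (Fin N)) (c : Fin N → ℕ) (w : ℕ → ℝ), Valid L G c →
      Feas c w → wval l d G c w ≤ B) : Gam L d ≤ B := by
  classical
  have : NeZero d := ⟨by omega⟩
  have hd0 : (0 : ℝ) < 2 * (d : ℝ) := by
    have : (0 : ℝ) < (d : ℝ) := by exact_mod_cast (by omega : 0 < d)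
    linarith
  have hv0 : Valid L (⊥ : SimpleGraph (Fin 0)) (fun _ => 0) := by
    refine ⟨fun u => u.elim0, fun M => ?_⟩
    rw [isLCycle_iff]
    intro m f _ _
    exact (f 0).1.1.elim0
  have hB : 0 ≤ B := by
    refine le_trans ?_ (h 0 ⊥ (fun _ => 0) (fun _ => 0) hv0 ⟨rfl, fun _ => le_rfl, by simp⟩)
    rw [val_eq]
    exact div_nonneg (wz_nonneg fun _ => le_rfl) hd0.le
  refine csSup_le ⟨_, 0, ⊥, fun _ => 0, hv0.1, hv0.2, rfl⟩ ?_
  rintro r ⟨N, G, c, hc, hv, rfl⟩
  rcases Nat.eq_zero_or_pos {v | c v ≠ 0}.ncard with hp | hp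
  · rw [hp, Nat.cast_zero, zero_pow (by omega), div_zero]
    exact hB
  · obtain ⟨p, hpe⟩ : ∃ p : ℕ, p = {v | c v ≠ 0}.ncard := ⟨_, rfl⟩
    rw [← hpe] at hp ⊢
    have hp' : (0 : ℝ) < (p : ℝ) := by exact_mod_cast hp
    have hfeas : Feas c (fun i => (1 / (p : ℝ)) * (if i = 0 then 0 else 1)) := by
      refine ⟨by simp, fun i => ?_, ?_⟩
      · show (0 : ℝ) ≤ (1 / (p : ℝ)) * (if i = 0 then 0 else 1)
        split_ifs
        · simp
        · positivity
      · rw [← Finset.mul_sum]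
        have e1 : ∑ v, (if c v = 0 then (0 : ℝ) else 1) = (p : ℝ) := by
          rw [hpe, Set.ncard_eq_toFinset_card', Finset.card_eq_sum_ones, Nat.cast_sum,
            Set.toFinset_ofPred, Finset.sum_filter]
          refine Finset.sum_congr rfl fun v _ => ?_
          by_cases hcv : c v = 0
          · simp [hcv]
          · simp [hcv]
        rw [e1]
        rw [one_div, inv_mul_cancel₀ hp'.ne']
    have h1 := cyU (V := Fin N) (L := L) (G := G) (c := c) ⟨hc, hv⟩ hl hd hev hmax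
    have h2 := h N G c _ ⟨hc, hv⟩ hfeas
    rw [wval_smul, val_eq] at h2
    refine le_trans ?_ h2
    have h3 : ((dcyc d G c).ncard : ℝ) ≤ wz l d G c (fun i => if i = 0 then 0 else 1) / (2 * d) := by
      rw [le_div_iff₀ hd0]
      linarith
    calc ((dcyc d G c).ncard : ℝ) / (p : ℝ) ^ d = (1 / (p : ℝ)) ^ d * ((dcyc d G c).ncard : ℝ) := by
          rw [one_div, inv_pow, div_eq_inv_mul]
      _ ≤ _ := mul_le_mul_of_nonneg_left h3 (by positivity)

end H46.CZ
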