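import Pool.Agent.H46.CZ.Red
import Pool.Agent.H46.CZ.Gmw

/-!
# CZ.Fmx : the supremum is a finite maximum
-/

namespace H46.CZ

open Pool.Agent.H3.LC H46.CY

theorem fin_max {L : Finset ℕ} {l d : ℕ} (hl : 2 ≤ l) (hd : 2 ≤ d)
    (hev : ∀ x ∈ L, Even x → 2 * l ≤ x) (hmax : ∀ x ∈ L, x ≤ d * l) :
    IsGreatest {r : ℝ | ∃ N ≤ bnd l d, ∃ (G : SimpleGraph (Fin N)) (c : Fin N → ℕ) (w : ℕ → ℝ),
      (∀ v, c v ≤ N) ∧ Valid L G c ∧ Feas c w ∧ r = wval l d G c w} (Gam L d) := by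
  obtain ⟨r, hr⟩ := exists_max L l d (bnd l d)
  have h1 : r ≤ Gam L d := by
    obtain ⟨N, hN, G, c, w, hc, hV, hw, rfl⟩ := hr.1
    exact wval_le_Gam hV hl hd hev hmax hw
  have h2 : Gam L d ≤ r := by
    refine Gam_le hl hd hev hmax fun N G c w hV hw => ?_
    obtain ⟨N', hN', G', c', w', h3, h4, h5, h6⟩ := reduce hV hl hd hev hmax hw
    exact h6.trans (hr.2 ⟨N', hN', G', c', w', h3, h4, h5, rfl⟩)
  rw [le_antisymm h2 h1]
  exact hr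

end H46.CZ
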