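import Pool.Agent.H46.CZ.Hub

/-!
# CZ.Hbc : an optimal template uses at most d ^ 2 hubs (about 100 lines)

Let `X` be the set of the `x` in the range of some `F` with `PC l G c w F`. By `hub_mass` `X.ncard / d ≤ ∑ x ∈ X, am G c w x = ∑ v, w (c v) * #{x ∈ X : c v is attached to x}` (swap the sums). For every `v` with `w (c v) > 0` (then `c v ≠ 0`) the hypothesis `hpr` gives `F` with `PC` and a list in `LP l G c (F i) (F (i + 1)) (c v)`; by `hub_mem`
(`pc_chn`, `CConn`) every `x ∈ X` (`c x = 0`) attached to the colour `c v` is in the range of `F`, so there are at most `d` of them. So the sum is at most `d * ∑ v, w (c v) ≤ d`, `X.ncard ≤ d ^ 2`.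
-/

namespace H46.CZ

open Pool.Agent.H3.LC H46.CY

theorem hub_card {V : Type} [Fintype V] {L : Finset ℕ} {G : SimpleGraph V} {c : V → ℕ} {l d : ℕ}
    [NeZero d] (hV : Valid L G c) (hl : 2 ≤ l) (hd : 2 ≤ d) (hev : ∀ x ∈ L, Even x → 2 * l ≤ x)
    (hmax : ∀ x ∈ L, x ≤ d * l) (hC : CConn G c) {w : ℕ → ℝ} (hw : Feas c w)
    (hopt : ∀ w', Feas c w' → wval l d G c w' ≤ wval l d G c w)
    (hpr : ∀ j, 0 < w j → ∃ F : ZMod d → V, PC l G c w F ∧
      ∃ i, (LP l G c (F i) (F (i + 1)) j).Nonempty) :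
    {x | ∃ F : ZMod d → V, PC l G c w F ∧ x ∈ Set.range F}.ncard ≤ d ^ 2 := by
  classical
  set X : Set V := {x | ∃ F : ZMod d → V, PC l G c w F ∧ x ∈ Set.range F} with hX
  have hXf : X.Finite := Set.toFinite X
  set S : Finset V := hXf.toFinset with hS
  have hmem : ∀ x, x ∈ S ↔ ∃ F : ZMod d → V, PC l G c w F ∧ x ∈ Set.range F := by
    intro x
    rw [hS, Set.Finite.mem_toFinset]
    rfl
  have hd0 : (0 : ℝ) < d := by
    have : 0 < d := by omega
    exact_mod_cast this
  have h1 : ∀ x ∈ S, 1 / (d : ℝ) ≤ am G c w x := by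
    intro x hx
    obtain ⟨F, hF, k, rfl⟩ := (hmem x).1 hx
    exact hub_mass hV hl hd hev hmax hC hw hopt hF k
  have h2 : ∀ v, ∑ x ∈ S, (if ∃ u, c u = c v ∧ G.Adj u x then w (c v) else 0) ≤ d * w (c v) := by
    intro v
    rcases (hw.2.1 (c v)).eq_or_lt with h0 | hpos
    · rw [← h0]
      simp
    · have hcv : c v ≠ 0 := by
        intro h
        rw [h, hw.1] at hpos
        exact lt_irrefl _ hpos
      obtain ⟨F, hF, i, s, hs⟩ := hpr (c v) hpos
      rw [← Finset.sum_filter, Finset.sum_const, nsmul_eq_mul]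
      refine mul_le_mul_of_nonneg_right ?_ hpos.le
      have hsub : S.filter (fun x => ∃ u, c u = c v ∧ G.Adj u x) ⊆ Finset.univ.image F := by
        intro x hx
        rw [Finset.mem_filter] at hx
        obtain ⟨hxS, u, hu, hux⟩ := hx
        obtain ⟨F', hF', k', hk'⟩ := (hmem x).1 hxS
        have hcx : c x = 0 := by
          rw [← hk']
          exact hF'.1.2 k'
        obtain ⟨v₀, hv₀⟩ : ∃ v₀, v₀ ∈ s := by
          have hlen := hs.2.1
          rcases s with _ | ⟨a, t⟩
          · simp at hlen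
            omega
          · exact ⟨a, List.mem_cons_self⟩
        have hcv₀ : c v₀ = c v := hs.2.2 v₀ hv₀
        have hcon : Con G c v₀ u := hC v₀ u (hcv₀.trans hu.symm) (by rw [hcv₀]; exact hcv)
        obtain ⟨k, hk⟩ := hub_mem hV hl hd hmax (pc_chn hw.1 hw.2.1 hF) hcv hs hv₀ hcon hux hcx
        rw [Finset.mem_image]
        exact ⟨k, Finset.mem_univ _, hk⟩
      have h3 := (Finset.card_le_card hsub).trans Finset.card_image_le
      rw [Finset.card_univ, ZMod.card] at h3
      exact_mod_cast h3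
  have h4 : (S.card : ℝ) * (1 / d) ≤ d := by
    calc (S.card : ℝ) * (1 / d) = ∑ _x ∈ S, 1 / (d : ℝ) := by
          rw [Finset.sum_const, nsmul_eq_mul]
      _ ≤ ∑ x ∈ S, am G c w x := Finset.sum_le_sum h1
      _ = ∑ v, ∑ x ∈ S, (if ∃ u, c u = c v ∧ G.Adj u x then w (c v) else 0) := by
          unfold am
          rw [Finset.sum_comm]
      _ ≤ ∑ v, (d : ℝ) * w (c v) := Finset.sum_le_sum fun v _ => h2 v
      _ = d * ∑ v, w (c v) := by rw [Finset.mul_sum]
      _ ≤ d * 1 := mul_le_mul_of_nonneg_left hw.2.2 hd0.le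
      _ = d := mul_one _
  have h5 : (S.card : ℝ) ≤ (d : ℝ) ^ 2 := by
    rw [mul_one_div, div_le_iff₀ hd0] at h4
    rw [sq]
    exact h4
  have h6 : S.card ≤ d ^ 2 := by exact_mod_cast h5
  rw [Set.ncard_eq_toFinset_card X hXf]
  exact h6

end H46.CZ
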