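import Mathlib

/-!
# CZ.Num : an inequality (about 70 lines)

Suppose `M < 1 / d`, let `μ = d M < 1`, `V = P + Q > 0`. `(1 - M) ^ d ≤ 1 - d M + (d M) ^ 2 / 2` (`(1 - M) ^ d ≤ exp (- μ) ≤ 1 - μ + μ ^ 2 / 2`, or by induction on `d` for `0 ≤ M ≤ 1`), so `P = V - Q ≥ V (μ - μ ^ 2 / 2)`. With `t = 1 - μ ∈ (0, 1)`: `(1 + t M) ^ d ≤ exp (t μ) ≤ 1 + t μ + (t μ) ^ 2` (`t μ ≤ 1`: `Real.abs_exp_sub_one_sub_id_le` or
`Real.exp_bound'`). `h1` for this `t` is `V + (2 t + t ^ 2) P ≤ V (1 + t M) ^ d`, so `(2 t + t ^ 2) (μ - μ ^ 2 / 2) ≤ t μ + (t μ) ^ 2`; divide by `t μ > 0`: `(2 + t) (1 - μ / 2) ≤ 1 + t μ`, i.e. `2 + t - μ - t μ / 2 ≤ 1 + t μ`, `1 - μ + t ≤ 3 t μ / 2`; with `1 - μ = t`: `2 ≤ 3 μ / 2`, so `μ ≥ 4 / 3`: contradiction.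
-/

namespace H46.CZ

private theorem num_a {x : ℝ} (h0 : 0 ≤ x) (h1 : x ≤ 1) : Real.exp x ≤ 1 + x + x ^ 2 := by
  have := Real.abs_exp_sub_one_sub_id_le (x := x) (by rw [abs_of_nonneg h0]; exact h1)
  have h := (abs_le.1 this).2
  linarith

private theorem num_b {x : ℝ} (h0 : 0 ≤ x) : Real.exp (-x) ≤ 1 - x + x ^ 2 / 2 := by
  have h1 : 1 + x + x ^ 2 / 2 ≤ Real.exp x := Real.quadratic_le_exp_of_nonneg h0
  have h2 : 0 < 1 + x + x ^ 2 / 2 := by positivity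
  rw [Real.exp_neg]
  have h3 : (Real.exp x)⁻¹ ≤ (1 + x + x ^ 2 / 2)⁻¹ := by
    apply inv_anti₀ h2 h1
  refine h3.trans ?_
  rw [inv_le_iff_one_le_mul₀ h2]
  nlinarith [sq_nonneg x, sq_nonneg (x ^ 2)]

theorem num {d : ℕ} (hd : 2 ≤ d) {M P Q : ℝ} (hM : 0 < M) (hM1 : M ≤ 1) (hP : 0 ≤ P)
    (hQ : 0 ≤ Q) (hV : 0 < P + Q)
    (h1 : ∀ t : ℝ, 0 ≤ t → Q + (1 + t) ^ 2 * P ≤ (P + Q) * (1 + t * M) ^ d)
    (h2 : Q ≤ (P + Q) * (1 - M) ^ d) : 1 / (d : ℝ) ≤ M := by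
  have hd0 : (0 : ℝ) < d := by
    have : 0 < d := by omega
    exact_mod_cast this
  by_contra hcon
  push Not at hcon
  have hmu1 : (d : ℝ) * M < 1 := by
    rw [lt_div_iff₀ hd0] at hcon
    linarith
  set μ : ℝ := d * M with hμ
  have hmu0 : 0 < μ := by positivity
  have e1 : (1 - M) ^ d ≤ 1 - μ + μ ^ 2 / 2 := by
    have a1 : (1 - M) ^ d ≤ Real.exp (-M) ^ d := by
      apply pow_le_pow_left₀ (by linarith)
      have := Real.add_one_le_exp (-M)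
      linarith
    rw [← Real.exp_nat_mul] at a1
    have a2 := num_b (x := μ) hmu0.le
    have a3 : (d : ℝ) * -M = -μ := by rw [hμ]; ring
    rw [a3] at a1
    exact a1.trans a2
  have e2 : (P + Q) * (μ - μ ^ 2 / 2) ≤ P := by
    have := mul_le_mul_of_nonneg_left e1 hV.le
    nlinarith
  set t : ℝ := 1 - μ with ht
  have ht0 : 0 < t := by rw [ht]; linarith
  have e3 : (1 + t * M) ^ d ≤ 1 + t * μ + (t * μ) ^ 2 := by
    have a1 : (1 + t * M) ^ d ≤ Real.exp (t * M) ^ d := by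
      apply pow_le_pow_left₀ (by positivity)
      have := Real.add_one_le_exp (t * M)
      linarith
    rw [← Real.exp_nat_mul] at a1
    have a3 : (d : ℝ) * (t * M) = t * μ := by rw [hμ]; ring
    rw [a3] at a1
    refine a1.trans (num_a (by positivity) ?_)
    nlinarith
  have e4 := h1 t ht0.le
  have e5 : (P + Q) + (2 * t + t ^ 2) * P ≤ (P + Q) * (1 + t * μ + (t * μ) ^ 2) := by
    have := mul_le_mul_of_nonneg_left e3 hV.le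
    nlinarith
  have e6 : (2 * t + t ^ 2) * ((P + Q) * (μ - μ ^ 2 / 2)) ≤ (2 * t + t ^ 2) * P :=
    mul_le_mul_of_nonneg_left e2 (by positivity)
  have e7 : (P + Q) * ((2 * t + t ^ 2) * (μ - μ ^ 2 / 2)) ≤ (P + Q) * (t * μ + (t * μ) ^ 2) := by
    nlinarith
  have e8 : (2 * t + t ^ 2) * (μ - μ ^ 2 / 2) ≤ t * μ + (t * μ) ^ 2 :=
    le_of_mul_le_mul_left e7 hV
  have e9 : (t * μ) * ((2 + t) * (1 - μ / 2)) ≤ (t * μ) * (1 + t * μ) := by nlinarith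
  have e10 : (2 + t) * (1 - μ / 2) ≤ 1 + t * μ := le_of_mul_le_mul_left e9 (by positivity)
  nlinarith

end H46.CZ
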