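import Pool.Agent.H46.CZ.Thd
import Pool.Agent.H46.CZ.Sym
import Pool.Agent.H46.CZ.Num

/-!
# CZ.Hub : the hubs of an optimal template carry mass at least 1 / d (about 220 lines)

Let `x = F k`, `M = am G c w x`; call a colour `j` attached if there is `u` with `c u = j`, `G.Adj u x`. `wz = P' + Q'`, the parts of the sum over `HC` with `x` in the range and not (`P = P' / (2 d)`, `Q = Q' / (2 d)`, `P + Q = wval`). (a) For `t ≥ 0` let `w_t i = (1 + t) w i` for attached `i`, `w i` for the others. The total weight is `∑ v, w (c v) + t M ≤ 1 + t M`,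
so `w_t / (1 + t M)` is feasible, `wval w_t ≤ (1 + t M) ^ d * wval w` (`wval_smul`, `hopt`). For `F' ∋ x`, `x = F' i`, the two factors `aw (F' (i - 1)) x`, `aw x (F' (i + 1))` (different indices `i - 1 ≠ i`, as `d ≥ 2`) are multiplied by exactly `1 + t` (if `LP l G c x y j` is not empty then `j` is attached: first member of the list, `2 ≤ l`), the others
do not decrease: `wval w_t ≥ Q + (1 + t) ^ 2 P`. (b) If `M < 1`: let `w_0 i = 0` for attached `i`, `w i` for the others, total weight `≤ 1 - M`, `w_0 / (1 - M)` feasible, `wval w_0 ≤ (1 - M) ^ d wval w`. If `PC l G c w F'` and `x` is not in the range of `F'` then no attached `j` with `w j > 0` has a list in `LP l G c (F' i) (F' (i + 1)) j`: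
otherwise `hub_mem` (`F'` is a closed chain by `pc_chn`; `CConn` gives `Con` from a member of the list to the vertex `u` of colour `j` adjacent to `x`) gives `x` in the range. So the products over such `F'` for `w` and `w_0` agree, `Q ≤ wval w_0`. (c) `0 < M`: `PC` for `F`, `0 < aw x (F (k + 1))` gives an attached `j` with `w j > 0`; `M ≤ 1`: `Feas`.
`0 < P + Q` because of `F`. If `M = 1` the claim is clear, otherwise `num`.
-/

namespace H46.CZ

open Pool.Agent.H3.LC H46.CY

private theorem lp_first {V : Type} {G : SimpleGraph V} {c : V → ℕ} {l : ℕ} (hl : 2 ≤ l) {x y : V}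
    {j : ℕ} {s : List V} (hs : s ∈ LP l G c x y j) : ∃ u, u ∈ s ∧ c u = j ∧ G.Adj x u := by
  obtain ⟨hP, hlen, hc⟩ := hs
  cases s with
  | nil => simp at hlen; omega
  | cons a s =>
    refine ⟨a, by simp, hc a (by simp), ?_⟩
    have h1 := hP.1
    rw [List.cons_append, List.isChain_cons_cons] at h1
    exact h1.1

private theorem att_of {V : Type} {G : SimpleGraph V} {c : V → ℕ} {l : ℕ} (hl : 2 ≤ l) {x y : V}
    {j : ℕ} (h : (LP l G c x y j).Nonempty) : ∃ u, c u = j ∧ G.Adj u x := by
  obtain ⟨s, hs⟩ := h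
  obtain ⟨u, -, h1, h2⟩ := lp_first hl hs
  exact ⟨u, h1, h2.symm⟩

/-- new weights bounded by the old ones times a constant -/
private theorem val_le {V : Type} [Fintype V] {G : SimpleGraph V} {c : V → ℕ} {l d : ℕ}
    [NeZero d] {w : ℕ → ℝ}
    (hopt : ∀ w', Feas c w' → wval l d G c w' ≤ wval l d G c w) {S : ℝ} (hS : 0 < S)
    {v : ℕ → ℝ} (h0 : v 0 = 0) (hv : ∀ i, 0 ≤ v i) (hsum : ∑ x, v (c x) ≤ S) :
    wval l d G c v ≤ wval l d G c w * S ^ d := by
  have hf : Feas c (fun i => S⁻¹ * v i) := by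
    refine ⟨by simp [h0], fun i => mul_nonneg (inv_nonneg.2 hS.le) (hv i), ?_⟩
    rw [← Finset.mul_sum, inv_mul_le_iff₀ hS, mul_one]
    exact hsum
  have h1 := hopt _ hf
  rw [wval_smul, inv_pow, inv_mul_le_iff₀ (pow_pos hS d)] at h1
  rw [mul_comm]
  exact h1

open Classical in
private theorem sum_ite_am {V : Type} [Fintype V] (G : SimpleGraph V) (c : V → ℕ) (w : ℕ → ℝ)
    (x : V) (a : ℝ) :
    ∑ v, (if ∃ u, c u = c v ∧ G.Adj u x then (1 + a) * w (c v) else w (c v)) =
      ∑ v, w (c v) + a * am G c w x := by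
  unfold am
  rw [Finset.mul_sum, ← Finset.sum_add_distrib]
  refine Finset.sum_congr rfl fun v _ => ?_
  split_ifs <;> ring

open Classical in
private theorem aw_att {V : Type} [Fintype V] {G : SimpleGraph V} {c : V → ℕ} {l : ℕ}
    (hl : 2 ≤ l) (w : ℕ → ℝ) (x y : V) (a : ℝ) :
    aw l G c (fun j => if ∃ u, c u = j ∧ G.Adj u x then a * w j else w j) x y =
      a * aw l G c w x y := by
  unfold aw
  rw [Finset.mul_sum]
  refine Finset.sum_congr rfl fun j _ => ?_
  by_cases h : (LP l G c x y j).Nonempty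
  · have h1 := att_of hl h
    simp only [h1, if_true]
    ring
  · rw [Set.not_nonempty_iff_eq_empty] at h
    rw [h]
    simp

open Classical in
private theorem part_a {V : Type} [Fintype V] {G : SimpleGraph V} {c : V → ℕ} {l d : ℕ}
    [NeZero d] (hl : 2 ≤ l) (hd : 2 ≤ d) {w : ℕ → ℝ} (hw : ∀ i, 0 ≤ w i) (x : V) {t : ℝ}
    (ht : 0 ≤ t) (F : ZMod d → V) (hF : ∃ i, F i = x) :
    (1 + t) ^ 2 * ∏ i, aw l G c w (F i) (F (i + 1)) ≤
      ∏ i, aw l G c (fun j => if ∃ u, c u = j ∧ G.Adj u x then (1 + t) * w j else w j) (F i)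
        (F (i + 1)) := by
  obtain ⟨i₀, hi₀⟩ := hF
  set v : ℕ → ℝ := fun j => if ∃ u, c u = j ∧ G.Adj u x then (1 + t) * w j else w j with hvdef
  have hne : i₀ - 1 ≠ i₀ := by
    intro h
    have h1 : (1 : ZMod d) = 0 := by
      have := sub_eq_self.1 h
      exact this
    have : Fact (1 < d) := ⟨by omega⟩
    exact one_ne_zero h1
  have hprod : ∏ i : ZMod d, (if i ∈ ({i₀ - 1, i₀} : Finset (ZMod d)) then (1 + t) else 1) =
      (1 + t) ^ 2 := by
    rw [Finset.prod_ite_mem, Finset.univ_inter, Finset.prod_const, Finset.card_pair hne]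
  rw [← hprod, ← Finset.prod_mul_distrib]
  have hmono : ∀ j, w j ≤ v j := by
    intro j
    simp only [hvdef]
    split_ifs
    · nlinarith [hw j]
    · exact le_rfl
  refine Finset.prod_le_prod (fun i _ => ?_) (fun i _ => ?_)
  · refine mul_nonneg ?_ (aw_nonneg hw _ _)
    split_ifs <;> linarith
  · split_ifs with h
    · rw [Finset.mem_insert, Finset.mem_singleton] at h
      rcases h with rfl | rfl
      · rw [sub_add_cancel, hi₀, aw_symm, aw_symm v, hvdef, aw_att hl]
      · rw [hi₀, hvdef, aw_att hl]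
    · rw [one_mul]
      exact aw_mono hmono _ _

theorem hub_mass {V : Type} [Fintype V] {L : Finset ℕ} {G : SimpleGraph V} {c : V → ℕ} {l d : ℕ}
    [NeZero d] (hV : Valid L G c) (hl : 2 ≤ l) (hd : 2 ≤ d) (hev : ∀ x ∈ L, Even x → 2 * l ≤ x)
    (hmax : ∀ x ∈ L, x ≤ d * l) (hC : CConn G c) {w : ℕ → ℝ} (hw : Feas c w)
    (hopt : ∀ w', Feas c w' → wval l d G c w' ≤ wval l d G c w) {F : ZMod d → V}
    (hF : PC l G c w F) (k : ZMod d) : 1 / (d : ℝ) ≤ am G c w (F k) := by
  classical
  have _ := hev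
  obtain ⟨w0, wnn, wsum⟩ := hw
  set x := F k with hx
  have hcx : c x = 0 := hF.1.2 k
  set M := am G c w x with hMdef
  have hdR : (0 : ℝ) < 2 * d := by
    have : (0 : ℝ) < d := by exact_mod_cast (show 0 < d by omega)
    linarith
  -- total mass
  have hM1 : M ≤ 1 := by
    refine le_trans ?_ wsum
    rw [hMdef]
    unfold am
    refine Finset.sum_le_sum fun v _ => ?_
    split_ifs
    · exact le_rfl
    · exact wnn _
  have hM : 0 < M := by
    have h1 := pc_pos wnn hF k
    rw [aw_pos w0 wnn] at h1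
    obtain ⟨j, -, hj1, hj2, v, hv⟩ := h1
    have hatt := att_of hl hj2
    rw [hMdef]
    unfold am
    refine Finset.sum_pos' (fun v _ => ?_) ⟨v, Finset.mem_univ _, ?_⟩
    · split_ifs
      · exact wnn _
      · exact le_rfl
    · rw [hv, if_pos hatt]
      exact hj1
  rcases hM1.eq_or_lt with hM1' | hM1'
  · rw [hM1', div_le_one (by exact_mod_cast (show 0 < d by omega))]
    exact_mod_cast (show 1 ≤ d by omega)
  -- the two parts
  set prd : (ℕ → ℝ) → {F : ZMod d → V // F ∈ HC c d} → ℝ := fun v F' =>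
    ∏ i, aw l G c v (F'.1 i) (F'.1 (i + 1)) with hprd
  have hprd0 : ∀ v : ℕ → ℝ, (∀ i, 0 ≤ v i) → ∀ F', 0 ≤ prd v F' := fun v hv F' =>
    Finset.prod_nonneg fun i _ => aw_nonneg hv _ _
  have hwz : ∀ v : ℕ → ℝ, wz l d G c v =
      (∑ F' with ∃ i, F'.1 i = x, prd v F') + ∑ F' with ¬ ∃ i, F'.1 i = x, prd v F' := by
    intro v
    rw [Finset.sum_filter_add_sum_filter_not]
    rfl
  set P' := ∑ F' with ∃ i, F'.1 i = x, prd w F' with hP'
  set Q' := ∑ F' with ¬ ∃ i, F'.1 i = x, prd w F' with hQ'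
  have hPQ : wval l d G c w = P' / (2 * d) + Q' / (2 * d) := by
    rw [val_eq, hwz, add_div]
  have hP0 : 0 < P' := by
    rw [hP']
    refine Finset.sum_pos' (fun F' _ => hprd0 w wnn F') ⟨⟨F, hF.1⟩, ?_, ?_⟩
    · rw [Finset.mem_filter]
      exact ⟨Finset.mem_univ _, k, rfl⟩
    · exact hF.2
  have hQ0 : 0 ≤ Q' := Finset.sum_nonneg fun F' _ => hprd0 w wnn F'
  refine num hd hM hM1 (P := P' / (2 * d)) (Q := Q' / (2 * d)) (by positivity) (by positivity)
    (by positivity) ?_ ?_
  · intro t ht
    set v : ℕ → ℝ := fun j => if ∃ u, c u = j ∧ G.Adj u x then (1 + t) * w j else w j with hv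
    have hv0 : v 0 = 0 := by
      simp only [hv, w0]
      split_ifs <;> simp
    have hvn : ∀ i, 0 ≤ v i := by
      intro i
      simp only [hv]
      split_ifs
      · exact mul_nonneg (by linarith) (wnn i)
      · exact wnn i
    have hmono : ∀ j, w j ≤ v j := by
      intro j
      simp only [hv]
      split_ifs
      · nlinarith [wnn j]
      · exact le_rfl
    have hS : (0 : ℝ) < 1 + t * M := by positivity
    have hsum : ∑ y, v (c y) ≤ 1 + t * M := by
      simp only [hv]
      rw [sum_ite_am]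
      linarith
    have h1 := val_le (l := l) (d := d) (G := G) hopt hS hv0 hvn hsum
    rw [hPQ] at h1
    refine le_trans ?_ h1
    rw [val_eq, hwz, add_div, add_comm]
    have h2 : (1 + t) ^ 2 * P' ≤ ∑ F' with ∃ i, F'.1 i = x, prd v F' := by
      rw [hP', Finset.mul_sum]
      refine Finset.sum_le_sum fun F' hF' => ?_
      rw [Finset.mem_filter] at hF'
      exact part_a hl hd wnn x ht F'.1 hF'.2
    have h3 : Q' ≤ ∑ F' with ¬ ∃ i, F'.1 i = x, prd v F' := by
      rw [hQ']
      refine Finset.sum_le_sum fun F' _ => ?_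
      exact Finset.prod_le_prod (fun i _ => aw_nonneg wnn _ _) fun i _ => aw_mono hmono _ _
    have h4 : (1 + t) ^ 2 * (P' / (2 * d)) = (1 + t) ^ 2 * P' / (2 * d) := by ring
    rw [h4]
    gcongr
  · set v : ℕ → ℝ := fun j => if ∃ u, c u = j ∧ G.Adj u x then (1 + (-1)) * w j else w j with hv
    have hv0 : v 0 = 0 := by
      simp only [hv, w0]
      split_ifs <;> simp
    have hvn : ∀ i, 0 ≤ v i := by
      intro i
      simp only [hv]
      split_ifs
      · simp
      · exact wnn i
    have hS : (0 : ℝ) < 1 - M := by linarith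
    have hsum : ∑ y, v (c y) ≤ 1 - M := by
      simp only [hv]
      rw [sum_ite_am]
      linarith
    have h1 := val_le (l := l) (d := d) (G := G) hopt hS hv0 hvn hsum
    rw [hPQ] at h1
    refine le_trans ?_ h1
    rw [val_eq, hwz]
    have h2 : 0 ≤ ∑ F' with ∃ i, F'.1 i = x, prd v F' :=
      Finset.sum_nonneg fun F' _ => hprd0 v hvn F'
    have h3 : Q' ≤ ∑ F' with ¬ ∃ i, F'.1 i = x, prd v F' := by
      rw [hQ']
      refine Finset.sum_le_sum fun F' hF' => ?_
      rw [Finset.mem_filter] at hF'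
      rcases (hprd0 w wnn F').eq_or_lt with h0 | h0
      · rw [← h0]
        exact hprd0 v hvn F'
      · have hPC : PC l G c w F'.1 := ⟨F'.2, h0⟩
        have hch := pc_chn w0 wnn hPC
        apply le_of_eq
        refine Finset.prod_congr rfl fun i _ => ?_
        unfold aw
        refine Finset.sum_congr rfl fun j _ => ?_
        by_cases hne : (LP l G c (F'.1 i) (F'.1 (i + 1)) j).Nonempty
        · by_cases hj : w j = 0
          · simp only [hv, hj, mul_zero, ite_self]
          · have hj0 : j ≠ 0 := by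
              rintro rfl
              exact hj w0
            have hna : ¬ ∃ u, c u = j ∧ G.Adj u x := by
              rintro ⟨u, hu1, hu2⟩
              obtain ⟨s, hs⟩ := hne
              obtain ⟨a, ha1, ha2, -⟩ := lp_first hl hs
              have hcon : Con G c a u := hC a u (by rw [ha2, hu1]) (by rw [ha2]; exact hj0)
              exact hF'.2 (hub_mem hV hl hd hmax hch hj0 hs ha1 hcon hu2 hcx)
            simp only [hv, if_neg hna]
        · rw [Set.not_nonempty_iff_eq_empty] at hne
          rw [hne]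
          simp
    gcongr
    linarith

end H46.CZ
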