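import Pool.Agent.H46.CZ.Defs
import Pool.Agent.H46.CY.Pth
import Pool.Agent.H3.LC.Glue

/-!
# CZ.Lst : lists of inner vertices (proved)
-/

namespace H46.CZ

open Pool.Agent.H3.LC H46.CY

variable {V : Type} {G : SimpleGraph V}

theorem cyc_of_list {n : ℕ} [NeZero n] {a : V} {t : List V} (hn : (a :: t).length = n)
    (nd : (a :: t).Nodup) (hc : ((a :: t) ++ [a]).IsChain G.Adj) :
    ∃ f : ZMod n → V, IsCyc G f := by
  have hlt : ∀ i : ZMod n, i.val < (a :: t).length := fun i => by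
    rw [hn]
    exact ZMod.val_lt i
  refine ⟨fun i => (a :: t)[i.val]'(hlt i), ?_, ?_⟩
  · intro i j hij
    exact ZMod.val_injective n ((List.Nodup.getElem_inj_iff nd).mp hij)
  · intro i
    rw [List.isChain_iff_getElem] at hc
    have hi := ZMod.val_lt i
    have h1 := hc i.val (by
      rw [List.length_append, hn, List.length_singleton]
      omega)
    rw [List.getElem_append_left (hlt i)] at h1
    have hval : (i + 1).val = (i.val + 1) % n := by
      have := ZMod.val_add i ((1 : ℕ) : ZMod n)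
      rw [Nat.cast_one] at this
      rw [this, ← Nat.cast_one, ZMod.val_natCast, Nat.add_mod_mod]
    have h2 : ((a :: t) ++ [a])[i.val + 1]'(by
        rw [List.length_append, hn, List.length_singleton]
        omega) = (a :: t)[(i + 1).val]'(hlt (i + 1)) := by
      rcases Nat.lt_or_ge (i.val + 1) n with hlt' | hge
      · rw [List.getElem_append_left (by omega)]
        congr 1
        rw [hval, Nat.mod_eq_of_lt hlt']
      · have e1 : i.val + 1 = n := by omega
        have e2 : (i + 1).val = 0 := by rw [hval, e1, Nat.mod_self]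
        rw [List.getElem_append_right (by omega)]
        simp [e2]
    rw [h2] at h1
    exact h1

theorem pi_rev {a b : V} {s : List V} (h : PI G a b s) : PI G b a s.reverse := by
  obtain ⟨h1, h2, h3, h4⟩ := h
  refine ⟨?_, List.nodup_reverse.2 h2, by rwa [List.mem_reverse], by rwa [List.mem_reverse]⟩
  have e2 : b :: (s.reverse ++ [a]) = (a :: (s ++ [b])).reverse := by simp
  rw [e2, List.isChain_reverse]
  exact h1.imp fun x y hxy => hxy.symm

theorem pi_app {a b e : V} {s t : List V} (h1 : PI G a b s) (h2 : PI G b e t) (hab : a ≠ b)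
    (hbe : b ≠ e) (hd : ∀ x ∈ s, x ∉ t) (ha : a ∉ t) (he : e ∉ s) : PI G a e (s ++ b :: t) := by
  obtain ⟨a1, a2, a3, a4⟩ := h1
  obtain ⟨b1, b2, b3, b4⟩ := h2
  refine ⟨?_, ?_, ?_, ?_⟩
  · have e1 : a :: (s ++ b :: t ++ [e]) = (a :: s) ++ b :: (t ++ [e]) := by simp
    rw [e1, List.isChain_split]
    exact ⟨a1, b1⟩
  · rw [List.nodup_append, List.nodup_cons]
    refine ⟨a2, ⟨b3, b2⟩, ?_⟩
    intro x hx y hy hxy
    subst hxy
    rcases List.mem_cons.1 hy with rfl | hy
    · exact a4 hx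
    · exact hd x hx hy
  · simp only [List.mem_append, List.mem_cons, not_or]
    exact ⟨a3, hab, ha⟩
  · simp only [List.mem_append, List.mem_cons, not_or]
    exact ⟨he, hbe.symm, b4⟩

/-- the copy number `a` of `v` in the blow-up -/
def lf (c : V → ℕ) (M : ℕ) (a : Fin (M + 1)) (v : V) : BV c M :=
  if h : c v = 0 then ⟨(v, 0), fun _ => rfl⟩ else ⟨(v, a), fun h' => absurd h' h⟩

theorem lf_fst (c : V → ℕ) (M : ℕ) (a : Fin (M + 1)) (v : V) : (lf c M a v).1.1 = v := by
  unfold lf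
  split_ifs <;> rfl

theorem lf_snd {c : V → ℕ} {M : ℕ} {a : Fin (M + 1)} {v : V} (h : c v ≠ 0) :
    (lf c M a v).1.2 = a := by
  unfold lf
  rw [dif_neg h]

theorem lf_hub {c : V → ℕ} {M : ℕ} (a b : Fin (M + 1)) {v : V} (h : c v = 0) :
    lf c M a v = lf c M b v := by
  unfold lf
  rw [dif_pos h, dif_pos h]

theorem lf_inj {c : V → ℕ} {M : ℕ} {a b : Fin (M + 1)} {u v : V} (h : lf c M a u = lf c M b v) :
    u = v ∧ (c u ≠ 0 → a = b) := by
  have h1 : u = v := by
    rw [← lf_fst c M a u, h, lf_fst]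
  refine ⟨h1, fun h2 => ?_⟩
  rw [← lf_snd (a := a) h2, h, lf_snd (h1 ▸ h2)]

theorem lf_adj {c : V → ℕ} {M : ℕ} {a : Fin (M + 1)} {u v : V} (h : G.Adj u v) :
    (blow G c M).Adj (lf c M a u) (lf c M a v) := by
  refine ⟨by rwa [lf_fst, lf_fst], fun h1 h2 => ?_⟩
  rw [lf_fst] at h1 h2
  rw [lf_snd h1, lf_snd h2]

theorem pi_lift {c : V → ℕ} {M : ℕ} (i : Fin (M + 1)) {a b : V} {s : List V} (h : PI G a b s) :
    PI (blow G c M) (lf c M i a) (lf c M i b) (s.map (lf c M i)) := by
  obtain ⟨h1, h2, h3, h4⟩ := h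
  have hinj : Function.Injective (lf c M i) := fun u v h => (lf_inj h).1
  refine ⟨?_, h2.map hinj, ?_, ?_⟩
  · have e : lf c M i a :: (s.map (lf c M i) ++ [lf c M i b]) = (a :: (s ++ [b])).map (lf c M i) := by
      simp
    rw [e, List.isChain_map]
    exact h1.imp fun x y hxy => lf_adj hxy
  · rw [List.mem_map]
    rintro ⟨v, hv, hva⟩
    exact h3 (hinj hva ▸ hv)
  · rw [List.mem_map]
    rintro ⟨v, hv, hvb⟩
    exact h4 (hinj hvb ▸ hv)

/-- cycles of a valid template have lengths in `L` (copy `0`) -/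
theorem mem_of_cyc {L : Finset ℕ} {c : V → ℕ} (hV : Valid L G c) {m : ℕ} (hm : 3 ≤ m)
    {f : ZMod m → V} (hf : IsCyc G f) : m ∈ L := by
  have h := hV.2 0
  rw [isLCycle_iff] at h
  refine h m (fun i => lf c 0 0 (f i)) hm ⟨?_, ?_⟩
  · intro i k hik
    exact hf.1 (lf_inj hik).1
  · intro i
    exact lf_adj (hf.2 i)

end H46.CZ
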