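import Pool.Agent.H46.CZ.Sym

/-!
# CZ.Opt : optimal weights exist (about 90 lines)

`K`: the set of the `w : ℕ → ℝ` with `w i ∈ [0, 1]` for all `i`, `w 0 = 0`, `w i = 0` for `i ∉ univ.image c`, `∑ v, w (c v) ≤ 1`. It is compact: a closed subset of the product of the compact sets `[0, 1]` (`isCompact_univ_pi`), not empty (`w = 0`). `wval` is continuous on `ℕ → ℝ` (finite sums and products of coordinates: `continuity` / `fun_prop` after unfolding).
`IsCompact.exists_isMaxOn` gives `w` in `K`. For a feasible `w'` let `w'' i = w' i` if `i ∈ univ.image c` and `0` otherwise: `wval` is the same, `w'' i ≤ ∑ v, w' (c v) ≤ 1`, so `w'' ∈ K`.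
`exists_max`: for fixed `N` there are finitely many graphs on `Fin N` and finitely many `c` with all `c v ≤ N`. For every `(N, G, c)` with `N ≤ B`, `c v ≤ N`, `Valid L G c` take the maximal value; the maximum of these finitely many numbers (there is one: `N = 0`) is the greatest element (index the triples by a finite type:
`(N : Fin (B + 1)) × SimpleGraph (Fin N) × (Fin N → Fin (N + 1))`, `Finset.exists_max_image` or `Set.Finite` image).
-/

namespace H46.CZ

open Pool.Agent.H3.LC H46.CY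

theorem wval_continuous {V : Type} [Fintype V] (l d : ℕ) (G : SimpleGraph V) (c : V → ℕ) :
    Continuous (fun w : ℕ → ℝ => wval l d G c w) := by
  unfold wval aw
  fun_prop

theorem feas_le_one {V : Type} [Fintype V] {c : V → ℕ} {w : ℕ → ℝ} (h : Feas c w) {i : ℕ}
    (hi : i ∈ Finset.univ.image c) : w i ≤ 1 := by
  obtain ⟨v, -, rfl⟩ := Finset.mem_image.mp hi
  exact (Finset.single_le_sum (f := fun v => w (c v)) (fun v _ => h.2.1 (c v))
    (Finset.mem_univ v)).trans h.2.2

theorem exists_opt {V : Type} [Fintype V] (l d : ℕ) (G : SimpleGraph V) (c : V → ℕ) :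
    ∃ w, Feas c w ∧ ∀ w', Feas c w' → wval l d G c w' ≤ wval l d G c w := by
  set K : Set (ℕ → ℝ) := (Set.pi Set.univ fun _ : ℕ => Set.Icc (0 : ℝ) 1) ∩
    {w | w 0 = 0 ∧ ∑ v, w (c v) ≤ 1} with hK
  have hcl : IsClosed {w : ℕ → ℝ | w 0 = 0 ∧ ∑ v, w (c v) ≤ 1} := by
    have h1 : IsClosed {w : ℕ → ℝ | w 0 = 0} := isClosed_eq (by fun_prop) continuous_const
    have h2 : IsClosed {w : ℕ → ℝ | ∑ v, w (c v) ≤ 1} :=
      isClosed_le (by fun_prop) continuous_const
    exact h1.inter h2
  have hcomp : IsCompact K := (isCompact_univ_pi fun _ => isCompact_Icc).inter_right hcl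
  have hne : K.Nonempty := ⟨fun _ => 0, by
    refine ⟨fun i _ => by simp, ?_⟩
    simp⟩
  obtain ⟨w, hw, hmax⟩ := hcomp.exists_isMaxOn hne (wval_continuous l d G c).continuousOn
  have hfeas : Feas c w := ⟨hw.2.1, fun i => (hw.1 i (Set.mem_univ i)).1, hw.2.2⟩
  refine ⟨w, hfeas, fun w' h' => ?_⟩
  set w'' : ℕ → ℝ := fun i => if i ∈ Finset.univ.image c then w' i else 0 with hw''
  have hmem : ∀ i ∈ Finset.univ.image c, w'' i = w' i := fun i hi => by
    simp only [hw'', if_pos hi]
  have hval : wval l d G c w'' = wval l d G c w' := by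
    have haw : ∀ x y, aw l G c w'' x y = aw l G c w' x y := by
      intro x y
      unfold aw
      exact Finset.sum_congr rfl fun i hi => by rw [hmem i hi]
    unfold wval
    simp only [haw]
  have hK'' : w'' ∈ K := by
    refine ⟨fun i _ => ?_, ?_, ?_⟩
    · by_cases hi : i ∈ Finset.univ.image c
      · rw [hmem i hi]
        exact ⟨h'.2.1 i, feas_le_one h' hi⟩
      · simp only [hw'', if_neg hi]
        simp
    · by_cases hi : (0 : ℕ) ∈ Finset.univ.image c
      · rw [hmem 0 hi]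
        exact h'.1
      · simp only [hw'', if_neg hi]
    · have : ∑ v, w'' (c v) = ∑ v, w' (c v) :=
        Finset.sum_congr rfl fun v _ => hmem _ (Finset.mem_image_of_mem c (Finset.mem_univ v))
      rw [this]
      exact h'.2.2
  rw [← hval]
  exact hmax hK''

theorem exists_max (L : Finset ℕ) (l d B : ℕ) :
    ∃ r, IsGreatest {r : ℝ | ∃ N ≤ B, ∃ (G : SimpleGraph (Fin N)) (c : Fin N → ℕ) (w : ℕ → ℝ),
      (∀ v, c v ≤ N) ∧ Valid L G c ∧ Feas c w ∧ r = wval l d G c w} r := by
  classical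
  let T : Type := (N : Fin (B + 1)) × (SimpleGraph (Fin N) × (Fin N → Fin (N + 1)))
  haveI : Finite T := inferInstance
  let cc : (t : T) → Fin t.1 → ℕ := fun t v => (t.2.2 v : ℕ)
  choose W hW hWmax using fun t : T => exists_opt l d t.2.1 (cc t)
  let Q : Set T := {t | Valid L t.2.1 (cc t)}
  have hQ : Q.Nonempty := by
    refine ⟨⟨⟨0, Nat.succ_pos B⟩, ⊥, fun v => v.elim0⟩, ?_⟩
    refine ⟨fun u => u.elim0, fun M u => ?_⟩
    exact u.1.1.elim0
  obtain ⟨t, htQ, ht⟩ := Set.exists_max_image Q (fun t => wval l d t.2.1 (cc t) (W t))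
    (Set.toFinite Q) hQ
  refine ⟨wval l d t.2.1 (cc t) (W t), ⟨t.1, Nat.lt_succ_iff.mp t.1.2, t.2.1, cc t, W t, ?_, htQ,
    hW t, rfl⟩, ?_⟩
  · intro v
    exact Nat.lt_succ_iff.mp (t.2.2 v).2
  · rintro r ⟨N, hN, G, c, w, hc, hv, hf, rfl⟩
    let t' : T := ⟨⟨N, Nat.lt_succ_iff.mpr hN⟩, G, fun v => ⟨c v, Nat.lt_succ_iff.mpr (hc v)⟩⟩
    have h1 : wval l d G c w ≤ wval l d G c (W t') := hWmax t' w hf
    have h2 : wval l d G c (W t') ≤ wval l d t.2.1 (cc t) (W t) := ht t' hv
    exact h1.trans h2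

end H46.CZ
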