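import Pool.Agent.H46.CZ.Sym

/-!
# CZ.Prune : pieces which are not used (about 80 lines)

`w' j = w j` if `0 < w j` and there is `F` with `PC l G c w F` and some `i` with `LP l G c (F i) (F (i + 1)) j` not empty, otherwise `w' j = 0`. Then `0 ≤ w' ≤ w`. If `PC l G c w F` then `aw l G c w' (F i) (F (i + 1)) = aw l G c w (F i) (F (i + 1))` for all `i` (term by term: either `w j = 0`, or `LP` is empty, or `w' j = w j`), so the products agree. If not,
then the product for `w` is `0` (it is `≥ 0`) and the one for `w'` is between `0` and it. So `wz`, `wval` agree (`val_eq`) and `PC` for `w` and `w'` agree, which gives the last statement.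
-/

namespace H46.CZ

open Pool.Agent.H3.LC H46.CY

theorem prune {V : Type} [Fintype V] {G : SimpleGraph V} {c : V → ℕ} {l d : ℕ} [NeZero d]
    {w : ℕ → ℝ} (hw : Feas c w) :
    ∃ w', Feas c w' ∧ wval l d G c w' = wval l d G c w ∧
      ∀ j, 0 < w' j → ∃ F : ZMod d → V, PC l G c w' F ∧
        ∃ i, (LP l G c (F i) (F (i + 1)) j).Nonempty := by
  classical
  obtain ⟨h0, hn, hs⟩ := hw
  obtain ⟨P, hP⟩ : ∃ P : ℕ → Prop, ∀ j, P j ↔ (0 < w j ∧ ∃ F : ZMod d → V, PC l G c w F ∧
      ∃ i, (LP l G c (F i) (F (i + 1)) j).Nonempty) := ⟨_, fun _ => Iff.rfl⟩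
  obtain ⟨w', hw'⟩ : ∃ w' : ℕ → ℝ, ∀ j, w' j = if P j then w j else 0 := ⟨_, fun _ => rfl⟩
  have hle : ∀ j, w' j ≤ w j := by
    intro j
    rw [hw']
    split_ifs
    · exact le_rfl
    · exact hn j
  have hnn : ∀ j, 0 ≤ w' j := by
    intro j
    rw [hw']
    split_ifs
    · exact hn j
    · exact le_rfl
  have h00 : w' 0 = 0 := le_antisymm (h0 ▸ hle 0) (hnn 0)
  have haw : ∀ F : ZMod d → V, PC l G c w F → ∀ i,
      aw l G c w' (F i) (F (i + 1)) = aw l G c w (F i) (F (i + 1)) := by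
    intro F hF i
    unfold aw
    refine Finset.sum_congr rfl ?_
    intro j _
    by_cases he : (LP l G c (F i) (F (i + 1)) j).Nonempty
    · by_cases hj : 0 < w j
      · have : P j := (hP j).2 ⟨hj, F, hF, i, he⟩
        rw [hw', if_pos this]
      · have h1 : w j = 0 := le_antisymm (not_lt.1 hj) (hn j)
        have h2 : w' j = 0 := le_antisymm (h1 ▸ hle j) (hnn j)
        rw [h1, h2]
    · rw [Set.not_nonempty_iff_eq_empty] at he
      rw [he]
      simp
  have hprod : ∀ F : ZMod d → V, F ∈ HC c d →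
      ∏ i, aw l G c w' (F i) (F (i + 1)) = ∏ i, aw l G c w (F i) (F (i + 1)) := by
    intro F hF
    by_cases hpc : PC l G c w F
    · exact Finset.prod_congr rfl fun i _ => haw F hpc i
    · have h1 : 0 ≤ ∏ i, aw l G c w (F i) (F (i + 1)) :=
        Finset.prod_nonneg fun i _ => aw_nonneg hn _ _
      have h2 : ¬ 0 < ∏ i, aw l G c w (F i) (F (i + 1)) := fun h => hpc ⟨hF, h⟩
      have h3 : ∏ i, aw l G c w (F i) (F (i + 1)) = 0 := le_antisymm (not_lt.1 h2) h1
      have h4 : 0 ≤ ∏ i, aw l G c w' (F i) (F (i + 1)) :=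
        Finset.prod_nonneg fun i _ => aw_nonneg hnn _ _
      have h5 : ∏ i, aw l G c w' (F i) (F (i + 1)) ≤ ∏ i, aw l G c w (F i) (F (i + 1)) :=
        Finset.prod_le_prod (fun i _ => aw_nonneg hnn _ _) fun i _ => aw_mono hle _ _
      rw [h3] at h5 ⊢
      exact le_antisymm h5 h4
  refine ⟨w', ⟨h00, hnn, ?_⟩, ?_, ?_⟩
  · exact (Finset.sum_le_sum fun v _ => hle (c v)).trans hs
  · rw [val_eq, val_eq]
    congr 1
    unfold wz
    exact Finset.sum_congr rfl fun F _ => hprod F.1 F.2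
  · intro j hj
    have hPj : P j := by
      by_contra hn'
      rw [hw', if_neg hn'] at hj
      exact lt_irrefl _ hj
    obtain ⟨_, F, hF, i, hi⟩ := (hP j).1 hPj
    refine ⟨F, ⟨hF.1, ?_⟩, i, hi⟩
    rw [hprod F hF.1]
    exact hF.2

end H46.CZ
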