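import Pool.Agent.H46.CZ.Sym

/-!
# CZ.Rec : finer colourings (about 130 lines)

`c'` has the same hubs and its colour classes are parts of the colour classes of `c`, without edges between different ones (`Compat G c'`). `valid`: `V` is finite, let `K` be greater than all `c' v`. The map `BV c' M → BV c M'`, `M' = K * (M + 1)`, `(v, a) ↦ (v, c' v * (M + 1) + a)` for `c v ≠ 0` and `(v, 0)` for hubs is injective and preserves
adjacency of `blow` (for adjacent `u, v` outside the hubs `c' u = c' v` by `Compat G c'` and the copies agree), so every cyclic sequence of `blow G c' M` gives one of `blow G c M'` (`isLCycle_iff`). The sums over `v` agree by `hww`. `aw`: for `i ≠ 0` a colour of `c` the set `LP l G c x y i` is the disjoint union of the sets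
`LP l G c' x y i'` over the colours `i'` of `c'` with `i' = c' v`, `c v = i` (a list in `LP l G c x y i` is not empty (`2 ≤ l`), a chain, all its members have colour `i ≠ 0`, so by `Compat G c'` all have the same `c'`); `w' i' = w i`. So `aw l G c' w' = aw l G c w` (the terms `i = 0`, `i' = 0` vanish), and `wval` agrees (the subtypes
`{v // c v = 0}` and `{v // c' v = 0}` are in bijection by the identity; or through `wz`, `HC c d = HC c' d`, for `d ≠ 0`, and for `d = 0` both are `1 / 0`).
-/

namespace H46.CZ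

open Pool.Agent.H3.LC H46.CY

variable {V : Type} [Fintype V] {L : Finset ℕ} {G : SimpleGraph V} {c c' : V → ℕ} {l : ℕ}

open Classical in
/-- weight of a list of inner vertices: the weight of its colour if all members have one colour -/
private noncomputable def wt (c : V → ℕ) (w : ℕ → ℝ) : List V → ℝ
  | [] => 0
  | v :: t => if ∀ u ∈ t, c u = c v then w (c v) else 0

private theorem wt_pos {w : ℕ → ℝ} {v : V} {t : List V} (h : ∀ u ∈ t, c u = c v) :
    wt c w (v :: t) = w (c v) := if_pos h

private theorem wt_neg {w : ℕ → ℝ} {v : V} {t : List V} (h : ¬ ∀ u ∈ t, c u = c v) :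
    wt c w (v :: t) = 0 := if_neg h

private theorem pif [Finite V] (l : ℕ) (G : SimpleGraph V) (x y : V) :
    {s : List V | PI G x y s ∧ s.length + 1 = l}.Finite := by
  refine (List.finite_length_eq V (l - 1)).subset ?_
  rintro s ⟨_, h⟩
  show s.length = l - 1
  omega

private theorem aw_eq_sum (hl : 2 ≤ l) {w : ℕ → ℝ} (x y : V) :
    aw l G c w x y = ∑ s ∈ (pif l G x y).toFinset, wt c w s := by
  classical
  unfold aw
  have h1 : ∀ i : ℕ, ((LP l G c x y i).ncard : ℝ) =
      ∑ s ∈ (pif l G x y).toFinset, if ∀ v ∈ s, c v = i then (1 : ℝ) else 0 := by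
    intro i
    have hf : (LP l G c x y i) = (((pif l G x y).toFinset.filter fun s => ∀ v ∈ s, c v = i) :
        Finset (List V)) := by
      ext s
      simp only [LP, Set.mem_setOf_eq, Finset.coe_filter, Set.Finite.mem_toFinset]
      tauto
    rw [hf, Set.ncard_coe_finset, Finset.card_filter]
    push_cast
    rfl
  rw [Finset.sum_congr rfl fun i _ => by rw [h1 i, Finset.mul_sum], Finset.sum_comm]
  refine Finset.sum_congr rfl fun s hs => ?_
  rw [Set.Finite.mem_toFinset] at hs
  obtain ⟨_, hlen⟩ := hs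
  match s, hlen with
  | [], hlen => simp at hlen; omega
  | v :: t, _ =>
    rw [Finset.sum_eq_single (c v)]
    · by_cases h : ∀ u ∈ t, c u = c v
      · rw [wt_pos h, if_pos, mul_one]
        intro u hu
        rcases List.mem_cons.1 hu with rfl | hu
        · rfl
        · exact h u hu
      · rw [wt_neg h, if_neg, mul_zero]
        intro h'
        exact h fun u hu => h' u (List.mem_cons_of_mem _ hu)
    · intro i _ hi
      rw [if_neg, mul_zero]
      intro h'
      exact hi (h' v (List.mem_cons_self ..)).symm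
    · intro h
      exact absurd (Finset.mem_image_of_mem c (Finset.mem_univ v)) h

private theorem chain_col (hc' : Compat G c') : ∀ (t : List V) (v : V),
    (v :: t).IsChain G.Adj → c' v ≠ 0 → (∀ u ∈ t, c' u ≠ 0) → ∀ u ∈ t, c' u = c' v := by
  intro t
  induction t with
  | nil => intro v _ _ _ u hu; exact absurd hu (List.not_mem_nil)
  | cons b t ih =>
    intro v h hv ht u hu
    rw [List.isChain_cons_cons] at h
    have hb : c' b ≠ 0 := ht b (List.mem_cons_self ..)
    have hvb : c' v = c' b := hc' v b h.1 hv hb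
    rcases List.mem_cons.1 hu with rfl | hu
    · exact hvb.symm
    · rw [hvb]
      exact ih b h.2 hb (fun z hz => ht z (List.mem_cons_of_mem _ hz)) u hu

private theorem wt_eq (h0 : ∀ v, c' v = 0 ↔ c v = 0)
    (href : ∀ u v, c' u = c' v → c u = c v) (hc' : Compat G c') {w w' : ℕ → ℝ} (hw0 : w 0 = 0)
    (hw0' : w' 0 = 0) (hww : ∀ v, w' (c' v) = w (c v)) {x y : V} {s : List V}
    (hs : PI G x y s) : wt c' w' s = wt c w s := by
  classical
  match s, hs with
  | [], _ => rfl
  | v :: t, hs =>
    have hch : (v :: t).IsChain G.Adj := by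
      have := hs.1
      rw [List.cons_append] at this
      have h2 : (v :: (t ++ [y])).IsChain G.Adj := (List.isChain_cons_cons.1 this).2
      rw [← List.cons_append] at h2
      exact h2.left_of_append
    by_cases hcv : c v = 0
    · have hcv' : c' v = 0 := (h0 v).2 hcv
      have e1 : wt c w (v :: t) = 0 := by
        by_cases h : ∀ u ∈ t, c u = c v
        · rw [wt_pos h, hcv, hw0]
        · exact wt_neg h
      have e2 : wt c' w' (v :: t) = 0 := by
        by_cases h : ∀ u ∈ t, c' u = c' v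
        · rw [wt_pos h, hcv', hw0']
        · exact wt_neg h
      rw [e1, e2]
    · have hcv' : c' v ≠ 0 := fun h => hcv ((h0 v).1 h)
      by_cases h : ∀ u ∈ t, c u = c v
      · have h' : ∀ u ∈ t, c' u = c' v := chain_col hc' t v hch hcv' fun u hu hu0 => hcv (by
          rw [← h u hu]
          exact (h0 u).1 hu0)
        rw [wt_pos h, wt_pos h', hww]
      · have h' : ¬ ∀ u ∈ t, c' u = c' v := fun h'' => h fun u hu => href u v (h'' u hu)
        rw [wt_neg h, wt_neg h']

theorem rec_valid (hV : Valid L G c) (h0 : ∀ v, c' v = 0 ↔ c v = 0)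
    (href : ∀ u v, c' u = c' v → c u = c v) (hc' : Compat G c') : Valid L G c' := by
  classical
  refine ⟨hc', fun M => ?_⟩
  obtain ⟨K, hK⟩ : ∃ K : ℕ, ∀ v, c' v < K :=
    ⟨Finset.univ.sup c' + 1, fun v => Nat.lt_succ_of_le (Finset.le_sup (Finset.mem_univ v))⟩
  have hVM := hV.2 (K * (M + 1))
  rw [isLCycle_iff] at hVM ⊢
  intro m f hm hf
  have hlt : ∀ x : BV c' M, c' x.1.1 * (M + 1) + x.1.2.val < K * (M + 1) + 1 := by
    intro x
    have h1 : c' x.1.1 + 1 ≤ K := hK x.1.1
    have h2 : (c' x.1.1 + 1) * (M + 1) ≤ K * (M + 1) := Nat.mul_le_mul_right _ h1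
    have h3 := x.1.2.isLt
    rw [Nat.add_mul, one_mul] at h2
    omega
  let g : BV c' M → BV c (K * (M + 1)) := fun x =>
    ⟨(x.1.1, if c x.1.1 = 0 then 0 else ⟨c' x.1.1 * (M + 1) + x.1.2.val, hlt x⟩), fun h => by
      simp only [h, if_true]⟩
  have hg1 : ∀ x, (g x).1.1 = x.1.1 := fun x => rfl
  have hg2 : ∀ x, c x.1.1 ≠ 0 → (g x).1.2.val = c' x.1.1 * (M + 1) + x.1.2.val := by
    intro x hx
    show (if c x.1.1 = 0 then (0 : Fin (K * (M + 1) + 1))
      else ⟨c' x.1.1 * (M + 1) + x.1.2.val, hlt x⟩).val = _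
    rw [if_neg hx]
  have hginj : Function.Injective g := by
    intro x y hxy
    have e1 : x.1.1 = y.1.1 := by rw [← hg1 x, hxy, hg1]
    apply Subtype.ext
    apply Prod.ext e1
    by_cases hx : c x.1.1 = 0
    · have hy : c y.1.1 = 0 := e1 ▸ hx
      rw [x.2 ((h0 _).2 hx), y.2 ((h0 _).2 hy)]
    · have hy : c y.1.1 ≠ 0 := e1 ▸ hx
      have e2 := hg2 x hx
      rw [hxy, hg2 y hy, ← e1] at e2
      apply Fin.ext
      omega
  refine hVM m (fun i => g (f i)) hm ⟨?_, ?_⟩
  · exact hginj.comp hf.1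
  · intro i
    have ha := hf.2 i
    refine ⟨ha.1, fun h1 h2 => ?_⟩
    rw [hg1] at h1 h2
    have h1' : c' (f i).1.1 ≠ 0 := fun h => h1 ((h0 _).1 h)
    have h2' : c' (f (i + 1)).1.1 ≠ 0 := fun h => h2 ((h0 _).1 h)
    apply Fin.ext
    rw [hg2 _ h1, hg2 _ h2, hc' _ _ ha.1 h1' h2', ha.2 h1' h2']

theorem rec_aw (hl : 2 ≤ l) (h0 : ∀ v, c' v = 0 ↔ c v = 0)
    (href : ∀ u v, c' u = c' v → c u = c v) (hc' : Compat G c') {w w' : ℕ → ℝ} (hw0 : w 0 = 0)
    (hw0' : w' 0 = 0) (hww : ∀ v, w' (c' v) = w (c v)) (x y : V) :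
    aw l G c' w' x y = aw l G c w x y := by
  rw [aw_eq_sum hl, aw_eq_sum hl]
  refine Finset.sum_congr rfl fun s hs => ?_
  rw [Set.Finite.mem_toFinset] at hs
  exact wt_eq h0 href hc' hw0 hw0' hww hs.1

theorem rec_wval (hl : 2 ≤ l) (h0 : ∀ v, c' v = 0 ↔ c v = 0)
    (href : ∀ u v, c' u = c' v → c u = c v) (hc' : Compat G c') {w w' : ℕ → ℝ} (hw0 : w 0 = 0)
    (hw0' : w' 0 = 0) (hww : ∀ v, w' (c' v) = w (c v)) (d : ℕ) :
    wval l d G c' w' = wval l d G c w := by
  classical
  unfold wval
  congr 1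
  refine Fintype.sum_equiv ((Equiv.refl (Fin d)).embeddingCongr (Equiv.subtypeEquivRight h0)) _ _ ?_
  intro f
  refine Finset.prod_congr rfl fun i _ => ?_
  rw [rec_aw hl h0 href hc' hw0 hw0' hww]
  rfl

end H46.CZ
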