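import Pool.Agent.H46.CZ.Rec

/-!
# CZ.Sub : restriction to a set of vertices and transport to Fin N (about 200 lines)

Let `N = W.card`, `e : Fin N ≃ W` (`W.equivFin.symm`), `G₁ = G.comap (fun i => (e i).1)`, `c₁ i = c (e i).1`. `Valid L G₁ c₁`: the map `(i, a) ↦ ((e i).1, a)` from `BV c₁ M` to `BV c M` is injective and preserves adjacency (`isLCycle_iff`). `Feas c₁ w`: `∑ i, w (c (e i).1) = ∑ v ∈ W, w (c v) ≤ ∑ v, w (c v)`. Value: let `PC l G c w F`; by `hW` all `F i` are in `W`,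
so `F = (e ·).1 ∘ F₁` with `F₁ : ZMod d → Fin N`, and for `0 < w j` every `s ∈ LP l G c (F i) (F (i + 1)) j` is the image (`List.map`) of a list in `LP l G₁ c₁ (F₁ i) (F₁ (i + 1)) j` (its members are in `W`), so `aw l G c w (F i) (F (i + 1)) ≤ aw l G₁ c₁ w (F₁ i) (F₁ (i + 1))` (sum over the colours of `c`: those with `w j > 0` and `LP` not empty
are colours of `c₁`, `2 ≤ l`). The map `F ↦ F₁` is injective, so `wz l d G c w ≤ wz l d G₁ c₁ w` (terms without `PC` are `0`, the others `≥ 0`). Colours at most `N`: let `c' i = 0` if `c₁ i = 0`, otherwise `k + 1` with `k` the least element of `Fin N` with `c₁ k = c₁ i`; `w' (k + 1) = w (c₁ k)` for such `k < N` (`0` for the other numbers).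
`rec_valid`, `rec_wval`.
-/

namespace H46.CZ

open Pool.Agent.H3.LC H46.CY

private theorem sub_valid {U V : Type} [Fintype U] [Fintype V] {L : Finset ℕ} {G : SimpleGraph V}
    {c : V → ℕ} (hV : Valid L G c) {e : U → V} (he : Function.Injective e) :
    Valid L (G.comap e) (fun i => c (e i)) := by
  refine ⟨fun u v huv h1 h2 => hV.1 (e u) (e v) huv h1 h2, fun M => ?_⟩
  have h := hV.2 M
  rw [isLCycle_iff] at h ⊢
  intro m f hm hf
  refine h m (fun i => ⟨(e (f i).1.1, (f i).1.2), (f i).2⟩) hm ⟨?_, ?_⟩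
  · intro i k hik
    apply hf.1
    have h1 := congrArg (fun z => z.1) hik
    simp only [Prod.mk.injEq] at h1
    exact Subtype.ext (Prod.ext (he h1.1) h1.2)
  · intro i
    have h1 := hf.2 i
    exact ⟨h1.1, h1.2⟩

private theorem sub_aw {U V : Type} [Fintype U] [Fintype V] {G : SimpleGraph V} {c : V → ℕ} {l : ℕ}
    (hl : 2 ≤ l) {w : ℕ → ℝ} (hw : ∀ i, 0 ≤ w i) {e : U → V} (x y : U)
    (hx : ∀ j, 0 < w j → ∀ s ∈ LP l G c (e x) (e y) j, ∀ v ∈ s, v ∈ Set.range e) :
    aw l G c w (e x) (e y) ≤ aw l (G.comap e) (fun i => c (e i)) w x y := by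
  classical
  unfold aw
  have hsub : Finset.univ.image (fun i => c (e i)) ⊆ Finset.univ.image c := by
    intro j hj
    rw [Finset.mem_image] at hj ⊢
    obtain ⟨i, -, hi⟩ := hj
    exact ⟨e i, Finset.mem_univ _, hi⟩
  rw [← Finset.sum_subset hsub]
  · apply Finset.sum_le_sum
    intro j _
    rcases (hw j).eq_or_lt with h0 | h0
    · rw [← h0]
      simp
    · apply mul_le_mul_of_nonneg_left _ (hw j)
      have hfin : (LP l (G.comap e) (fun i => c (e i)) x y j).Finite := lp_finite _ _ _ _ _ _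
      have h1 : LP l G c (e x) (e y) j ⊆
          List.map e '' LP l (G.comap e) (fun i => c (e i)) x y j := by
        intro s hs
        have h2 : s ∈ Set.range (List.map e) := by
          rw [Set.range_list_map]
          exact fun v hv => hx j h0 s hs v hv
        obtain ⟨t, rfl⟩ := h2
        refine ⟨t, ?_, rfl⟩
        obtain ⟨⟨p1, p2, p3, p4⟩, q, r⟩ := hs
        refine ⟨⟨?_, ?_, ?_, ?_⟩, ?_, ?_⟩
        · have e1 : e x :: (t.map e ++ [e y]) = (x :: (t ++ [y])).map e := by simp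
          rw [e1, List.isChain_map] at p1
          exact p1
        · exact List.Nodup.of_map e p2
        · intro h
          exact p3 (List.mem_map_of_mem h)
        · intro h
          exact p4 (List.mem_map_of_mem h)
        · rwa [List.length_map] at q
        · intro v hv
          exact r (e v) (List.mem_map_of_mem hv)
      have h2 := Set.ncard_le_ncard h1 (hfin.image _)
      have h3 := Set.ncard_image_le (f := List.map e) hfin
      exact_mod_cast h2.trans h3
  · intro j _ hj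
    by_contra hne
    have hw0 : 0 < w j := (hw j).lt_of_ne (fun h => hne (by rw [← h, zero_mul]))
    have hne2 : (LP l G c (e x) (e y) j).Nonempty := by
      by_contra h
      rw [Set.not_nonempty_iff_eq_empty] at h
      apply hne
      rw [h]
      simp
    obtain ⟨s, hs⟩ := hne2
    have h1 := hs.2.1
    cases s with
    | nil => simp at h1; omega
    | cons v t =>
      obtain ⟨i, hi⟩ := hx j hw0 _ hs v List.mem_cons_self
      apply hj
      rw [Finset.mem_image]
      refine ⟨i, Finset.mem_univ _, ?_⟩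
      rw [hi]
      exact hs.2.2 v List.mem_cons_self

private theorem sub_wz {U V : Type} [Fintype U] [Fintype V] {G : SimpleGraph V} {c : V → ℕ}
    {l d : ℕ} [NeZero d] (hl : 2 ≤ l) {w : ℕ → ℝ} (hw : ∀ i, 0 ≤ w i) {e : U → V}
    (he : Function.Injective e)
    (hW : ∀ F : ZMod d → V, PC l G c w F → ∀ i, F i ∈ Set.range e ∧
      ∀ j, 0 < w j → ∀ s ∈ LP l G c (F i) (F (i + 1)) j, ∀ v ∈ s, v ∈ Set.range e) :
    wz l d G c w ≤ wz l d (G.comap e) (fun i => c (e i)) w := by
  classical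
  unfold wz
  let Φ : {F : ZMod d → U // F ∈ HC (fun i => c (e i)) d} → {F : ZMod d → V // F ∈ HC c d} :=
    fun F => ⟨fun i => e (F.1 i), fun i j hij => F.2.1 (he hij), fun i => F.2.2 i⟩
  have hΦ : Function.Injective Φ := by
    intro F F' h
    apply Subtype.ext
    funext i
    have h1 := congrArg (fun z => z.1 i) h
    exact he h1
  have hprod : ∀ F : ZMod d → V, 0 ≤ ∏ i, aw l G c w (F i) (F (i + 1)) := fun F =>
    Finset.prod_nonneg fun i _ => aw_nonneg hw _ _
  rw [← Fintype.sum_of_injective Φ hΦ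
    (fun F => ∏ i, aw l G c w ((Φ F).1 i) ((Φ F).1 (i + 1)))
    (fun F => ∏ i, aw l G c w (F.1 i) (F.1 (i + 1)))]
  · apply Finset.sum_le_sum
    intro F _
    rcases (hprod (Φ F).1).eq_or_lt with h0 | h0
    · rw [← h0]
      exact Finset.prod_nonneg fun i _ => aw_nonneg hw _ _
    · apply Finset.prod_le_prod
      · intro i _
        exact aw_nonneg hw _ _
      · intro i _
        exact sub_aw hl hw (F.1 i) (F.1 (i + 1))
          (hW (Φ F).1 ⟨(Φ F).2, h0⟩ i).2
  · intro F hF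
    by_contra hne
    apply hF
    have h0 : 0 < ∏ i, aw l G c w (F.1 i) (F.1 (i + 1)) := (hprod F.1).lt_of_ne (Ne.symm hne)
    have h1 : ∀ i, ∃ u, e u = F.1 i := fun i => (hW F.1 ⟨F.2, h0⟩ i).1
    choose f hf using h1
    refine ⟨⟨f, ?_, ?_⟩, ?_⟩
    · intro i j hij
      apply F.2.1
      rw [← hf i, ← hf j, hij]
    · intro i
      have := F.2.2 i
      rw [← hf i] at this
      exact this
    · apply Subtype.ext
      funext i
      exact hf i
  · intro F
    rfl

theorem subt {V : Type} [Fintype V] {L : Finset ℕ} {G : SimpleGraph V} {c : V → ℕ} {l d : ℕ}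
    [NeZero d] (hl : 2 ≤ l) (hV : Valid L G c) {w : ℕ → ℝ} (hw : Feas c w) (W : Finset V)
    (hW : ∀ F : ZMod d → V, PC l G c w F → ∀ i, F i ∈ W ∧
      ∀ j, 0 < w j → ∀ s ∈ LP l G c (F i) (F (i + 1)) j, ∀ v ∈ s, v ∈ W) :
    ∃ (G' : SimpleGraph (Fin W.card)) (c' : Fin W.card → ℕ) (w' : ℕ → ℝ),
      (∀ v, c' v ≤ W.card) ∧ Valid L G' c' ∧ Feas c' w' ∧
      wval l d G c w ≤ wval l d G' c' w' := by
  classical
  obtain ⟨hw0, hwn, hws⟩ := hw
  obtain ⟨e, he⟩ : ∃ e : Fin W.card → V, e = fun i => (W.equivFin.symm i).1 := ⟨_, rfl⟩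
  have hinj : Function.Injective e := by
    intro i j hij
    rw [he] at hij
    exact W.equivFin.symm.injective (Subtype.ext hij)
  have hran : ∀ v ∈ W, v ∈ Set.range e := by
    intro v hv
    refine ⟨W.equivFin ⟨v, hv⟩, ?_⟩
    rw [he]
    simp
  obtain ⟨c₁, hc₁⟩ : ∃ c₁ : Fin W.card → ℕ, c₁ = fun i => c (e i) := ⟨_, rfl⟩
  have hV₁ : Valid L (G.comap e) c₁ := by
    rw [hc₁]
    exact sub_valid hV hinj
  have hs₁ : ∑ v, w (c₁ v) ≤ 1 := by
    refine le_trans ?_ hws
    have h1 : ∑ v, w (c₁ v) = ∑ v ∈ Finset.univ.map ⟨e, hinj⟩, w (c v) := by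
      rw [Finset.sum_map, hc₁]
      rfl
    rw [h1]
    exact Finset.sum_le_sum_of_subset_of_nonneg (Finset.subset_univ _) fun v _ _ => hwn _
  have hz : wz l d G c w ≤ wz l d (G.comap e) c₁ w := by
    rw [hc₁]
    exact sub_wz hl hwn hinj fun F hF i => ⟨hran _ (hW F hF i).1, fun j hj s hs v hv =>
      hran v ((hW F hF i).2 j hj s hs v hv)⟩
  -- new colours
  obtain ⟨κ, hκ1, hκ2⟩ : ∃ κ : ℕ → Fin W.card → Fin W.card, (∀ m i, c₁ i = m → c₁ (κ m i) = m) ∧
      (∀ m i j, c₁ i = m → c₁ j = m → κ m i = κ m j) := by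
    refine ⟨fun m i => if h : ∃ k, c₁ k = m then Classical.choose h else i, ?_, ?_⟩
    · intro m i hi
      have h : ∃ k, c₁ k = m := ⟨i, hi⟩
      simp only [dif_pos h]
      exact Classical.choose_spec h
    · intro m i j hi hj
      have h : ∃ k, c₁ k = m := ⟨i, hi⟩
      simp only [dif_pos h]
  obtain ⟨c', hc'⟩ : ∃ c' : Fin W.card → ℕ, ∀ i, c' i = if c₁ i = 0 then 0 else
      (κ (c₁ i) i).val + 1 := ⟨_, fun _ => rfl⟩
  obtain ⟨w', hw'⟩ : ∃ w' : ℕ → ℝ, ∀ n, w' n = if h : n ≠ 0 ∧ n - 1 < W.card then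
      w (c₁ ⟨n - 1, h.2⟩) else 0 := ⟨_, fun _ => rfl⟩
  have h0 : ∀ v, c' v = 0 ↔ c₁ v = 0 := by
    intro v
    rw [hc']
    split_ifs with h
    · simp [h]
    · simp [h]
  have href : ∀ u v, c' u = c' v → c₁ u = c₁ v := by
    intro u v huv
    by_cases hu : c₁ u = 0
    · rw [hu]
      have := (h0 u).2 hu
      rw [huv] at this
      exact ((h0 v).1 this).symm
    · by_cases hv : c₁ v = 0
      · exfalso
        have := (h0 v).2 hv
        rw [← huv] at this
        exact hu ((h0 u).1 this)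
      · rw [hc', hc', if_neg hu, if_neg hv] at huv
        have h1 : κ (c₁ u) u = κ (c₁ v) v := Fin.ext (by omega)
        rw [← hκ1 (c₁ u) u rfl, h1, hκ1 (c₁ v) v rfl]
  have hcomp : Compat (G.comap e) c' := by
    intro u v huv hu hv
    have hu1 : c₁ u ≠ 0 := fun h => hu ((h0 u).2 h)
    have hv1 : c₁ v ≠ 0 := fun h => hv ((h0 v).2 h)
    have h1 := hV₁.1 u v huv hu1 hv1
    rw [hc', hc', if_neg hu1, if_neg hv1, h1, hκ2 (c₁ v) u v h1 rfl]
  have hw0' : w' 0 = 0 := by
    rw [hw', dif_neg]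
    simp
  have hww : ∀ v, w' (c' v) = w (c₁ v) := by
    intro v
    by_cases hv : c₁ v = 0
    · rw [(h0 v).2 hv, hw0', hv, hw0]
    · have h1 : c' v ≠ 0 ∧ c' v - 1 < W.card := by
        rw [hc', if_neg hv]
        refine ⟨by omega, ?_⟩
        rw [Nat.add_sub_cancel]
        exact (κ (c₁ v) v).2
      rw [hw', dif_pos h1]
      have h2 : (⟨c' v - 1, h1.2⟩ : Fin W.card) = κ (c₁ v) v := by
        apply Fin.ext
        simp only [hc', if_neg hv, Nat.add_sub_cancel]
      rw [h2, hκ1 (c₁ v) v rfl]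
  refine ⟨G.comap e, c', w', ?_, rec_valid hV₁ h0 href hcomp, ⟨hw0', ?_, ?_⟩, ?_⟩
  · intro v
    rw [hc']
    split_ifs with h
    · exact Nat.zero_le _
    · exact (κ (c₁ v) v).2
  · intro i
    rw [hw']
    split_ifs with h
    · exact hwn _
    · exact le_rfl
  · calc ∑ v, w' (c' v) = ∑ v, w (c₁ v) := Finset.sum_congr rfl fun v _ => hww v
      _ ≤ 1 := hs₁
  · rw [rec_wval hl h0 href hcomp hw0 hw0' hww d, val_eq, val_eq]
    exact div_le_div_of_nonneg_right hz (by positivity)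

end H46.CZ
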