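import Pool.Agent.H46.CZ.Cmp
import Pool.Agent.H46.CZ.Opt
import Pool.Agent.H46.CZ.Prune
import Pool.Agent.H46.CZ.Hbc
import Pool.Agent.H46.CZ.Car
import Pool.Agent.H46.CZ.Ess
import Pool.Agent.H46.CZ.Sub

/-!
# CZ.Red : every weighted template is at most as good as a small one
-/

namespace H46.CZ

open Pool.Agent.H3.LC H46.CY

variable {V : Type} [Fintype V] {L : Finset ℕ} {G : SimpleGraph V} {c : V → ℕ} {l d : ℕ}

private theorem sum_col [DecidableEq V] (w : ℕ → ℝ) :
    ∑ v, w (c v) = ∑ j ∈ Finset.univ.image c, w j * ({v | c v = j}.ncard : ℝ) := by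
  classical
  rw [← Finset.sum_fiberwise_of_maps_to (s := (Finset.univ : Finset V)) (t := Finset.univ.image c)
    (g := c) (fun v _ => Finset.mem_image_of_mem c (Finset.mem_univ v)) (fun v => w (c v))]
  refine Finset.sum_congr rfl fun j _ => ?_
  rw [Finset.sum_congr rfl (g := fun _ => w j) (fun v hv => by rw [(Finset.mem_filter.1 hv).2]),
    Finset.sum_const, nsmul_eq_mul, mul_comm]
  congr 2
  rw [← Set.ncard_coe_finset]
  congr 1
  ext v
  simp

/-- the main step: connected pieces, optimal pruned weights -/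
private theorem red_core [NeZero d] (hV : Valid L G c) (hl : 2 ≤ l) (hd : 2 ≤ d)
    (hev : ∀ x ∈ L, Even x → 2 * l ≤ x) (hmax : ∀ x ∈ L, x ≤ d * l) (hC : CConn G c) {w : ℕ → ℝ}
    (hw : Feas c w) (hopt : ∀ w', Feas c w' → wval l d G c w' ≤ wval l d G c w)
    (hpr : ∀ j, 0 < w j → ∃ F : ZMod d → V, PC l G c w F ∧
      ∃ i, (LP l G c (F i) (F (i + 1)) j).Nonempty) :
    ∃ N ≤ bnd l d, ∃ (G' : SimpleGraph (Fin N)) (c' : Fin N → ℕ) (w' : ℕ → ℝ),
      (∀ v, c' v ≤ N) ∧ Valid L G' c' ∧ Feas c' w' ∧ wval l d G c w ≤ wval l d G' c' w' := by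
  classical
  -- the used hubs
  set X : Set V := {x | ∃ F : ZMod d → V, PC l G c w F ∧ x ∈ Set.range F} with hX
  have hXc : X.ncard ≤ d ^ 2 := hub_card hV hl hd hev hmax hC hw hopt hpr
  -- Caratheodory
  set J : Finset ℕ := (Finset.univ.image c).filter (fun j => 0 < w j) with hJ
  have hm : ∀ j ∈ J, (0 : ℝ) < ({v | c v = j}.ncard : ℝ) := by
    intro j hj
    obtain ⟨v, -, hv⟩ := Finset.mem_image.1 (Finset.mem_filter.1 hj).1
    have : 0 < {v | c v = j}.ncard := by
      rw [Set.ncard_pos (Set.toFinite _)]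
      exact ⟨v, hv⟩
    exact_mod_cast this
  obtain ⟨w', hw'0, hw'J, hw'c, hw'm, hw'a⟩ := carat (ι := X × X) J
    (fun j => ({v | c v = j}.ncard : ℝ))
    (fun j p => ((LP l G c p.1.1 p.2.1 j).ncard : ℝ)) w hm hw.2.1
  have hz : ∀ j, j ∉ J → w' j = 0 := by
    intro j hj
    by_contra hne
    have : 0 < w' j := lt_of_le_of_ne (hw'0 j) (Ne.symm hne)
    exact hj (hw'J j this).1
  have hz2 : ∀ j ∈ Finset.univ.image c, j ∉ J → w j = 0 := by
    intro j hj hjJ
    by_contra hne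
    have : 0 < w j := lt_of_le_of_ne (hw.2.1 j) (Ne.symm hne)
    exact hjJ (Finset.mem_filter.2 ⟨hj, this⟩)
  have hJsub : J ⊆ Finset.univ.image c := Finset.filter_subset _ _
  have hfe : Feas c w' := by
    refine ⟨?_, hw'0, ?_⟩
    · by_contra hne
      have h1 : 0 < w' 0 := lt_of_le_of_ne (hw'0 0) (Ne.symm hne)
      have h2 := (hw'J 0 h1).2
      rw [hw.1] at h2
      exact lt_irrefl _ h2
    · rw [sum_col]
      have e1 : ∑ j ∈ Finset.univ.image c, w' j * ({v | c v = j}.ncard : ℝ) =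
          ∑ j ∈ J, w' j * ({v | c v = j}.ncard : ℝ) := by
        symm
        exact Finset.sum_subset hJsub fun j _ hj => by rw [hz j hj, zero_mul]
      have e2 : ∑ j ∈ Finset.univ.image c, w j * ({v | c v = j}.ncard : ℝ) =
          ∑ j ∈ J, w j * ({v | c v = j}.ncard : ℝ) := by
        symm
        exact Finset.sum_subset hJsub fun j h1 hj => by rw [hz2 j h1 hj, zero_mul]
      rw [e1, hw'm, ← e2, ← sum_col]
      exact hw.2.2
  have haw : ∀ x ∈ X, ∀ y ∈ X, aw l G c w' x y = aw l G c w x y := by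
    intro x hx y hy
    have h1 := hw'a (⟨x, hx⟩, ⟨y, hy⟩)
    simp only at h1
    unfold aw
    have e1 : ∑ j ∈ Finset.univ.image c, w' j * ((LP l G c x y j).ncard : ℝ) =
        ∑ j ∈ J, w' j * ((LP l G c x y j).ncard : ℝ) := by
      symm
      exact Finset.sum_subset hJsub fun j _ hj => by rw [hz j hj, zero_mul]
    have e2 : ∑ j ∈ Finset.univ.image c, w j * ((LP l G c x y j).ncard : ℝ) =
        ∑ j ∈ J, w j * ((LP l G c x y j).ncard : ℝ) := by
      symm
      exact Finset.sum_subset hJsub fun j h1 hj => by rw [hz2 j h1 hj, zero_mul]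
    rw [e1, e2]
    exact h1
  -- positive chains for `w'` are positive chains for `w`
  have hPC : ∀ F : ZMod d → V, PC l G c w' F → PC l G c w F := by
    intro F hF
    refine ⟨hF.1, Finset.prod_pos fun i _ => ?_⟩
    have h1 := pc_pos hw'0 hF i
    rw [aw_pos hfe.1 hw'0] at h1
    obtain ⟨j, hj, hwj, hL, hv⟩ := h1
    rw [aw_pos hw.1 hw.2.1]
    exact ⟨j, hj, (hw'J j hwj).2, hL, hv⟩
  have hmemX : ∀ F : ZMod d → V, PC l G c w F → ∀ i, F i ∈ X := fun F hF i => ⟨F, hF, i, rfl⟩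
  have hwval : wval l d G c w ≤ wval l d G c w' := by
    rw [val_eq, val_eq]
    refine div_le_div_of_nonneg_right ?_ (by positivity)
    unfold wz
    refine Finset.sum_le_sum fun F _ => ?_
    by_cases hF : PC l G c w F.1
    · refine le_of_eq (Finset.prod_congr rfl fun i _ => ?_)
      rw [haw _ (hmemX F.1 hF i) _ (hmemX F.1 hF (i + 1))]
    · have h1 : ∏ i, aw l G c w (F.1 i) (F.1 (i + 1)) = 0 := by
        by_contra hne
        apply hF
        refine ⟨F.2, lt_of_le_of_ne (Finset.prod_nonneg fun i _ => aw_nonneg hw.2.1 _ _)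
          (Ne.symm hne)⟩
      rw [h1]
      exact Finset.prod_nonneg fun i _ => aw_nonneg hw'0 _ _
  -- the set of vertices
  set S : Set ℕ := {j | 0 < w' j} with hS
  have hSfin : S.Finite := by
    refine (J.finite_toSet).subset fun j hj => (hw'J j hj).1
  set E : ℕ → Set V := fun j => {v | ∃ F : ZMod d → V, Chn l G c F ∧
    ∃ i, ∃ s ∈ LP l G c (F i) (F (i + 1)) j, v ∈ s} with hE
  have hEc : ∀ j ∈ S, (E j).ncard ≤ d ^ 2 * l := by
    intro j hj
    refine ess_card hV hl hd hev hmax hC ?_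
    rintro rfl
    have h2 : (0 : ℝ) < w' 0 := hj
    rw [hfe.1] at h2
    exact lt_irrefl _ h2
  set W : Finset V := X.toFinite.toFinset ∪ hSfin.toFinset.biUnion (fun j => (E j).toFinite.toFinset)
    with hW
  have hXcard : X.toFinite.toFinset.card ≤ d ^ 2 := by
    rw [← Set.ncard_eq_toFinset_card X X.toFinite]
    exact hXc
  have hScard : hSfin.toFinset.card ≤ d ^ 4 + 1 := by
    rw [← Set.ncard_eq_toFinset_card S hSfin]
    refine hw'c.trans ?_
    rw [Fintype.card_prod]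
    have h1 : Fintype.card X ≤ d ^ 2 := by
      rw [← Nat.card_eq_fintype_card]
      exact hXc
    have h2 : Fintype.card X * Fintype.card X ≤ d ^ 2 * d ^ 2 := Nat.mul_le_mul h1 h1
    have h3 : d ^ 2 * d ^ 2 = d ^ 4 := by ring
    omega
  have hWcard : W.card ≤ bnd l d := by
    refine (Finset.card_union_le _ _).trans ?_
    unfold bnd
    refine Nat.add_le_add hXcard ?_
    refine (Finset.card_biUnion_le).trans ?_
    refine (Finset.sum_le_card_nsmul _ _ (d ^ 2 * l) fun j hj => ?_).trans ?_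
    · rw [← Set.ncard_eq_toFinset_card (E j) (E j).toFinite]
      exact hEc j (hSfin.mem_toFinset.1 hj)
    · rw [smul_eq_mul]
      exact Nat.mul_le_mul_right _ hScard
  obtain ⟨G', c', w'', h1, h2, h3, h4⟩ := subt (d := d) hl hV hfe W (by
    intro F hF i
    refine ⟨?_, ?_⟩
    · rw [hW, Finset.mem_union]
      left
      rw [Set.Finite.mem_toFinset]
      exact hmemX F (hPC F hF) i
    · intro j hj s hs v hv
      rw [hW, Finset.mem_union]
      right
      rw [Finset.mem_biUnion]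
      refine ⟨j, hSfin.mem_toFinset.2 hj, ?_⟩
      rw [Set.Finite.mem_toFinset]
      exact ⟨F, pc_chn hfe.1 hw'0 hF, i, s, hs, hv⟩)
  exact ⟨W.card, hWcard, G', c', w'', h1, h2, h3, hwval.trans h4⟩

theorem reduce (hV : Valid L G c) (hl : 2 ≤ l) (hd : 2 ≤ d)
    (hev : ∀ x ∈ L, Even x → 2 * l ≤ x) (hmax : ∀ x ∈ L, x ≤ d * l) {w : ℕ → ℝ}
    (hw : Feas c w) :
    ∃ N ≤ bnd l d, ∃ (G' : SimpleGraph (Fin N)) (c' : Fin N → ℕ) (w' : ℕ → ℝ),
      (∀ v, c' v ≤ N) ∧ Valid L G' c' ∧ Feas c' w' ∧ wval l d G c w ≤ wval l d G' c' w' := by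
  have : NeZero d := ⟨by omega⟩
  obtain ⟨c₁, w₁, hV₁, hC₁, hw₁, hval₁⟩ := comp_col hl hV hw
  obtain ⟨w₂, hw₂, hopt₂⟩ := exists_opt l d G c₁
  obtain ⟨w₃, hw₃, hval₃, hpr₃⟩ := prune (l := l) (d := d) (G := G) hw₂
  obtain ⟨N, hN, G', c', w', h1, h2, h3, h4⟩ := red_core hV₁ hl hd hev hmax hC₁ hw₃
    (fun w' hw' => by rw [hval₃]; exact hopt₂ w' hw') hpr₃
  refine ⟨N, hN, G', c', w', h1, h2, h3, le_trans ?_ h4⟩
  rw [hval₃, ← hval₁ d]
  exact hopt₂ w₁ hw₁

end H46.CZ
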