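import Pool.Agent.H46.CZ.Chl

/-!
# CZ.Rpl : closed chains with one or two replaced paths
-/

namespace H46.CZ

open Pool.Agent.H3.LC H46.CY

variable {V : Type} {L : Finset ℕ} {G : SimpleGraph V} {c : V → ℕ} {l d : ℕ}

theorem chain_nat (hV : Valid L G c) {r : ℕ} (hr : 2 ≤ r) (F : ℕ → V) (s : ℕ → List V)
    (hinj : ∀ i j, i < r → j < r → F i = F j → i = j) (hc : ∀ i, i < r → c (F i) = 0)
    (hcl : F r = F 0)
    (hs : ∀ i, i < r → PI G (F i) (F (i + 1)) (s i) ∧ s i ≠ [] ∧ ∀ v ∈ s i, c v ≠ 0) :
    ∑ i ∈ Finset.range r, ((s i).length + 1) ∈ L := by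
  have : NeZero r := ⟨by omega⟩
  have h := chain_mem hV hr (F := fun i : ZMod r => F i.val) (s := fun i => s i.val)
    ⟨fun i j hij => ZMod.val_injective r (hinj _ _ (ZMod.val_lt i) (ZMod.val_lt j) hij),
      fun i => hc _ (ZMod.val_lt i)⟩ (fun i => by
        have hi := ZMod.val_lt i
        obtain ⟨h1, h2⟩ := hs i.val hi
        refine ⟨?_, h2⟩
        have h3 : F (i + 1).val = F (i.val + 1) := by
          have hval : (i + 1).val = (i.val + 1) % r := by
            have := ZMod.val_add i ((1 : ℕ) : ZMod r)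
            rw [Nat.cast_one] at this
            rw [this, ← Nat.cast_one, ZMod.val_natCast, Nat.add_mod_mod]
          rcases Nat.lt_or_ge (i.val + 1) r with h4 | h4
          · rw [hval, Nat.mod_eq_of_lt h4]
          · have h5 : i.val + 1 = r := by omega
            rw [hval, h5, Nat.mod_self, hcl]
        change PI G (F i.val) (F (i + 1).val) (s i.val)
        rw [h3]
        exact h1)
  rw [sum_zmod] at h
  have h2 : ∑ i ∈ Finset.range r, ((s ((i : ZMod r)).val).length + 1)
      = ∑ i ∈ Finset.range r, ((s i).length + 1) :=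
    Finset.sum_congr rfl fun i hi => by
      rw [ZMod.val_natCast_of_lt (Finset.mem_range.1 hi)]
  rwa [h2] at h

theorem twin_mem (hV : Valid L G c) {x y : V} (hxy : x ≠ y) (hx : c x = 0) (hy : c y = 0)
    {s : List V} (hs : PI G x y s) (hne : s ≠ []) (hc : ∀ v ∈ s, c v ≠ 0) :
    2 * (s.length + 1) ∈ L := by
  have h := chain_nat hV (le_refl 2) (fun n => if n = 1 then y else x)
    (fun n => if n = 0 then s else s.reverse) (fun i j hi hj hij => by
      interval_cases i <;> interval_cases j <;> simp_all) (fun i hi => by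
      interval_cases i <;> simp [hx, hy]) (by simp) (fun i hi => by
      interval_cases i
      · simpa using ⟨hs, hne, hc⟩
      · simpa using ⟨pi_rev hs, hne, hc⟩)
  simp only [Finset.sum_range_succ, Finset.range_zero, Finset.sum_empty, zero_add] at h
  simp only [if_true, one_ne_zero, if_false, List.length_reverse] at h
  rwa [two_mul]

theorem tri_mem (hV : Valid L G c) {x y z : V} (hxy : x ≠ y) (hyz : y ≠ z) (hzx : z ≠ x)
    (hx : c x = 0) (hy : c y = 0) (hz : c z = 0) {s₁ s₂ s₃ : List V} (h₁ : PI G x y s₁)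
    (h₂ : PI G y z s₂) (h₃ : PI G z x s₃) (n₁ : s₁ ≠ []) (n₂ : s₂ ≠ []) (n₃ : s₃ ≠ [])
    (c₁ : ∀ v ∈ s₁, c v ≠ 0) (c₂ : ∀ v ∈ s₂, c v ≠ 0) (c₃ : ∀ v ∈ s₃, c v ≠ 0) :
    (s₁.length + 1) + (s₂.length + 1) + (s₃.length + 1) ∈ L := by
  have h := chain_nat hV (show 2 ≤ 3 by norm_num)
    (fun n => if n = 1 then y else if n = 2 then z else x)
    (fun n => if n = 0 then s₁ else if n = 1 then s₂ else s₃) (fun i j hi hj hij => by
      interval_cases i <;> interval_cases j <;> simp_all [eq_comm]) (fun i hi => by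
      interval_cases i <;> simp [hx, hy, hz]) (by simp) (fun i hi => by
      interval_cases i
      · simpa using ⟨h₁, n₁, c₁⟩
      · simpa using ⟨h₂, n₂, c₂⟩
      · simpa using ⟨h₃, n₃, c₃⟩)
  simpa [Finset.sum_range_succ] using h

/-- an arc of a closed chain, closed by one path -/
theorem arc_one (hV : Valid L G c) (hl : 2 ≤ l) {F : ZMod d → V} (hF : Chn l G c F) (a : ZMod d)
    {m : ℕ} (hm : 1 ≤ m) (hmd : m < d) {s : List V} (hs : PI G (F (a + (m : ℕ))) (F a) s)
    (hne : s ≠ []) (hc : ∀ v ∈ s, c v ≠ 0) : m * l + (s.length + 1) ∈ L := by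
  have : NeZero d := ⟨by omega⟩
  choose j hj q hq using hF.2
  have hql : ∀ i, (q i).length + 1 = l := fun i => (hq i).2.1
  have h := chain_nat hV (show 2 ≤ m + 1 by omega)
    (fun n => if n ≤ m then F (a + (n : ℕ)) else F a)
    (fun n => if n < m then q (a + (n : ℕ)) else s) (fun i k hi hk hik => by
      simp only [if_pos (show i ≤ m by omega), if_pos (show k ≤ m by omega)] at hik
      exact cast_inj (by omega) (by omega) (add_left_cancel (hF.1.1 hik))) (fun i hi => by
      simp only [if_pos (show i ≤ m by omega)]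
      exact hF.1.2 _) (by simp) (fun i hi => by
      rcases Nat.lt_or_ge i m with h1 | h1
      · simp only [if_pos (show i ≤ m by omega), if_pos h1, if_pos (show i + 1 ≤ m by omega)]
        obtain ⟨p1, p2, p3⟩ := hq (a + (i : ℕ))
        refine ⟨?_, ?_, fun v hv => ?_⟩
        · rw [Nat.cast_add, Nat.cast_one, ← add_assoc]
          exact p1
        · intro h2
          rw [h2] at p2
          simp at p2
          omega
        · rw [p3 v hv]
          exact hj _
      · obtain rfl : i = m := by omega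
        simp only [le_refl, if_true, lt_irrefl, if_false, if_neg (show ¬ i + 1 ≤ i by omega)]
        exact ⟨hs, hne, hc⟩)
  rw [Finset.sum_range_succ] at h
  have h2 : ∑ n ∈ Finset.range m, ((if n < m then q (a + (n : ℕ)) else s).length + 1)
      = m * l := by
    rw [Finset.sum_congr rfl (g := fun _ => l) (fun n hn => by
      rw [if_pos (Finset.mem_range.1 hn), hql])]
    simp
  rw [h2] at h
  simpa using h

/-- an arc of a closed chain, closed by two paths -/
theorem arc_two (hV : Valid L G c) (hl : 2 ≤ l) {F : ZMod d → V} (hF : Chn l G c F) (a : ZMod d)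
    {m : ℕ} (hmd : m < d) {z : V} (hz : c z = 0) (hzF : ∀ k, F k ≠ z) {s₁ s₂ : List V}
    (h₁ : PI G (F (a + (m : ℕ))) z s₁) (h₂ : PI G z (F a) s₂) (n₁ : s₁ ≠ []) (n₂ : s₂ ≠ [])
    (c₁ : ∀ v ∈ s₁, c v ≠ 0) (c₂ : ∀ v ∈ s₂, c v ≠ 0) :
    m * l + (s₁.length + 1) + (s₂.length + 1) ∈ L := by
  have : NeZero d := ⟨by omega⟩
  choose j hj q hq using hF.2
  have hql : ∀ i, (q i).length + 1 = l := fun i => (hq i).2.1
  have h := chain_nat hV (show 2 ≤ m + 2 by omega)
    (fun n => if n ≤ m then F (a + (n : ℕ)) else if n = m + 1 then z else F a)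
    (fun n => if n < m then q (a + (n : ℕ)) else if n = m then s₁ else s₂)
    (fun i k hi hk hik => by
      rcases Nat.lt_or_ge m i with h1 | h1 <;> rcases Nat.lt_or_ge m k with h2 | h2
      · omega
      · exfalso
        have h3 : i = m + 1 := by omega
        simp only [if_pos h2, if_neg (show ¬ i ≤ m by omega), if_pos h3] at hik
        exact hzF _ hik.symm
      · exfalso
        have h3 : k = m + 1 := by omega
        simp only [if_pos h1, if_neg (show ¬ k ≤ m by omega), if_pos h3] at hik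
        exact hzF _ hik
      · simp only [if_pos h1, if_pos h2] at hik
        exact cast_inj (by omega) (by omega) (add_left_cancel (hF.1.1 hik))) (fun i hi => by
      rcases Nat.lt_or_ge m i with h1 | h1
      · simp only [if_neg (show ¬ i ≤ m by omega), if_pos (show i = m + 1 by omega)]
        exact hz
      · simp only [if_pos h1]
        exact hF.1.2 _) (by simp) (fun i hi => by
      rcases Nat.lt_or_ge i m with h1 | h1
      · simp only [if_pos (show i ≤ m by omega), if_pos h1, if_pos (show i + 1 ≤ m by omega)]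
        obtain ⟨p1, p2, p3⟩ := hq (a + (i : ℕ))
        refine ⟨?_, ?_, fun v hv => ?_⟩
        · rw [Nat.cast_add, Nat.cast_one, ← add_assoc]
          exact p1
        · intro h2
          rw [h2] at p2
          simp at p2
          omega
        · rw [p3 v hv]
          exact hj _
      · rcases h1.eq_or_lt with h2 | h2
        · subst h2
          simp only [le_refl, if_true, lt_irrefl, if_false,
            if_neg (show ¬ m + 1 ≤ m by omega)]
          exact ⟨h₁, n₁, c₁⟩
        · obtain rfl : i = m + 1 := by omega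
          simp only [if_neg (show ¬ m + 1 ≤ m by omega), if_true,
            if_neg (show ¬ m + 1 + 1 ≤ m by omega), if_neg (show ¬ m + 1 + 1 = m + 1 by omega),
            if_neg (show ¬ m + 1 < m by omega), if_neg (show ¬ m + 1 = m by omega)]
          exact ⟨h₂, n₂, c₂⟩)
  rw [Finset.sum_range_succ, Finset.sum_range_succ] at h
  have h2 : ∑ n ∈ Finset.range m, ((if n < m then q (a + (n : ℕ)) else
      if n = m then s₁ else s₂).length + 1) = m * l := by
    rw [Finset.sum_congr rfl (g := fun _ => l) (fun n hn => by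
      rw [if_pos (Finset.mem_range.1 hn), hql])]
    simp
  rw [h2] at h
  simpa using h

theorem twin_walk (hV : Valid L G c) (hev : ∀ x ∈ L, Even x → 2 * l ≤ x) {x y : V} (hxy : x ≠ y)
    (hx : c x = 0) (hy : c y = 0) {t : List V} (ht : (x :: (t ++ [y])).IsChain G.Adj)
    (hne : t ≠ []) (hc : ∀ v ∈ t, c v ≠ 0) : l ≤ t.length + 1 := by
  induction hn : t.length using Nat.strong_induction_on generalizing t with
  | _ n ih =>
    subst hn
    by_cases hnd : t.Nodup
    · have h1 : PI G x y t := ⟨ht, hnd, fun h => hc _ h hx, fun h => hc _ h hy⟩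
      have h2 := hev _ (twin_mem hV hxy hx hy h1 hne hc) (even_two_mul _)
      omega
    · rw [List.nodup_iff_sublist] at hnd
      push Not at hnd
      obtain ⟨v, hv⟩ := hnd
      rw [List.cons_sublist_iff] at hv
      obtain ⟨r₁, r₂, rfl, hv1, hv2⟩ := hv
      rw [List.singleton_sublist] at hv2
      obtain ⟨t₁, t₂, rfl⟩ := List.append_of_mem hv1
      obtain ⟨t₃, t₄, rfl⟩ := List.append_of_mem hv2
      have h3 : (x :: ((t₁ ++ v :: t₄) ++ [y])).IsChain G.Adj := by
        have e1 : x :: (t₁ ++ v :: t₂ ++ (t₃ ++ v :: t₄) ++ [y])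
            = (x :: t₁) ++ v :: (t₂ ++ t₃ ++ v :: (t₄ ++ [y])) := by simp
        rw [e1, List.isChain_split] at ht
        have e2 : v :: (t₂ ++ t₃ ++ v :: (t₄ ++ [y])) = (v :: (t₂ ++ t₃)) ++ v :: (t₄ ++ [y]) := by
          simp
        have e3 : x :: ((t₁ ++ v :: t₄) ++ [y]) = (x :: t₁) ++ v :: (t₄ ++ [y]) := by simp
        rw [e3, List.isChain_split]
        have h4 := ht.2
        rw [e2, List.isChain_split] at h4
        exact ⟨ht.1, h4.2⟩
      have h5 := ih (t₁ ++ v :: t₄).length (by simp; omega) h3 (by simp) (fun u hu => hc u (by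
        simp only [List.mem_append, List.mem_cons] at hu ⊢
        tauto)) rfl
      refine h5.trans ?_
      simp
      omega

theorem rep_one (hV : Valid L G c) (hl : 2 ≤ l) (hd : 2 ≤ d) {F : ZMod d → V} (hF : Chn l G c F)
    (i : ZMod d) {s : List V} (hs : PI G (F i) (F (i + 1)) s) (hne : s ≠ [])
    (hc : ∀ v ∈ s, c v ≠ 0) : (d - 1) * l + (s.length + 1) ∈ L := by
  have e : i + 1 + ((d - 1 : ℕ) : ZMod d) = i := by
    have h0 : ((d - 1 + 1 : ℕ) : ZMod d) = 0 := by
      rw [show d - 1 + 1 = d by omega, ZMod.natCast_self]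
    rw [Nat.cast_add, Nat.cast_one] at h0
    linear_combination h0
  exact arc_one hV hl hF (i + 1) (by omega) (by omega) (by rwa [e]) hne hc

theorem rep_two (hV : Valid L G c) (hl : 2 ≤ l) (hd : 2 ≤ d) {F : ZMod d → V} (hF : Chn l G c F)
    (i : ZMod d) {z : V} (hz : c z = 0) (hzF : ∀ k, F k ≠ z) {s₁ s₂ : List V}
    (h₁ : PI G (F i) z s₁) (h₂ : PI G z (F (i + 1)) s₂) (n₁ : s₁ ≠ []) (n₂ : s₂ ≠ [])
    (c₁ : ∀ v ∈ s₁, c v ≠ 0) (c₂ : ∀ v ∈ s₂, c v ≠ 0) :
    (d - 1) * l + (s₁.length + 1) + (s₂.length + 1) ∈ L := by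
  have e : i + 1 + ((d - 1 : ℕ) : ZMod d) = i := by
    have h0 : ((d - 1 + 1 : ℕ) : ZMod d) = 0 := by
      rw [show d - 1 + 1 = d by omega, ZMod.natCast_self]
    rw [Nat.cast_add, Nat.cast_one] at h0
    linear_combination h0
  exact arc_two hV hl hF (i + 1) (by omega) hz hzF (by rwa [e]) h₂ n₁ n₂ c₁ c₂

theorem chord (hV : Valid L G c) (hl : 2 ≤ l) {F : ZMod d → V} (hF : Chn l G c F) (i : ZMod d)
    {t : ℕ} (ht : 1 ≤ t) (htd : t < d) {s : List V} (hs : PI G (F i) (F (i + (t : ℕ))) s)
    (hne : s ≠ []) (hc : ∀ v ∈ s, c v ≠ 0) :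
    t * l + (s.length + 1) ∈ L ∧ (d - t) * l + (s.length + 1) ∈ L := by
  constructor
  · have h := arc_one hV hl hF i ht htd (pi_rev hs) (by simpa using hne) (by simpa using hc)
    rwa [List.length_reverse] at h
  · have e : i + (t : ZMod d) + ((d - t : ℕ) : ZMod d) = i := by
      rw [add_assoc, ← Nat.cast_add, show t + (d - t) = d by omega, ZMod.natCast_self, add_zero]
    exact arc_one hV hl hF (i + (t : ℕ)) (by omega) (by omega) (by rwa [e]) hne hc

end H46.CZ
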