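import Pool.Agent.H46.CZ.Rpl

/-!
# CZ.StrA : the blocks of a path between hubs (about 180 lines)

`blk`: `s` is the list of the inner vertices of a path (or closed path) from the hub `a` to the hub `b`; cut it at its hubs. Strong induction on the length of `s`. If all members of `s` have colour `≠ 0`: one block `B = [(a, s)]`. Otherwise let `h` be the first member of colour `0`: `s = s₁ ++ h :: s₂` with `s₁` of colours `≠ 0`; by induction (`pi_split`,
the path `s₂` from `h` to `b`) `s₂` gives the blocks `B'` starting with the hub `h`, `B = (a, s₁) :: B'`. The statement: a list `B` of pairs (hub, list) whose concatenation `(B.map fun p => p.1 :: p.2).flatten` is `a :: s`, all first entries have colour `0`, all members of the second entries have colour `≠ 0`, and each block is a path: for consecutive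
blocks `p, p'` `PI G p.1 p'.1 p.2`, for the last block `PI G p.1 b p.2` (this is expressed by: for every decomposition `B = B₁ ++ p :: B₂`, `PI G p.1 ((B₂.map Prod.fst).headD b) p.2`).
`blk_col`: all members of one block have the same colour (`Compat`, the block is a chain), so the number of the colours `≠ 0` met by `s` is at most the number of the blocks with non-empty list.
-/

namespace H46.CZ

open Pool.Agent.H3.LC H46.CY

variable {V : Type} {G : SimpleGraph V} {c : V → ℕ}

/-- the blocks `B` of the path `a :: s` to `b` -/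
def IsBlk {V : Type} (G : SimpleGraph V) (c : V → ℕ) (a b : V) (s : List V)
    (B : List (V × List V)) : Prop :=
  (B.map fun p => p.1 :: p.2).flatten = a :: s ∧ (∀ p ∈ B, c p.1 = 0) ∧
    (∀ p ∈ B, ∀ v ∈ p.2, c v ≠ 0) ∧
    ∀ B₁ p B₂, B = B₁ ++ p :: B₂ → PI G p.1 ((B₂.map Prod.fst).headD b) p.2

private theorem first_hub {s : List V} {v : V} (hv : v ∈ s) (hcv : c v = 0) :
    ∃ s₁ h s₂, s = s₁ ++ h :: s₂ ∧ c h = 0 ∧ ∀ w ∈ s₁, c w ≠ 0 := by
  induction s with
  | nil => exact absurd hv List.not_mem_nil
  | cons x t ih =>
    by_cases hx : c x = 0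
    · exact ⟨[], x, t, rfl, hx, fun w hw => absurd hw List.not_mem_nil⟩
    · have hvt : v ∈ t := by
        rcases List.mem_cons.1 hv with h1 | h1
        · rw [h1] at hcv
          exact absurd hcv hx
        · exact h1
      obtain ⟨s₁, h, s₂, h1, h2, h3⟩ := ih hvt
      refine ⟨x :: s₁, h, s₂, by rw [h1]; rfl, h2, fun w hw => ?_⟩
      rcases List.mem_cons.1 hw with rfl | hw
      · exact hx
      · exact h3 w hw

private theorem chain_col_head (hc : Compat G c) {x : V} {t : List V}
    (h : (x :: t).IsChain G.Adj) (hne : ∀ v ∈ x :: t, c v ≠ 0) : ∀ v ∈ x :: t, c v = c x := by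
  induction t generalizing x with
  | nil =>
    intro v hv
    rw [List.mem_singleton] at hv
    rw [hv]
  | cons y t ih =>
    intro v hv
    rw [List.isChain_cons_cons] at h
    rcases List.mem_cons.1 hv with rfl | hv
    · rfl
    · have h1 := ih h.2 (fun w hw => hne w (List.mem_cons_of_mem _ hw)) v hv
      rw [h1]
      exact (hc x y h.1 (hne x List.mem_cons_self)
        (hne y (List.mem_cons_of_mem _ List.mem_cons_self))).symm

private theorem chain_col (hc : Compat G c) {t : List V} (h : t.IsChain G.Adj)
    (hne : ∀ v ∈ t, c v ≠ 0) {u v : V} (hu : u ∈ t) (hv : v ∈ t) : c u = c v := by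
  rcases t with _ | ⟨x, t⟩
  · exact absurd hu List.not_mem_nil
  · rw [chain_col_head hc h hne u hu, chain_col_head hc h hne v hv]

theorem blk {a b : V} {s : List V} (ha : c a = 0) (hb : c b = 0) (h : PI G a b s) :
    ∃ B, IsBlk G c a b s B := by
  induction hn : s.length using Nat.strong_induction_on generalizing a s with
  | _ n ih =>
    by_cases hall : ∀ v ∈ s, c v ≠ 0
    · refine ⟨[(a, s)], ?_, ?_, ?_, ?_⟩
      · simp
      · intro p hp
        rw [List.mem_singleton] at hp
        rw [hp]
        exact ha
      · intro p hp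
        rw [List.mem_singleton] at hp
        rw [hp]
        exact hall
      · intro B₁ p B₂ hB
        rcases B₁ with _ | ⟨q, B₁⟩
        · rw [List.nil_append, List.cons.injEq] at hB
          obtain ⟨h1, h2⟩ := hB
          rw [← h1, ← h2]
          exact h
        · simp at hB
    · push Not at hall
      obtain ⟨v, hv, hcv⟩ := hall
      obtain ⟨s₁, h₀, s₂, hs, h0, h1⟩ := first_hub hv hcv
      subst hs
      obtain ⟨p1, p2⟩ := pi_split h
      obtain ⟨B', hB'⟩ := ih s₂.length (by rw [← hn]; simp; omega) h0 p2 rfl
      obtain ⟨b1, b2, b3, b4⟩ := hB'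
      refine ⟨(a, s₁) :: B', ?_, ?_, ?_, ?_⟩
      · rw [List.map_cons, List.flatten_cons, b1]
        simp
      · intro p hp
        rcases List.mem_cons.1 hp with rfl | hp
        · exact ha
        · exact b2 p hp
      · intro p hp
        rcases List.mem_cons.1 hp with rfl | hp
        · exact h1
        · exact b3 p hp
      · intro B₁ p B₂ hB
        rcases B₁ with _ | ⟨q, B₁⟩
        · rw [List.nil_append, List.cons.injEq] at hB
          obtain ⟨e1, e2⟩ := hB
          rw [← e1, ← e2]
          have hne : B' ≠ [] := by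
            rintro rfl
            simp at b1
          obtain ⟨q, B'', rfl⟩ := List.exists_cons_of_ne_nil hne
          rw [List.map_cons, List.flatten_cons, List.cons_append, List.cons.injEq] at b1
          simp only [List.map_cons, List.headD_cons]
          rw [b1.1]
          exact p1
        · rw [List.cons_append, List.cons.injEq] at hB
          exact b4 B₁ p B₂ hB.2

theorem blk_col (hc : Compat G c) {a b : V} {s : List V} {B : List (V × List V)}
    (h : IsBlk G c a b s B) {p : V × List V} (hp : p ∈ B) {u v : V} (hu : u ∈ p.2)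
    (hv : v ∈ p.2) : c u = c v := by
  obtain ⟨-, -, b3, b4⟩ := h
  obtain ⟨B₁, B₂, hB⟩ := List.append_of_mem hp
  obtain ⟨hch, -, -, -⟩ := b4 B₁ p B₂ hB
  have h1 : (p.2).IsChain G.Adj := by
    have : (p.1 :: (p.2 ++ [(B₂.map Prod.fst).headD b])) =
        [p.1] ++ (p.2 ++ [(B₂.map Prod.fst).headD b]) := rfl
    rw [this] at hch
    exact (hch.right_of_append).left_of_append
  exact chain_col hc h1 (b3 p hp) hu hv

/-- the number of the colours met is at most the number of the blocks with a non-empty list -/
theorem blk_ncard (hc : Compat G c) {a b : V} {s : List V} {B : List (V × List V)}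
    (h : IsBlk G c a b s B) :
    {i | i ≠ 0 ∧ ∃ v ∈ s, c v = i}.ncard ≤ (B.filter fun p => !p.2.isEmpty).length := by
  classical
  set B' := B.filter fun p => !p.2.isEmpty with hB'
  have hsub : {i | i ≠ 0 ∧ ∃ v ∈ s, c v = i} ⊆
      ((B'.map fun p => c (p.2.headD p.1)).toFinset : Set ℕ) := by
    rintro i ⟨hi, v, hv, rfl⟩
    have hm : v ∈ (B.map fun p => p.1 :: p.2).flatten := by
      rw [h.1]
      exact List.mem_cons_of_mem _ hv
    rw [List.mem_flatten] at hm
    obtain ⟨l, hl, hvl⟩ := hm
    rw [List.mem_map] at hl
    obtain ⟨p, hp, rfl⟩ := hl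
    have hv2 : v ∈ p.2 := by
      rcases List.mem_cons.1 hvl with h1 | h1
      · rw [h1] at hi
        exact absurd (h.2.1 p hp) hi
      · exact h1
    rw [Finset.mem_coe, List.mem_toFinset, List.mem_map]
    refine ⟨p, ?_, ?_⟩
    · rw [hB', List.mem_filter]
      refine ⟨hp, ?_⟩
      rcases hp2 : p.2 with _ | ⟨x, t⟩
      · rw [hp2] at hv2
        exact absurd hv2 (List.not_mem_nil)
      · rfl
    · rcases hp2 : p.2 with _ | ⟨x, t⟩
      · rw [hp2] at hv2
        exact absurd hv2 (List.not_mem_nil)
      · rw [List.headD_cons]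
        exact blk_col hc h hp (by rw [hp2]; exact List.mem_cons_self) hv2
  calc {i | i ≠ 0 ∧ ∃ v ∈ s, c v = i}.ncard
      ≤ ((B'.map fun p => c (p.2.headD p.1)).toFinset : Set ℕ).ncard :=
        Set.ncard_le_ncard hsub (Finset.finite_toSet _)
    _ = (B'.map fun p => c (p.2.headD p.1)).toFinset.card := Set.ncard_coe_finset _
    _ ≤ (B'.map fun p => c (p.2.headD p.1)).length := List.toFinset_card_le _
    _ = B'.length := List.length_map _

end H46.CZ
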