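import Pool.Agent.H46.CZ.StrA
import Pool.Agent.H46.CZ.Cyg
import Pool.Agent.H46.CY.Pth

/-!
# CZ.StrB : the cycles which meet at least d pieces (about 200 lines)

Let `E ∈ dcyc d G c`, `E = cedges f`, `f : ZMod m → V`, `3 ≤ m` (`mem_cycles_iff`), `m ∈ L` (`mem_of_cyc`), so `m ≤ d l`. Some `f i` is a hub (otherwise all `f i` have the same colour by `Compat`, `E` meets only one piece, but `d ≥ 2`). `pi_of_cyc`: `s = cutl f i` is the list of the inner vertices of a closed path from `a = f i` to `a`, `s.length + 1 = m`.
`blk`: blocks `B`; by `blk_ncard` at least `d` blocks have a non-empty list. Each such block `(h, t)` is a path from `h` to the next hub `h'` (the last one: to `a`). `h ≠ h'`: the first entries of the blocks are different (`a :: s` has no repetition) and `h' = h` is only possible if there is one block, but `d ≥ 2`. So `twin_mem`, `hev` give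
`l ≤ t.length + 1`. The sum of `t.length + 1` over all blocks is `m ≤ d l`; so there are exactly `d` blocks, all with `t.length + 1 = l` (a block with an empty list would add `1`), `m = d l`. With `F q` the first entry and `s' q` the list of block number `q` (`q.val < d`, `B[q.val]`) we have `(F, s') ∈ TS l G c d` (the colour of a block is constant:
`blk_col`; disjoint lists: no repetition in `a :: s`), and `cyg l F s' x = f (i + x.val)` (both are the member number `x.val` of `a :: s`; `List.getElem_flatten`-like statement for lists of equal length `l`, or prove by induction on `q` that the member number `q l + t` of the concatenation is the member number `t` of the block `q`), after `m = d l`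
(`subst`), so the edge sets agree.
-/

namespace H46.CZ

open Pool.Agent.H3.LC H46.CY

variable {V : Type} {L : Finset ℕ} {G : SimpleGraph V} {c : V → ℕ} {l d : ℕ}

/-- the sum of the lengths of the blocks -/
private theorem sum_len (B : List (V × List V)) (l : ℕ)
    (h : ∀ p ∈ B, p.2 ≠ [] → l ≤ p.2.length + 1) :
    (B.map fun p => p.1 :: p.2).flatten.length =
      l * (B.filter fun p => !p.2.isEmpty).length +
        (B.map fun p => if p.2.isEmpty then 1 else p.2.length + 1 - l).sum := by
  induction B with
  | nil => simp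
  | cons p B ih =>
    have ih' := ih fun q hq => h q (List.mem_cons_of_mem _ hq)
    rw [List.map_cons, List.flatten_cons, List.length_append, ih', List.map_cons, List.sum_cons]
    rcases hp : p.2 with _ | ⟨x, t⟩
    · rw [List.filter_cons_of_neg (by rw [hp]; simp)]
      simp
      omega
    · have h1 := h p List.mem_cons_self (by rw [hp]; simp)
      rw [hp] at h1
      rw [List.filter_cons_of_pos (by rw [hp]; simp)]
      simp only [List.length_cons, List.isEmpty_cons] at h1 ⊢
      simp only [Bool.false_eq_true, if_false]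
      obtain ⟨e, he⟩ := Nat.exists_eq_add_of_le h1
      rw [he, Nat.add_sub_cancel_left]
      ring

/-- members of a concatenation of lists of equal length -/
private theorem get_flat {l : ℕ} (Ls : List (List V)) (hL : ∀ t ∈ Ls, t.length = l) :
    ∀ (q r : ℕ) (hq : q < Ls.length), r < l → Ls.flatten[q * l + r]? = (Ls[q])[r]? := by
  induction Ls with
  | nil =>
    intro q r hq
    simp at hq
  | cons t Ls ih =>
    intro q r hq hr
    have ht := hL t List.mem_cons_self
    rw [List.flatten_cons]
    rcases q with _ | q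
    · rw [Nat.zero_mul, Nat.zero_add, List.getElem?_append_left (by omega),
        List.getElem_cons_zero]
    · have e : (q + 1) * l + r = l + (q * l + r) := by ring
      rw [e, List.getElem?_append_right (by omega), ht, Nat.add_sub_cancel_left,
        ih (fun t ht => hL t (List.mem_cons_of_mem _ ht)) q r (by simpa using hq) hr,
        List.getElem_cons_succ]

/-- some vertex of the cycle is a hub -/
private theorem exists_hub (hc : Compat G c) (hd : 2 ≤ d) {m : ℕ} (hm : 3 ≤ m) {f : ZMod m → V}
    (hf : IsCyc G f)
    (hn : d ≤ {i | i ≠ 0 ∧ ∃ v, c v = i ∧ ∃ e ∈ cedges f, v ∈ e}.ncard) :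
    ∃ i, c (f i) = 0 := by
  have : NeZero m := ⟨by omega⟩
  by_contra hcon
  push Not at hcon
  have h1 : ∀ k : ℕ, c (f (k : ZMod m)) = c (f 0) := by
    intro k
    induction k with
    | zero => rw [Nat.cast_zero]
    | succ k ih =>
      rw [← ih, Nat.cast_add, Nat.cast_one]
      exact (hc _ _ (hf.2 k) (hcon _) (hcon _)).symm
  have h2 : ∀ x, c (f x) = c (f 0) := by
    intro x
    rw [← h1 x.val, ZMod.natCast_zmod_val]
  have h3 : {i | i ≠ 0 ∧ ∃ v, c v = i ∧ ∃ e ∈ cedges f, v ∈ e} ⊆ {c (f 0)} := by
    rintro i ⟨-, v, rfl, e, ⟨x, rfl⟩, hv⟩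
    rw [Set.mem_singleton_iff]
    rcases Sym2.mem_iff.1 hv with rfl | rfl
    · exact h2 x
    · exact h2 (x + 1)
  have h4 := Set.ncard_le_ncard h3 (Set.finite_singleton _)
  rw [Set.ncard_singleton] at h4
  omega

/-- the member number `k` of the cut cycle -/
private theorem get_cut {m : ℕ} (hm : 3 ≤ m) (f : ZMod m → V) (i : ZMod m) {k : ℕ} (hk : k < m) :
    (f i :: cutl f i)[k]? = some (f (i + (k : ℕ))) := by
  rcases k with _ | k
  · simp
  · rw [List.getElem?_cons_succ]
    unfold cutl
    rw [List.getElem?_ofFn, dif_pos (by omega)]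
    congr 2
    push_cast
    ring

private theorem mem_cutl {m : ℕ} (hm : 3 ≤ m) (f : ZMod m → V) (i : ZMod m) {x : ZMod m}
    (hx : x ≠ i) : f x ∈ cutl f i := by
  have : NeZero m := ⟨by omega⟩
  have h1 : ((x - i).val : ZMod m) = x - i := ZMod.natCast_zmod_val _
  have h2 : f x ∈ f i :: cutl f i := by
    have h3 := get_cut hm f i (ZMod.val_lt (x - i))
    rw [h1, add_sub_cancel] at h3
    exact List.mem_of_getElem? h3
  have h4 : 0 < (x - i).val := by
    rcases Nat.eq_zero_or_pos (x - i).val with h | h
    · rw [h, Nat.cast_zero] at h1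
      exact absurd (sub_eq_zero.1 h1.symm) hx
    · exact h
  have h3 := get_cut hm f i (ZMod.val_lt (x - i))
  obtain ⟨k, hk⟩ : ∃ k, (x - i).val = k + 1 := ⟨(x - i).val - 1, by omega⟩
  rw [h1, add_sub_cancel, hk, List.getElem?_cons_succ] at h3
  exact List.mem_of_getElem? h3

theorem dcyc_sub (hV : Valid L G c) (hl : 2 ≤ l) (hd : 2 ≤ d)
    (hev : ∀ x ∈ L, Even x → 2 * l ≤ x) (hmax : ∀ x ∈ L, x ≤ d * l) :
    dcyc d G c ⊆ (fun p : (ZMod d → V) × (ZMod d → List V) => cedges (cyg l p.1 p.2)) ''
      TS l G c d := by
  have : NeZero d := ⟨by omega⟩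
  rintro E ⟨hE, hn⟩
  obtain ⟨m, f, hm, hf, rfl⟩ := mem_cycles_iff.1 hE
  have : NeZero m := ⟨by omega⟩
  obtain ⟨i, hi⟩ := exists_hub hV.1 hd hm hf hn
  obtain ⟨hpi, hlen, -⟩ := pi_of_cyc hm hf i
  obtain ⟨B, hB⟩ := blk hi hi hpi
  have hB' := hB
  obtain ⟨b1, b2, b3, b4⟩ := hB'
  -- at least d blocks with a nonempty list
  have hN : d ≤ (B.filter fun p => !p.2.isEmpty).length := by
    refine le_trans (le_trans hn ?_) (blk_ncard hV.1 hB)
    refine Set.ncard_le_ncard ?_ ?_
    · rintro k ⟨hk, v, hv, e, ⟨x, rfl⟩, hve⟩
      refine ⟨hk, v, ?_, hv⟩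
      have h1 : ∀ y, v = f y → v ∈ cutl f i := by
        rintro y rfl
        refine mem_cutl hm f i ?_
        rintro rfl
        rw [hi] at hv
        exact hk hv.symm
      rcases Sym2.mem_iff.1 hve with h | h
      · exact h1 _ h
      · exact h1 _ h
    · refine Set.Finite.subset (List.finite_toSet ((cutl f i).map c)) ?_
      rintro k ⟨-, v, hv, rfl⟩
      exact List.mem_map_of_mem hv
  have hBlen : d ≤ B.length := hN.trans (List.length_filter_le _ _)
  -- no repetition
  have hnd : ((B.map fun p => p.1 :: p.2).flatten).Nodup := by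
    rw [b1, List.nodup_cons]
    exact ⟨hpi.2.2.1, hpi.2.1⟩
  rw [List.nodup_flatten, List.pairwise_iff_getElem] at hnd
  obtain ⟨-, hdis⟩ := hnd
  have hdis' : ∀ (j k : ℕ) (hj : j < B.length) (hk : k < B.length), j ≠ k →
      List.Disjoint (B[j].1 :: B[j].2) (B[k].1 :: B[k].2) := by
    intro j k hj hk hjk
    rcases lt_or_gt_of_ne hjk with h | h
    · have h1 := hdis j k (by rw [List.length_map]; exact hj) (by rw [List.length_map]; exact hk) h
      rw [List.getElem_map, List.getElem_map] at h1
      exact h1
    · have h1 := hdis k j (by rw [List.length_map]; exact hk) (by rw [List.length_map]; exact hj) h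
      rw [List.getElem_map, List.getElem_map] at h1
      exact h1.symm
  have hfst : ∀ (j k : ℕ) (hj : j < B.length) (hk : k < B.length), j ≠ k → B[j].1 ≠ B[k].1 := by
    intro j k hj hk hjk h1
    refine hdis' j k hj hk hjk List.mem_cons_self ?_
    rw [h1]
    exact List.mem_cons_self
  have h0 : (B[0]'(by omega)).1 = f i := by
    obtain ⟨q, B'', rfl⟩ := List.exists_cons_of_ne_nil (l := B) (by
      rintro rfl
      simp at hBlen
      omega)
    rw [List.map_cons, List.flatten_cons, List.cons_append, List.cons.injEq] at b1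
    exact b1.1
  -- the paths
  have hpath : ∀ (j : ℕ) (hj : j < B.length), PI G (B[j].1)
      (if h : j + 1 < B.length then (B[j + 1]).1 else f i) (B[j].2) := by
    intro j hj
    have h1 : B = B.take j ++ B[j] :: B.drop (j + 1) := by
      rw [List.getElem_cons_drop, List.take_append_drop]
    have h2 := b4 _ _ _ h1
    have h3 : ((B.drop (j + 1)).map Prod.fst).headD (f i) =
        (if h : j + 1 < B.length then (B[j + 1]).1 else f i) := by
      split_ifs with h
      · rw [← List.getElem_cons_drop h, List.map_cons, List.headD_cons]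
      · rw [List.drop_eq_nil_of_le (by omega)]
        rfl
    rwa [h3] at h2
  have hnext : ∀ (j : ℕ) (hj : j < B.length),
      B[j].1 ≠ (if h : j + 1 < B.length then (B[j + 1]).1 else f i) := by
    intro j hj
    split_ifs with h
    · exact hfst j (j + 1) hj h (by omega)
    · rw [← h0]
      exact hfst j 0 hj (by omega) (by omega)
  have hnextc : ∀ (j : ℕ) (hj : j < B.length),
      c (if h : j + 1 < B.length then (B[j + 1]).1 else f i) = 0 := by
    intro j hj
    split_ifs with h
    · exact b2 _ (List.getElem_mem _)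
    · exact hi
  have hlow : ∀ p ∈ B, p.2 ≠ [] → l ≤ p.2.length + 1 := by
    intro p hp hne
    obtain ⟨j, hj, rfl⟩ := List.getElem_of_mem hp
    have h1 := twin_mem hV (hnext j hj) (b2 _ (List.getElem_mem _)) (hnextc j hj) (hpath j hj) hne
      (b3 _ (List.getElem_mem _))
    have h2 := hev _ h1 ⟨B[j].2.length + 1, by ring⟩
    omega
  have hsum := sum_len B l hlow
  have hmL : m ≤ d * l := hmax m (mem_of_cyc hV hm hf)
  rw [b1, List.length_cons, hlen] at hsum
  set N := (B.filter fun p => !p.2.isEmpty).length with hNdef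
  have hNd : N = d := by
    by_contra hne
    have h1 : d + 1 ≤ N := by omega
    have h2 : l * (d + 1) ≤ l * N := Nat.mul_le_mul_left l h1
    have h3 : l * (d + 1) = d * l + l := by ring
    omega
  have hs0 : (B.map fun p => if p.2.isEmpty then 1 else p.2.length + 1 - l).sum = 0 := by
    rw [hNd, Nat.mul_comm l d] at hsum
    omega
  have hm' : m = d * l := by
    rw [hNd, hs0, Nat.mul_comm l d] at hsum
    omega
  rw [List.sum_eq_zero_iff] at hs0
  have hall : ∀ p ∈ B, p.2.length + 1 = l := by
    intro p hp
    have h1 := hs0 _ (List.mem_map_of_mem hp)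
    have h2 := hlow p hp
    rcases hp2 : p.2 with _ | ⟨x, t⟩
    · rw [hp2] at h1
      simp at h1
    · rw [hp2] at h1 h2
      have h3 := h2 (by simp)
      simp only [List.isEmpty_cons, Bool.false_eq_true, if_false, List.length_cons] at h1 h3 ⊢
      exact le_antisymm (Nat.sub_eq_zero_iff_le.1 h1) h3
  have hBd : B.length = d := by
    rw [← hNd, hNdef]
    congr 1
    symm
    rw [List.filter_eq_self]
    intro p hp
    have h1 := hall p hp
    rcases hp2 : p.2 with _ | ⟨x, t⟩
    · rw [hp2] at h1
      simp at h1
      omega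
    · simp
  have hq : ∀ q : ZMod d, q.val < B.length := fun q => by
    rw [hBd]
    exact ZMod.val_lt q
  subst hm'
  let F : ZMod d → V := fun q => (B[q.val]'(hq q)).1
  let s' : ZMod d → List V := fun q => (B[q.val]'(hq q)).2
  have hFnext : ∀ q : ZMod d,
      (if h : q.val + 1 < B.length then (B[q.val + 1]).1 else f i) = F (q + 1) := by
    intro q
    have e2 : q + 1 = ((q.val + 1 : ℕ) : ZMod d) := by
      rw [Nat.cast_add, ZMod.natCast_zmod_val, Nat.cast_one]
    have hqv := ZMod.val_lt q
    split_ifs with h
    · have h3 : (q + 1).val = q.val + 1 := by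
        rw [e2, ZMod.val_natCast_of_lt (by omega)]
      change _ = (B[(q + 1).val]'(hq (q + 1))).1
      simp only [h3]
    · have h3 : q.val + 1 = d := by omega
      have h4 : (q + 1).val = 0 := by
        rw [e2, h3, ZMod.natCast_self, ZMod.val_zero]
      change _ = (B[(q + 1).val]'(hq (q + 1))).1
      simp only [h4]
      exact h0.symm
  refine ⟨(F, s'), ⟨⟨?_, ?_⟩, ?_, ?_⟩, ?_⟩
  · intro q q' hqq
    by_contra hne
    exact hfst q.val q'.val (hq q) (hq q') (fun h => hne (ZMod.val_injective d h)) hqq
  · intro q
    exact b2 _ (List.getElem_mem _)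
  · intro q
    have h1 := hall _ (List.getElem_mem (hq q))
    have hne : s' q ≠ [] := by
      intro h
      change (B[q.val]'(hq q)).2 = [] at h
      rw [h] at h1
      simp at h1
      omega
    obtain ⟨x, t, hxt⟩ := List.exists_cons_of_ne_nil hne
    have hx : x ∈ s' q := by
      rw [hxt]
      exact List.mem_cons_self
    refine ⟨c x, b3 _ (List.getElem_mem (hq q)) x hx, ?_, h1, ?_⟩
    · have h2 := hpath q.val (hq q)
      rw [hFnext q] at h2
      exact h2
    · intro v hv
      exact blk_col hV.1 hB (List.getElem_mem (hq q)) hv hx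
  · intro q q' hqq v hv hv'
    exact hdis' q.val q'.val (hq q) (hq q') (fun h => hqq (ZMod.val_injective d h))
      (List.mem_cons_of_mem _ hv) (List.mem_cons_of_mem _ hv')
  · have hcyg : ∀ x : ZMod (d * l), cyg l F s' x = f (i + x) := by
      intro x
      have hx := ZMod.val_lt x
      have hxd : x.val / l < d := Nat.div_lt_of_lt_mul (hx.trans_eq (Nat.mul_comm d l))
      have hxl : x.val % l < l := Nat.mod_lt _ (by omega)
      have h1 := get_flat (l := l) (B.map fun p => p.1 :: p.2) (by
        intro t ht
        obtain ⟨p, hp, rfl⟩ := List.mem_map.1 ht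
        rw [List.length_cons]
        exact hall p hp) (x.val / l) (x.val % l) (by rw [List.length_map, hBd]; exact hxd) hxl
      rw [b1, Nat.div_add_mod', get_cut hm f i hx, ZMod.natCast_zmod_val, List.getElem_map] at h1
      unfold cyg
      have h2 : ((x.val / l : ℕ) : ZMod d).val = x.val / l := ZMod.val_natCast_of_lt hxd
      change ((B[((x.val / l : ℕ) : ZMod d).val]'(hq _)).1 ::
        (B[((x.val / l : ℕ) : ZMod d).val]'(hq _)).2).getD (x.val % l) (F 0) = _
      simp only [h2]
      rw [List.getD_eq_getElem?_getD, ← h1]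
      rfl
    change cedges (cyg l F s') = cedges f
    ext e
    constructor
    · rintro ⟨x, rfl⟩
      refine ⟨i + x, ?_⟩
      rw [hcyg, hcyg, add_assoc]
    · rintro ⟨x, rfl⟩
      refine ⟨x - i, ?_⟩
      rw [hcyg, hcyg]
      congr 2
      · ring
      · ring

end H46.CZ
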